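import Pool.Agent.Lib.MP_33b3f9_ag.M4.CL.TR
import Pool.Agent.Lib.MP_33b3f9_ag.M4.ThAlg

/-! Unbounded denominators produce all transvections. -/

namespace M4.CL

open Matrix

variable {ι : Type} [Fintype ι] [DecidableEq ι]

theorem e3a_zero (v : ι ⊕ ι → ℝ) : tv 0 v = 1 := by simp [tv]

theorem e3a_conj (H : Submonoid (RM ι)) {g g' : RM ι} (hg : g ∈ H) (hg' : g' ∈ H) (hs : Sim g 1)
    (e : g * g' = 1) {t : ℝ} {u : ι ⊕ ι → ℝ} (h : tv t u ∈ H) : tv t (g *ᵥ u) ∈ H := by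
  have : tv t (g *ᵥ u) = g * tv t u * g' := by rw [tv_conj hs, mul_assoc, e, mul_one]
  rw [this]
  exact H.mul_mem (H.mul_mem hg h) hg'

theorem e3a_int (H : Submonoid (RM ι)) {q : ℕ}
    (hΓ : ∀ γ b : ZM ι, γ ∈ symplecticGroup ι ℤ → γ = 1 + (q : ℤ) • b → zr γ ∈ H)
    (v : ι ⊕ ι → ℤ) : tv q (rz v) ∈ H ∧ tv (-q) (rz v) ∈ H := by
  have key : ∀ n : ℤ, zr (1 + n • nv v) = tv n (rz v) := fun n => by
    rw [zr_add, zr_one, zr_smul, zr_nv, tv]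
  have h1 : ∀ n : ℤ, 1 + n • nv v ∈ symplecticGroup ι ℤ := fun n =>
    (sim_zr_iff _).1 (key n ▸ tv_sim _ _)
  constructor
  · have := hΓ _ (nv v) (h1 q) rfl
    rwa [key, Int.cast_natCast] at this
  · have := hΓ _ (-nv v) (h1 (-q)) (by rw [neg_smul, smul_neg])
    rwa [key, Int.cast_neg, Int.cast_natCast] at this

theorem e3a_step (H : Submonoid (RM ι)) {q : ℕ} (hq : q ≠ 0)
    (hΓ : ∀ γ b : ZM ι, γ ∈ symplecticGroup ι ℤ → γ = 1 + (q : ℤ) • b → zr γ ∈ H)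
    {u : ι ⊕ ι → ℝ} (h : ∀ t, tv t u ∈ H) {v : ι ⊕ ι → ℤ} (hv : E (rz v) u ≠ 0) (t : ℝ) :
    tv t (rz v) ∈ H := by
  have hinv : ∀ (s : ℝ) (x : ι ⊕ ι → ℝ), tv s x * tv (-s) x = 1 := fun s x => by
    rw [tv_add, add_neg_cancel, e3a_zero]
  have hc : (q : ℝ) * E (rz v) u ≠ 0 := mul_ne_zero (Nat.cast_ne_zero.2 hq) hv
  set c := (q : ℝ) * E (rz v) u with hcdef
  have h1 : ∀ s, tv s (u - c • rz v) ∈ H := fun s => by
    have := e3a_conj H (e3a_int H hΓ v).1 (e3a_int H hΓ v).2 (tv_sim _ _) (hinv _ _) (h s)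
    rwa [tv_mulVec] at this
  have h2 : E u (u - c • rz v) ≠ 0 := by
    rw [E_sub_right, E_self, E_smul_right, E_swap, zero_sub, neg_ne_zero]
    exact mul_ne_zero hc (neg_ne_zero.2 hv)
  have h3 := e3a_conj H (h (E u (u - c • rz v))⁻¹) (h _) (tv_sim _ _) (hinv _ _) (h1 (t / c ^ 2))
  rw [tv_mulVec, inv_mul_cancel₀ h2, one_smul, sub_sub_cancel_left, ← neg_smul, tv_smul, neg_sq,
    div_mul_cancel₀ _ (pow_ne_zero 2 hc)] at h3
  exact h3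

theorem e3a_ex {u : ι ⊕ ι → ℝ} (hu : u ≠ 0) : ∃ z : ι ⊕ ι → ℤ, E (rz z) u ≠ 0 := by
  obtain ⟨i, hi⟩ := Function.ne_iff.1 hu
  rcases i with j | j
  · exact ⟨Pi.single (Sum.inr j) 1, by simpa [E, rz, Pi.single_apply] using hi⟩
  · exact ⟨Pi.single (Sum.inl j) 1, by simpa [E, rz, Pi.single_apply] using hi⟩

/-- Let `W = {u | ∀ t, tv t u ∈ H}`; it is stable under scaling (`tv_smul`). If `g, g' ∈ H` are
symplectic with `g * g' = 1` then `g W ⊆ W` (`tv_conj`); this applies to `g = tv (± q) (rz v)` and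
to `g = tv s u`, `u ∈ W`. For `v` integral with `E (rz v) u ≠ 0`: `u' = tv q v u = u - c v ∈ W`,
`c ≠ 0`, `E u u' ≠ 0`, `tv s u u' = u' - s (E u u') u ∈ W` for all `s`, so `c v ∈ W`. In general
choose an integral `z` with `E z u ≠ 0`, `E z v ≠ 0` (a basis vector or a sum of two) and apply
this twice. -/
theorem tv_all (H : Submonoid (RM ι)) {q : ℕ} (hq : q ≠ 0)
    (hΓ : ∀ γ b : ZM ι, γ ∈ symplecticGroup ι ℤ → γ = 1 + (q : ℤ) • b → zr γ ∈ H)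
    {u : ι ⊕ ι → ℝ} (hu : u ≠ 0) (h : ∀ t, tv t u ∈ H) (t : ℝ) (v : ι ⊕ ι → ℤ) :
    tv t (rz v) ∈ H := by
  by_cases hv : (rz v : ι ⊕ ι → ℝ) = 0
  · rw [hv, ← zero_smul ℝ u, tv_smul]
    exact h _
  obtain ⟨z, h1, h2⟩ : ∃ z : ι ⊕ ι → ℤ, E (rz z) u ≠ 0 ∧ E (rz z) (rz v) ≠ 0 := by
    obtain ⟨z1, h1⟩ := e3a_ex hu
    obtain ⟨z2, h2⟩ := e3a_ex hv
    by_cases h3 : E (rz z1) (rz v) = 0
    · by_cases h4 : E (rz z2) u = 0
      · have e : (rz (z1 + z2) : ι ⊕ ι → ℝ) = rz z1 + rz z2 := by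
          funext i
          simp [rz]
        exact ⟨z1 + z2, by rwa [e, E_add_left, h4, add_zero], by rwa [e, E_add_left, h3, zero_add]⟩
      · exact ⟨z2, h4, h2⟩
    · exact ⟨z1, h1, h3⟩
  exact e3a_step H hq hΓ (e3a_step H hq hΓ h h1) (by rw [E_swap]; exact neg_ne_zero.2 h2) t

/-- The parameters of the transvections along `u` that lie in `H` with their inverses. -/
def e3a_grp (H : Submonoid (RM ι)) (u : ι ⊕ ι → ℝ) : AddSubgroup ℝ where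
  carrier := {t | tv t u ∈ H ∧ tv (-t) u ∈ H}
  zero_mem' := by simp [e3a_zero, H.one_mem]
  add_mem' := fun {s t} hs ht => by
    refine ⟨?_, ?_⟩
    · rw [← tv_add]
      exact H.mul_mem hs.1 ht.1
    · rw [neg_add, ← tv_add]
      exact H.mul_mem hs.2 ht.2
  neg_mem' := fun {s} hs => ⟨hs.2, by rw [neg_neg]; exact hs.1⟩

theorem e3a_bez (A : AddSubgroup ℝ) {x : ℝ} (r : ℚ) (h1 : x ∈ A) (h2 : x * (r : ℝ) ^ 2 ∈ A) :
    x / (r.den : ℝ) ^ 2 ∈ A := by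
  have hc : IsCoprime (r.num ^ 2) ((r.den : ℤ) ^ 2) :=
    (Int.isCoprime_iff_gcd_eq_one.2 (show r.num.gcd r.den = 1 from r.reduced)).pow
  obtain ⟨a, b, hab⟩ := hc
  have h3 : (a : ℝ) * (r.num : ℝ) ^ 2 + b * (r.den : ℝ) ^ 2 = 1 := by exact_mod_cast hab
  have h4 : (r.den : ℝ) ≠ 0 := Nat.cast_ne_zero.2 r.den_ne_zero
  have e : x / (r.den : ℝ) ^ 2 = a • (x * (r : ℝ) ^ 2) + b • x := by
    rw [Rat.cast_def, zsmul_eq_mul, zsmul_eq_mul]
    field_simp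
    linear_combination (-x) * h3
  rw [e]
  exact A.add_mem (A.zsmul_mem h2 a) (A.zsmul_mem h1 b)

omit [Fintype ι] in
theorem e3a_single (i : ι ⊕ ι) : (rz (Pi.single i 1) : ι ⊕ ι → ℝ) = Pi.single i 1 := by
  funext j
  simp [rz, Pi.single_apply]

theorem e3a_col {m j : ℕ} (hm : m ≠ 0) {δ : RM ι} (h : IntM ((m : ℝ) ^ j • δ)) (i : ι ⊕ ι) :
    ∃ (r : ℚ) (γ : ZM ι), γ ∈ symplecticGroup ι ℤ ∧ r.den ∣ m ^ j ∧
      δ *ᵥ Pi.single i 1 = (r : ℝ) • rz (γ *ᵥ Pi.single i 1) := by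
  obtain ⟨b, hb⟩ := h
  obtain ⟨c, γ, hγ, hc⟩ := exists_tr i (b *ᵥ Pi.single i 1)
  refine ⟨c / ((m ^ j : ℕ) : ℤ), γ, hγ, ?_, ?_⟩
  · have := Rat.den_dvd c ((m ^ j : ℕ) : ℤ)
    rw [Rat.divInt_eq_div] at this
    exact_mod_cast this
  · have h0 : (m : ℝ) ^ j ≠ 0 := pow_ne_zero _ (Nat.cast_ne_zero.2 hm)
    have h1 := zr_mulVec b (Pi.single i 1)
    rw [← hb, e3a_single, hc, smul_mulVec] at h1
    funext k
    have h2 := congrFun h1 k
    simp only [rz, Pi.smul_apply, smul_eq_mul, Int.cast_mul] at h2 ⊢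
    push_cast
    field_simp
    linear_combination h2

theorem e3a_cong (H : Submonoid (RM ι)) {q : ℕ}
    (hΓ : ∀ γ b : ZM ι, γ ∈ symplecticGroup ι ℤ → γ = 1 + (q : ℤ) • b → zr γ ∈ H)
    (a b : symplecticGroup ι ℤ)
    (h : a.1.map (Int.cast : ℤ → ZMod q) = b.1.map (Int.cast : ℤ → ZMod q)) :
    zr (b * a⁻¹).1 ∈ H := by
  have h1 : ∀ i j, ∃ c : ℤ, b.1 i j - a.1 i j = q * c := fun i j =>
    (ZMod.intCast_eq_intCast_iff_dvd_sub _ _ q).1 (congrFun (congrFun h i) j)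
  choose β hβ using h1
  have h2 : b.1 = a.1 + (q : ℤ) • Matrix.of β := by
    ext i j
    simp [← hβ]
  refine hΓ _ (Matrix.of β * (a⁻¹).1) (b * a⁻¹).2 ?_
  have h3 : a.1 * (a⁻¹).1 = 1 := congrArg Subtype.val (mul_inv_cancel a)
  change b.1 * (a⁻¹).1 = _
  rw [h2, add_mul, h3, Matrix.smul_mul]

/-- For `δ ∈ D` and a column `i` write `δ e_i = r • γ e_i`, `r = a / b` in lowest terms,
`b ∣ m ^ j` (`exists_tr` for the integral vector `m ^ j δ e_i`). Conjugating `tv (± q) e_i` by `δ`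
and by `γ`: `tv (± q r²) u`, `tv (± q) u ∈ H`, `u = γ e_i`; Bezout for `a², b²`: `tv (± q / b²) u ∈ H`.
The `b` are unbounded (else they all divide one `m ^ j` and `m ^ j δ` is integral). The pairs
(`i`, `γ` modulo `q`) are finite in number, and `γ' γ⁻¹ = 1` modulo `q` lies in `H` with its
inverse, so for one `u` the closed additive group `{t | tv t u ∈ H ∧ tv (-t) u ∈ H}` has arbitrarily
small elements (`AddSubgroup.dense_or_cyclic` or `dense_of_not_isolated_zero`). -/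
theorem tv_of_unbounded (H : Submonoid (RM ι)) (hc : ∀ u, IsClosed {t : ℝ | tv t u ∈ H})
    {q m : ℕ} (hq : q ≠ 0) (hm : m ≠ 0)
    (hΓ : ∀ γ b : ZM ι, γ ∈ symplecticGroup ι ℤ → γ = 1 + (q : ℤ) • b → zr γ ∈ H)
    (D : Set (RM ι)) (hD : ∀ δ ∈ D, δ ∈ H ∧ Sim δ 1 ∧ (∃ j : ℕ, IntM ((m : ℝ) ^ j • δ)) ∧
      ∃ δ' ∈ H, δ * δ' = 1) (hu : ∀ j : ℕ, ∃ δ ∈ D, ¬ IntM ((m : ℝ) ^ j • δ))
    (t : ℝ) (v : ι ⊕ ι → ℤ) : tv t (rz v) ∈ H := by
  have : NeZero q := ⟨hq⟩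
  have key : ∀ B : ℕ, ∃ (i : ι ⊕ ι) (γ : symplecticGroup ι ℤ) (b : ℕ), B < b ∧
      (q : ℝ) / (b : ℝ) ^ 2 ∈ e3a_grp H (rz (γ.1 *ᵥ Pi.single i 1)) := by
    intro B
    have h1 : ∀ᶠ J in Filter.atTop, ∀ b ∈ Finset.range (B + 1), (∃ j, b ∣ m ^ j) → b ∣ m ^ J := by
      refine (Filter.eventually_all_finset _).2 fun b _ => ?_
      by_cases h : ∃ j, b ∣ m ^ j
      · obtain ⟨j, hj⟩ := h
        filter_upwards [Filter.eventually_ge_atTop j] with J hJ _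
        exact hj.trans (pow_dvd_pow m hJ)
      · exact Filter.Eventually.of_forall fun J h' => absurd h' h
    obtain ⟨J, hJ⟩ := h1.exists
    obtain ⟨δ, hδ, hn⟩ := hu J
    obtain ⟨h2, h3, ⟨j, h4⟩, δ', h5, h6⟩ := hD δ hδ
    choose r γ hγ hr he using e3a_col hm h4
    by_cases h7 : ∃ i, B < (r i).den
    · obtain ⟨i, hi⟩ := h7
      refine ⟨i, ⟨γ i, hγ i⟩, (r i).den, hi, e3a_bez _ (r i) (e3a_int H hΓ _) ?_⟩
      have h8 := e3a_int H hΓ (Pi.single i 1)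
      rw [e3a_single] at h8
      have h9 := e3a_conj H h2 h5 h3 h6 h8.1
      have h10 := e3a_conj H h2 h5 h3 h6 h8.2
      rw [he, tv_smul] at h9 h10
      exact ⟨h9, by rwa [neg_mul] at h10⟩
    · push Not at h7
      have h8 : ∀ i, ∃ c : ℕ, m ^ J = (r i).den * c := fun i =>
        hJ _ (Finset.mem_range.2 (Nat.lt_succ_of_le (h7 i))) ⟨j, hr i⟩
      choose c hc using h8
      refine absurd ⟨Matrix.of fun k i => (r i).num * c i * γ i k i, ?_⟩ hn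
      ext k i
      have h9 := congrFun (he i) k
      have h10 : (m : ℝ) ^ J = (r i).den * c i := by exact_mod_cast hc i
      have h11 : ((r i).den : ℝ) ≠ 0 := Nat.cast_ne_zero.2 (r i).den_ne_zero
      simp only [mulVec_single_one, col_apply, Pi.smul_apply, rz, smul_eq_mul] at h9
      simp only [zr, Matrix.smul_apply, smul_eq_mul, map_apply, of_apply, h9, h10, Rat.cast_def]
      push_cast
      field_simp
  choose i γ b hb hm' using key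
  obtain ⟨y, hy⟩ := Finite.exists_infinite_fiber
    fun B : ℕ => (i B, (γ B).1.map (Int.cast : ℤ → ZMod q))
  have hy' := Set.infinite_coe_iff.1 hy
  obtain ⟨B0, hB0⟩ := hy'.nonempty
  have h1 : ∀ B ∈ (fun B : ℕ => (i B, (γ B).1.map (Int.cast : ℤ → ZMod q))) ⁻¹' {y},
      (q : ℝ) / (b B : ℝ) ^ 2 ∈ e3a_grp H (rz ((γ B0).1 *ᵥ Pi.single (i B0) 1)) := by
    intro B hB
    have e := (Set.mem_singleton_iff.1 hB).trans (Set.mem_singleton_iff.1 hB0).symm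
    have e1 : i B = i B0 := congrArg Prod.fst e
    have e2 := congrArg Prod.snd e
    have g1 := e3a_cong H hΓ (γ B) (γ B0) e2
    have g2 := e3a_cong H hΓ (γ B0) (γ B) e2.symm
    have g3 : zr (γ B0 * (γ B)⁻¹).1 * zr (γ B * (γ B0)⁻¹).1 = 1 := by
      rw [← zr_mul, ← Submonoid.coe_mul, mul_assoc, inv_mul_cancel_left, mul_inv_cancel]
      exact zr_one
    have g4 : zr (γ B0 * (γ B)⁻¹).1 *ᵥ rz ((γ B).1 *ᵥ Pi.single (i B) 1) =
        rz ((γ B0).1 *ᵥ Pi.single (i B0) 1) := by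
      rw [zr_mulVec, mulVec_mulVec, ← Submonoid.coe_mul, inv_mul_cancel_right, e1]
    have g5 := (sim_zr_iff _).2 (γ B0 * (γ B)⁻¹).2
    exact ⟨g4 ▸ e3a_conj H g1 g2 g5 g3 (hm' B).1, g4 ▸ e3a_conj H g1 g2 g5 g3 (hm' B).2⟩
  have h2 : Dense (e3a_grp H (rz ((γ B0).1 *ᵥ Pi.single (i B0) 1)) : Set ℝ) := by
    refine AddSubgroup.dense_of_not_isolated_zero _ fun ε hε => ?_
    obtain ⟨n, hn⟩ := exists_nat_gt (q / ε)
    obtain ⟨B, hB, hnB⟩ := hy'.exists_gt n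
    have h3 : (n : ℝ) + 1 ≤ b B := by exact_mod_cast (hnB.trans (hb B))
    have h4 : (0 : ℝ) ≤ n := n.cast_nonneg
    have h5 : (0 : ℝ) < q := Nat.cast_pos.2 (Nat.pos_of_ne_zero hq)
    refine ⟨_, h1 B hB, div_pos h5 (pow_pos (by linarith) 2), ?_⟩
    rw [div_lt_iff₀ (pow_pos (by linarith) 2)]
    rw [div_lt_iff₀ hε] at hn
    have h6 : (n : ℝ) ≤ (b B : ℝ) ^ 2 := by nlinarith
    nlinarith
  refine tv_all H hq hΓ (u := rz ((γ B0).1 *ᵥ Pi.single (i B0) 1)) (fun h0 => ?_) (fun s => ?_) t v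
  · have h3 := zr_mulVec ((γ B0)⁻¹).1 ((γ B0).1 *ᵥ Pi.single (i B0) 1)
    rw [h0, mulVec_zero, mulVec_mulVec, ← Submonoid.coe_mul, inv_mul_cancel, OneMemClass.coe_one,
      one_mulVec, e3a_single] at h3
    simpa using congrFun h3 (i B0)
  · exact (hc _).closure_subset_iff.2 (fun x hx => hx.1) (h2 s)

end M4.CL
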