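import Pool.Agent.Lib.MP_33b3f9_ag.M4.CL.Mx
import Pool.Agent.Lib.MP_33b3f9_ag.M4.MFDefs

/-! Real translations of the Siegel space. -/

namespace M4.CL

open Matrix

variable {ι : Type} [Fintype ι] [DecidableEq ι]

/-- The translation by `-S`. -/
def trl (S : Matrix ι ι ℝ) : RM ι := fromBlocks 1 0 S 1

theorem act_trl (S : Matrix ι ι ℝ) (τ : Matrix ι ι ℂ) :
    act (trl S) τ = τ - S.map Complex.ofReal := by
  simp [act, trl, Matrix.map_one, Matrix.map_zero]

theorem wt_trl (S : Matrix ι ι ℝ) (τ : Matrix ι ι ℂ) : wt (trl S) τ = 1 := by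
  simp [wt, den, trl, Matrix.map_one, Matrix.map_zero]

/-- `tv t (0, b) = trl (t • b bᵀ)`, `trl S * trl S' = trl (S + S')`, and a symmetric matrix is a
real combination of the `b bᵀ` with `b = e i` or `b = e i + e j`. -/
theorem trl_mem (H : Submonoid (RM ι)) (h : ∀ (t : ℝ) (v : ι ⊕ ι → ℤ), tv t (rz v) ∈ H)
    {S : Matrix ι ι ℝ} (hS : S.IsSymm) : trl S ∈ H := by
  let T : AddSubmonoid (Matrix ι ι ℝ) :=
    { carrier := {S | trl S ∈ H}
      zero_mem' := by
        have e : trl (0 : Matrix ι ι ℝ) = 1 := fromBlocks_one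
        simpa only [Set.mem_ofPred_eq, e] using H.one_mem
      add_mem' := fun {S S'} h1 h2 => by
        have e : trl (S + S') = trl S * trl S' := by simp [trl, fromBlocks_multiply]
        simpa only [Set.mem_ofPred_eq, e] using H.mul_mem h1 h2 }
  have h1 : ∀ (t : ℝ) (b : ι → ℤ), t • vecMulVec (rz b) (rz b) ∈ T := fun t b => by
    have e : tv t (rz (Sum.elim 0 b)) = trl (t • vecMulVec (rz b) (rz b)) := by
      ext (i | i) (j | j) <;>
        simp [tv, nv, trl, rz, J, mul_apply, vecMulVec_apply, one_apply]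
    have := h t (Sum.elim 0 b)
    rwa [e] at this
  let P : ι → ι → Matrix ι ι ℝ := fun i j => (S i j / 4) •
    vecMulVec (rz (Pi.single i 1 + Pi.single j 1)) (rz (Pi.single i 1 + Pi.single j 1)) +
      (-(S i j / 4)) •
        vecMulVec (rz (Pi.single i 1 - Pi.single j 1)) (rz (Pi.single i 1 - Pi.single j 1))
  have e : S = ∑ i, ∑ j, P i j := by
    ext k l
    have e1 : ∀ i j, P i j k l = (if l = j then if k = i then S i j / 2 else 0 else 0) +
          if k = j then if l = i then S i j / 2 else 0 else 0 := fun i j => by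
      simp only [P, rz, Matrix.add_apply, Matrix.smul_apply, vecMulVec_apply, Pi.add_apply,
        Pi.sub_apply, Pi.single_apply, smul_eq_mul]
      split_ifs <;> push_cast <;> ring
    simp only [Matrix.sum_apply, e1, Finset.sum_add_distrib, Finset.sum_ite_eq, Finset.mem_univ,
      if_true]
    rw [hS.apply k l]
    ring
  have : S ∈ T := by
    rw [e]
    exact sum_mem fun i _ => sum_mem fun j _ => add_mem (h1 _ _) (h1 _ _)
  exact this

omit [DecidableEq ι] in
/-- Write `τ - a = S₁ + i S₂` with real symmetric `S₁, S₂`. The function `z ↦ F (a + S₁ + z S₂)` is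
holomorphic on the convex open set of the `z` where the argument lies in `PosIm`; this set contains
the real line and `i`. Identity theorem in one variable. -/
theorem eq_zero_of_real {F : (ι → ι → ℂ) → ℂ} (hF : DifferentiableOn ℂ F (PosIm ι))
    {a τ : Matrix ι ι ℂ} (ha : InH a) (hτ : InH τ)
    (h : ∀ S : Matrix ι ι ℝ, S.IsSymm → F (a - S.map Complex.ofReal) = 0) : F τ = 0 := by
  let S₁ : Matrix ι ι ℝ := (τ - a).map Complex.re
  let S₂ : Matrix ι ι ℝ := (τ - a).map Complex.im
  have hs : (τ - a).IsSymm := hτ.1.sub ha.1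
  let L : ℂ → ι → ι → ℂ := fun z i j => a i j + S₁ i j + z * S₂ i j
  have hL : Differentiable ℂ L := by fun_prop
  have him : ∀ (z : ℂ) (x : ι → ℝ), ∑ i, ∑ j, (L z i j).im * x i * x j =
      ∑ i, ∑ j, (a i j).im * x i * x j + z.im * ∑ i, ∑ j, S₂ i j * x i * x j := fun z x => by
    simp only [L, Finset.mul_sum, ← Finset.sum_add_distrib]
    refine Finset.sum_congr rfl fun i _ => Finset.sum_congr rfl fun j _ => ?_
    simp only [Complex.add_im, Complex.ofReal_im, Complex.mul_im, Complex.ofReal_re]
    ring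
  have hU : IsOpen (L ⁻¹' PosIm ι) := isOpen_posIm.preimage hL.continuous
  have hc : Convex ℝ (L ⁻¹' PosIm ι) := by
    intro z hz w hw s t h1 h2 h3 x hx
    have h4 := hz x hx
    have h5 := hw x hx
    rw [him] at h4 h5 ⊢
    simp only [Complex.add_im, Complex.smul_im, smul_eq_mul]
    obtain rfl : t = 1 - s := by linarith
    rcases h1.eq_or_lt with rfl | h1
    · simpa using h5
    · nlinarith [mul_pos h1 h4, mul_nonneg h2 h5.le]
  have hI : L Complex.I = fun i j => τ i j := by
    funext i j
    apply Complex.ext <;> simp [L, S₁, S₂]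
  have h0 : (0 : ℂ) ∈ L ⁻¹' PosIm ι := fun x hx => by
    rw [him]
    simpa using ha.posIm x hx
  have han : AnalyticOnNhd ℂ (F ∘ L) (L ⁻¹' PosIm ι) :=
    (hF.comp hL.differentiableOn fun z hz => hz).analyticOnNhd hU
  have hre : ∀ t : ℝ, (F ∘ L) t = 0 := fun t => by
    have := h (-(S₁ + t • S₂)) ((hs.map _).add ((hs.map _).smul t)).neg
    refine Eq.trans (congrArg F ?_) this
    funext i j
    simp [L]
    ring
  have ht : Filter.Tendsto Complex.ofReal (nhdsWithin 0 {0}ᶜ) (nhdsWithin 0 {0}ᶜ) :=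
    Complex.continuous_ofReal.continuousWithinAt.tendsto_nhdsWithin fun t ht => by simpa using ht
  have := han.eqOn_zero_of_preconnected_of_frequently_eq_zero hc.isPreconnected h0
    (ht.frequently (Filter.Frequently.of_forall hre)) (x := Complex.I)
    (by rw [Set.mem_preimage, hI]; exact hτ.posIm)
  rwa [Function.comp_apply, hI] at this

end M4.CL
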