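import Mathlib

/-! Functions with independent differentials are algebraically independent. -/

namespace M4.CL

open Filter Topology

/-- The differentials span the dual space, so `D` of them form a basis (`exists_linearIndependent`,
`Module.Dual`), the map `x ↦ (u i x)` has a bijective derivative and maps `𝓝 x₀` onto the
neighbourhoods of its value (`HasStrictFDerivAt.map_nhds_eq_of_surj`). A polynomial that vanishes
on an open set is zero (`MvPolynomial.funext_set` with small discs). -/
theorem exists_indep {E : Type} [NormedAddCommGroup E] [NormedSpace ℂ E] [FiniteDimensional ℂ E]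
    {D : ℕ} (hD : Module.finrank ℂ E = D) {x₀ : E} (U : Set (E → ℂ))
    (hU : ∀ u ∈ U, AnalyticAt ℂ u x₀) (hs : ∀ ξ : E, (∀ u ∈ U, fderiv ℂ u x₀ ξ = 0) → ξ = 0) :
    ∃ u : Fin D → E → ℂ, (∀ i, u i ∈ U) ∧ ∀ p : MvPolynomial (Fin D) ℂ,
      (∀ᶠ x in 𝓝 x₀, MvPolynomial.eval (fun i => u i x) p = 0) → p = 0 := by
  have hcs : CompleteSpace E := FiniteDimensional.complete ℂ E
  let l : U → Module.Dual ℂ E := fun u => (fderiv ℂ u.1 x₀).toLinearMap
  have hl : Submodule.span ℂ (Set.range l) = ⊤ := by
    refine Submodule.span_eq_top_of_ne_zero fun ξ hξ => ?_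
    by_contra h
    push Not at h
    exact hξ (hs ξ fun u hu => h _ ⟨⟨u, hu⟩, rfl⟩)
  obtain ⟨κ, a, -, ha, hi⟩ := exists_linearIndependent' ℂ l
  rw [hl] at ha
  have hfin : Finite κ := hi.finite
  have hκ := Fintype.ofFinite κ
  have hc : Fintype.card κ = D := by
    rw [← Module.finrank_eq_card_basis (Module.Basis.mk hi ha.ge), Subspace.dual_finrank_eq, hD]
  let e : Fin D ≃ κ := (Fintype.equivFinOfCardEq hc).symm
  refine ⟨fun i => (a (e i)).1, fun i => (a (e i)).2, fun p hp => ?_⟩
  have hder : HasStrictFDerivAt (fun x i => (a (e i)).1 x)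
      (ContinuousLinearMap.pi fun i => fderiv ℂ (a (e i)).1 x₀) x₀ :=
    hasStrictFDerivAt_pi.2 fun i => (hU _ (a (e i)).2).hasStrictFDerivAt
  have hinj : Function.Injective
      (ContinuousLinearMap.pi fun i => fderiv ℂ (a (e i)).1 x₀).toLinearMap := by
    rw [injective_iff_map_eq_zero]
    intro ξ hξ
    rw [← Module.forall_dual_apply_eq_zero_iff ℂ]
    intro φ
    have h1 : φ ∈ Submodule.span ℂ (Set.range (l ∘ a)) := ha ▸ Submodule.mem_top
    induction h1 using Submodule.span_induction with
    | mem φ h =>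
      obtain ⟨j, rfl⟩ := h
      obtain ⟨i, rfl⟩ := e.surjective j
      exact congrFun hξ i
    | zero => rfl
    | add φ ψ _ _ h h' => rw [LinearMap.add_apply, h, h', add_zero]
    | smul c φ _ h => rw [LinearMap.smul_apply, h, smul_zero]
  have hsurj := (LinearMap.injective_iff_surjective_of_finrank_eq_finrank
    (by rw [hD, Module.finrank_fin_fun])).1 hinj
  have hmap := hder.map_nhds_eq_of_surj (LinearMap.range_eq_top.2 hsurj)
  have h2 : (fun w : Fin D → ℂ => MvPolynomial.eval w p) =ᶠ[𝓝 fun i => (a (e i)).1 x₀] 0 := by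
    rw [← hmap]
    exact hp
  have h3 := AnalyticOnNhd.eq_of_eventuallyEq
    (AnalyticOnNhd.eval_continuousLinearMap (ContinuousLinearMap.id ℂ (Fin D → ℂ)) p)
    analyticOnNhd_const h2
  exact MvPolynomial.funext fun w => (congrFun h3 w).trans (map_zero _).symm

end M4.CL
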