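import Pool.Agent.Lib.MP_33b3f9_ag.M4.ThModG

/-! Matrix notions for the counting lemma. -/

namespace M4.CL

open Matrix

variable {ι κ : Type}

/-- Real and integral matrices of size `2 g`. -/
abbrev RM (ι : Type) : Type := Matrix (ι ⊕ ι) (ι ⊕ ι) ℝ

abbrev ZM (ι : Type) : Type := Matrix (ι ⊕ ι) (ι ⊕ ι) ℤ

/-- An integral matrix as a real matrix. -/
def zr (g : Matrix κ κ ℤ) : Matrix κ κ ℝ := g.map fun n => (n : ℝ)

/-- Integral real vectors and matrices, rational real matrices. -/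
def IntV (x : κ → ℝ) : Prop := ∃ n : κ → ℤ, x = rz n

def IntM (g : Matrix κ κ ℝ) : Prop := ∃ b : Matrix κ κ ℤ, g = zr b

def RatM (g : Matrix κ κ ℝ) : Prop := ∃ n : ℕ, n ≠ 0 ∧ IntM ((n : ℝ) • g)

variable [Fintype ι] [DecidableEq ι]

/-- `g = 1` modulo `N`, denominators being powers of `m`. -/
def Cong (N m : ℕ) (g : RM ι) : Prop := ∃ (j : ℕ) (b : ZM ι), (m : ℝ) ^ j • (g - 1) = (N : ℝ) • zr b

/-- The nilpotent matrix `v vᵀ J` over a ring. -/
def nv {R : Type} [CommRing R] (v : ι ⊕ ι → R) : Matrix (ι ⊕ ι) (ι ⊕ ι) R :=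
  vecMulVec v v * J ι R

/-- The transvection `1 + t v vᵀ J`. -/
def tv (t : ℝ) (v : ι ⊕ ι → ℝ) : RM ι := 1 + t • nv v

/-- The diagonal embedding of matrices of size `2 g` into matrices of size `16 g`. -/
def dg (g : RM ι) : RM (ι × Fin 8) :=
  fromBlocks (blockDiagonal fun _ => g.toBlocks₁₁) (blockDiagonal fun _ => g.toBlocks₁₂)
    (blockDiagonal fun _ => g.toBlocks₂₁) (blockDiagonal fun _ => g.toBlocks₂₂)

/-- A subgroup of `ℝ^(2g)` that is its own dual for `E` and commensurable with the standard lattice,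
with `n` clearing all denominators. -/
structure SelfDual (L : AddSubgroup (ι ⊕ ι → ℝ)) (n : ℕ) : Prop where
  ne : n ≠ 0
  dual : ∀ x, x ∈ L ↔ ∀ y ∈ L, ∃ k : ℤ, E x y = k
  low : ∀ x, IntV x → (n : ℝ) • x ∈ L
  up : ∀ x ∈ L, IntV ((n : ℝ) • x)

theorem E_eq (x y : ι ⊕ ι → ℝ) : E x y = -(x ⬝ᵥ J ι ℝ *ᵥ y) := by
  exact act_E_J x y

theorem sim_iff (g : RM ι) (m : ℝ) : Sim g m ↔ gᵀ * J ι ℝ * g = m • J ι ℝ := by
  exact M4.sim_iff

theorem zr_mul [Fintype κ] (a b : Matrix κ κ ℤ) : zr (a * b) = zr a * zr b := by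
  exact Matrix.map_mul (f := Int.castRingHom ℝ)

theorem zr_one [DecidableEq κ] : zr (1 : Matrix κ κ ℤ) = 1 := by
  exact Matrix.map_one _ Int.cast_zero Int.cast_one

theorem zr_add (a b : Matrix κ κ ℤ) : zr (a + b) = zr a + zr b := by
  ext i j
  exact Int.cast_add _ _

theorem zr_smul (n : ℤ) (a : Matrix κ κ ℤ) : zr (n • a) = (n : ℝ) • zr a := by
  ext i j
  exact Int.cast_mul _ _

theorem zr_injective : Function.Injective (zr : Matrix κ κ ℤ → Matrix κ κ ℝ) := by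
  exact Matrix.map_injective Int.cast_injective

theorem zr_mulVec [Fintype κ] (a : Matrix κ κ ℤ) (n : κ → ℤ) : zr a *ᵥ rz n = rz (a *ᵥ n) := by
  funext i
  simp [zr, rz, mulVec, dotProduct]

theorem zr_nv (v : ι ⊕ ι → ℤ) : zr (nv v) = nv (rz v) := by
  have hJ : zr (J ι ℤ) = J ι ℝ := Matrix.map_J ι (Int.castRingHom ℝ)
  rw [nv, nv, zr_mul, hJ]
  congr 1
  ext i j
  exact Int.cast_mul _ _

theorem sim_zr_iff (g : ZM ι) : Sim (zr g) 1 ↔ g ∈ symplecticGroup ι ℤ := by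
  exact sim_mz_iff

theorem intM_iff [Fintype κ] [DecidableEq κ] (g : Matrix κ κ ℝ) :
    IntM g ↔ ∀ x, IntV x → IntV (g *ᵥ x) := by
  constructor
  · rintro ⟨b, rfl⟩ _ ⟨n, rfl⟩
    exact ⟨_, zr_mulVec b n⟩
  · intro h
    choose n hn using fun j => h (Pi.single j 1) ⟨Pi.single j 1, funext fun i => by
      simp [rz, Pi.single_apply]⟩
    refine ⟨of fun i j => n j i, ?_⟩
    ext i j
    simpa [zr, rz] using congrFun (hn j) i

theorem RatM.mul [Fintype κ] {g h : Matrix κ κ ℝ} (hg : RatM g) (hh : RatM h) : RatM (g * h) := by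
  obtain ⟨m, hm, a, ha⟩ := hg
  obtain ⟨n, hn, b, hb⟩ := hh
  refine ⟨m * n, mul_ne_zero hm hn, a * b, ?_⟩
  rw [zr_mul, ← ha, ← hb, smul_mul_smul_comm, Nat.cast_mul]

theorem Sim.mul' {g h : RM ι} {m n : ℝ} (hg : Sim g m) (hh : Sim h n) : Sim (g * h) (m * n) := by
  exact hg.mul hh

theorem Sim.isUnit' {g : RM ι} {m : ℝ} (hg : Sim g m) (hm : m ≠ 0) : IsUnit g := by
  exact (isUnit_iff_isUnit_det g).2 (hg.det_ne_zero hm).isUnit

theorem Sim.inv' {g h : RM ι} {m : ℝ} (hg : Sim g m) (hm : m ≠ 0) (e : g * h = 1) :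
    Sim h m⁻¹ := by
  exact inv_eq_right_inv e ▸ hg.inv hm

/-- The inverse of a rational similitude is rational (`h = m⁻¹ J⁻¹ gᵀ J`, `m` is rational unless
`ι` is empty). -/
theorem RatM.inv' {g h : RM ι} {m : ℝ} (hg : Sim g m) (hm : m ≠ 0) (e : g * h = 1) (r : RatM g) :
    RatM h := by
  obtain ⟨n, hn, b, hb⟩ := r
  have h1 : b.det ≠ 0 := fun h1 => by
    have h2 : (zr b).det = b.det := ((Int.castRingHom ℝ).map_det b).symm
    rw [← hb, det_smul, h1, Int.cast_zero] at h2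
    exact mul_ne_zero (pow_ne_zero _ (Nat.cast_ne_zero.2 hn)) (hg.det_ne_zero hm) h2
  refine ⟨b.det.natAbs ^ 2, pow_ne_zero _ (Int.natAbs_ne_zero.2 h1),
    (b.det * n) • b.adjugate, ?_⟩
  have h2 := congrArg (fun x => zr x * h) (adjugate_mul b)
  rw [zr_mul, zr_smul, zr_one, ← hb, Matrix.mul_assoc, smul_mul_assoc, e, smul_mul_assoc,
    Matrix.one_mul, Matrix.mul_smul, Matrix.mul_one] at h2
  rw [zr_smul, Int.cast_mul, Int.cast_natCast, mul_smul, h2, smul_smul, Nat.cast_pow,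
    Nat.cast_natAbs, Int.cast_abs, sq_abs, sq]

theorem Sim.det_sq {g : RM ι} {m : ℝ} (hg : Sim g m) : g.det ^ 2 = m ^ (2 * Fintype.card ι) := by
  have h := congrArg det (M4.sim_iff.1 hg)
  rw [det_mul, det_mul, det_transpose, det_smul, Fintype.card_sum, ← two_mul,
    mul_right_comm, ← sq] at h
  exact mul_right_cancel₀ (isUnit_det_J ι ℝ).ne_zero h

theorem tv_mulVec (t : ℝ) (v x : ι ⊕ ι → ℝ) : tv t v *ᵥ x = x - (t * E v x) • v := by
  rw [tv, nv, add_mulVec, one_mulVec, smul_mulVec, ← mulVec_mulVec, E_eq, vecMulVec_mulVec]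
  funext i
  simp
  ring

theorem tv_add (s t : ℝ) (v : ι ⊕ ι → ℝ) : tv s v * tv t v = tv (s + t) v := by
  refine mulVec_injective (funext fun x => ?_)
  rw [← mulVec_mulVec, tv_mulVec, tv_mulVec, tv_mulVec, E_sub_right, E_smul_right, E_self]
  module

theorem tv_smul (t c : ℝ) (v : ι ⊕ ι → ℝ) : tv t (c • v) = tv (t * c ^ 2) v := by
  refine mulVec_injective (funext fun x => ?_)
  rw [tv_mulVec, tv_mulVec, E_smul_left]
  module

theorem tv_sim (t : ℝ) (v : ι ⊕ ι → ℝ) : Sim (tv t v) 1 := by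
  intro x y
  simp only [tv_mulVec, E_sub_left, E_sub_right, E_smul_left, E_smul_right, E_self, E_swap v x]
  ring

theorem tv_conj {g : RM ι} (hg : Sim g 1) (t : ℝ) (v : ι ⊕ ι → ℝ) :
    g * tv t v = tv t (g *ᵥ v) * g := by
  refine mulVec_injective (funext fun x => ?_)
  rw [← mulVec_mulVec, ← mulVec_mulVec, tv_mulVec, tv_mulVec, mulVec_sub, mulVec_smul, hg, one_mul]

theorem dg_mul (g h : RM ι) : dg (g * h) = dg g * dg h := by
  conv_lhs => rw [← fromBlocks_toBlocks g, ← fromBlocks_toBlocks h, fromBlocks_multiply]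
  simp only [dg, fromBlocks_multiply, toBlocks_fromBlocks₁₁, toBlocks_fromBlocks₁₂,
    toBlocks_fromBlocks₂₁, toBlocks_fromBlocks₂₂, ← blockDiagonal_mul, ← blockDiagonal_add]
  rfl

theorem dg_one : dg (1 : RM ι) = 1 := by
  rw [dg, ← fromBlocks_one, toBlocks_fromBlocks₁₁, toBlocks_fromBlocks₁₂, toBlocks_fromBlocks₂₁,
    toBlocks_fromBlocks₂₂, ← fromBlocks_one, ← blockDiagonal_one, ← blockDiagonal_zero]
  rfl

theorem dg_mulVec (g : RM ι) (x : (ι × Fin 8) ⊕ (ι × Fin 8) → ℝ) (r : Fin 8) :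
    (fun i : ι ⊕ ι => (dg g *ᵥ x) (Sum.map (·, r) (·, r) i)) =
      g *ᵥ fun i : ι ⊕ ι => x (Sum.map (·, r) (·, r) i) := by
  funext i
  cases i <;> simp [dg, mulVec, dotProduct, blockDiagonal_apply, Fintype.sum_prod_type,
    toBlocks₁₁, toBlocks₁₂, toBlocks₂₁, toBlocks₂₂]

theorem dg_sim {g : RM ι} {m : ℝ} (hg : Sim g m) : Sim (dg g) m := by
  have key : ∀ x y : (ι × Fin 8) ⊕ (ι × Fin 8) → ℝ, E x y = ∑ r : Fin 8,
      E (fun i : ι ⊕ ι => x (Sum.map (·, r) (·, r) i)) fun i => y (Sum.map (·, r) (·, r) i) :=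
    fun x y => Fintype.sum_prod_type_right _
  intro x y
  rw [key, key x, Finset.mul_sum]
  exact Finset.sum_congr rfl fun r _ => by rw [dg_mulVec, dg_mulVec, hg]

omit [Fintype ι] [DecidableEq ι] in
theorem mx_dg_smul (c : ℝ) (g : RM ι) : dg (c • g) = c • dg g := by
  ext (p | p) (q | q) <;> simp [dg, blockDiagonal_apply, toBlocks₁₁, toBlocks₁₂, toBlocks₂₁,
    toBlocks₂₂]

omit [Fintype ι] [DecidableEq ι] in
theorem mx_dg_sub (g h : RM ι) : dg (g - h) = dg g - dg h := by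
  ext (p | p) (q | q) <;> simp only [dg, blockDiagonal_apply, toBlocks₁₁, toBlocks₁₂, toBlocks₂₁,
    toBlocks₂₂, Matrix.sub_apply, of_apply, fromBlocks_apply₁₁, fromBlocks_apply₁₂,
    fromBlocks_apply₂₁, fromBlocks_apply₂₂] <;> split_ifs <;> simp

omit [Fintype ι] [DecidableEq ι] in
theorem mx_dg_zr (b : ZM ι) : IntM (dg (zr b)) := by
  refine ⟨fromBlocks (blockDiagonal fun _ => b.toBlocks₁₁) (blockDiagonal fun _ => b.toBlocks₁₂)
    (blockDiagonal fun _ => b.toBlocks₂₁) (blockDiagonal fun _ => b.toBlocks₂₂), ?_⟩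
  ext (p | p) (q | q) <;> simp [dg, zr, blockDiagonal_apply, toBlocks₁₁, toBlocks₁₂, toBlocks₂₁,
    toBlocks₂₂]

theorem dg_rat {g : RM ι} (hg : RatM g) : RatM (dg g) := by
  obtain ⟨n, hn, b, hb⟩ := hg
  obtain ⟨c, hc⟩ := mx_dg_zr b
  exact ⟨n, hn, c, by rw [← mx_dg_smul, hb, hc]⟩

theorem dg_cong {N m : ℕ} {g : RM ι} (hg : Cong N m g) : Cong N m (dg g) := by
  obtain ⟨j, b, hb⟩ := hg
  obtain ⟨c, hc⟩ := mx_dg_zr b
  exact ⟨j, c, by rw [← dg_one, ← mx_dg_sub, ← mx_dg_smul, hb, mx_dg_smul, hc]⟩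

end M4.CL
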