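import Mathlib
import Pool.Agent.Lib.MP_33b3f9_ag.M4.ThAlg
import Pool.Agent.Lib.MP_33b3f9_ag.M4.CL.Mx

/-!
A self dual lattice has a symplectic basis adapted to the standard Lagrangian.
-/

set_option autoImplicit false

namespace M4.CL

open Complex Matrix M4

variable {κ : Type} [Fintype κ] [DecidableEq κ]

/-- A subgroup of `ℤ^κ` that contains `N ℤ^κ` is spanned by the columns of a square matrix. -/
theorem exists_basis_mat (M : Submodule ℤ (κ → ℤ)) {N : ℤ} (hN : N ≠ 0)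
    (h : ∀ n : κ → ℤ, N • n ∈ M) :
    ∃ A : Matrix κ κ ℤ, A.det ≠ 0 ∧ ∀ n, n ∈ M ↔ ∃ k, n = A *ᵥ k := by
  have hr : Module.finrank ℤ M = Fintype.card κ := by
    refine le_antisymm (by simpa using M.finrank_le) ?_
    let f : (κ → ℤ) →ₗ[ℤ] M := LinearMap.codRestrict M (N • LinearMap.id) h
    have hf : Function.Injective f := fun a b hab =>
      smul_right_injective _ hN (congrArg Subtype.val hab)
    simpa using LinearMap.finrank_le_finrank_of_injective hf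
  let b : Module.Basis κ ℤ M :=
    (Module.finBasisOfFinrankEq ℤ M hr).reindex (Fintype.equivFin κ).symm
  let A : Matrix κ κ ℤ := Matrix.of fun i j => (b j : κ → ℤ) i
  have hA : ∀ k : κ → ℤ, A *ᵥ k = ((∑ j, k j • b j : M) : κ → ℤ) := fun k => by
    funext i
    simp [A, mulVec, dotProduct, mul_comm]
  have hM : ∀ n, n ∈ M ↔ ∃ k, n = A *ᵥ k := fun n => by
    refine ⟨fun hn => ⟨b.repr ⟨n, hn⟩, ?_⟩, ?_⟩
    · rw [hA, b.sum_repr]
    · rintro ⟨k, rfl⟩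
      rw [hA]
      exact Subtype.property _
  refine ⟨A, fun h0 => ?_, hM⟩
  choose k hk using fun j => (hM _).1 (h (Pi.single j 1))
  have e : A * (Matrix.of fun i j => k j i) = N • (1 : Matrix κ κ ℤ) := by
    ext i j
    have := congrFun (hk j) i
    simp only [Pi.smul_apply, mulVec, dotProduct] at this
    simp [mul_apply, ← this, Pi.single_apply, one_apply]
  have := congrArg det e
  rw [det_mul, h0, zero_mul, det_smul, det_one, mul_one] at this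
  exact pow_ne_zero _ hN this.symm

omit [DecidableEq κ] in
theorem E_elim (a b a' b' : κ → ℝ) : E (Sum.elim a b) (Sum.elim a' b') = a ⬝ᵥ b' - b ⬝ᵥ a' := by
  simp [E, dotProduct]

omit [DecidableEq κ] in
theorem exists_rz_of_int {d : κ ⊕ κ → ℝ} (h : ∀ n : κ ⊕ κ → ℤ, ∃ k : ℤ, E d (rz n) = k) :
    ∃ n : κ ⊕ κ → ℤ, d = rz n :=
  exists_rz_of_E fun n => by
    obtain ⟨k, hk⟩ := h n
    rw [hk]
    exact_mod_cast ee_int k

omit [DecidableEq κ] in
/-- An alternating integral matrix is `T - Tᵀ`. -/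
theorem exists_upper (S : Matrix κ κ ℝ) (hS : ∀ i j, S j i = -S i j)
    (hi : ∀ i j, ∃ k : ℤ, S i j = k) :
    ∃ T : Matrix κ κ ℤ, S = T.map (Int.cast : ℤ → ℝ) - (T.map (Int.cast : ℤ → ℝ))ᵀ := by
  choose k hk using hi
  let e := Fintype.equivFin κ
  refine ⟨Matrix.of fun i j => if e i < e j then k i j else 0, ?_⟩
  ext i j
  simp only [Matrix.sub_apply, Matrix.map_apply, transpose_apply, of_apply]
  rcases lt_trichotomy (e i) (e j) with h | h | h
  · simp [h, h.not_gt, hk]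
  · obtain rfl : i = j := e.injective h
    have := hS i i
    simp only [lt_irrefl, if_false, sub_self]
    linarith
  · simp [h, h.not_gt, ← hk, hS i j]

/-- SB. -/
theorem exists_sb (Λ : AddSubgroup (κ ⊕ κ → ℝ)) {N : ℤ} (hN : N ≠ 0)
    (h1 : ∀ n, (N : ℝ) • rz n ∈ Λ) (h2 : ∀ x ∈ Λ, ∃ n, (N : ℝ) • x = rz n)
    (hd : ∀ x, x ∈ Λ ↔ ∀ y ∈ Λ, ∃ k : ℤ, E x y = k) :
    ∃ p q : Matrix (κ ⊕ κ) (κ ⊕ κ) ℝ, p * q = 1 ∧ q * p = 1 ∧ Sim p 1 ∧ Sim q 1 ∧
      p.toBlocks₁₂ = 0 ∧ q.toBlocks₁₂ = 0 ∧ ∀ x, x ∈ Λ ↔ ∃ n, p *ᵥ x = rz n := by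
  have hN' : (N : ℝ) ≠ 0 := Int.cast_ne_zero.2 hN
  let M : Submodule ℤ (κ → ℤ) := AddSubgroup.toIntSubmodule
    { carrier := {n | ∃ x ∈ Λ, (N : ℝ) • (x ∘ Sum.inl) = rz n}
      zero_mem' := ⟨0, Λ.zero_mem, by funext i; simp⟩
      add_mem' := by
        rintro a b ⟨x, hx, ha⟩ ⟨y, hy, hb⟩
        exact ⟨x + y, Λ.add_mem hx hy, by rw [rz_add, ← ha, ← hb, ← smul_add]; rfl⟩
      neg_mem' := by
        rintro a ⟨x, hx, ha⟩
        exact ⟨-x, Λ.neg_mem hx, by rw [rz_neg, ← ha, ← smul_neg]; rfl⟩ }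
  have hM : ∀ n, n ∈ M ↔ ∃ x ∈ Λ, (N : ℝ) • (x ∘ Sum.inl) = rz n := fun n => Iff.rfl
  obtain ⟨A0, hA0, hA⟩ := exists_basis_mat M (mul_ne_zero hN hN) fun n =>
    (hM _).2 ⟨_, h1 (Sum.elim n 0), by funext i; simp [rz, mul_assoc]⟩
  let A : Matrix κ κ ℝ := (N : ℝ)⁻¹ • A0.map (Int.cast : ℤ → ℝ)
  have hAk : ∀ k : κ → ℤ, (N : ℝ) • (A *ᵥ rz k) = rz (A0 *ᵥ k) := fun k => by
    funext i
    simp [A, rz, mulVec, dotProduct, Finset.mul_sum, ← mul_assoc, hN']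
  have hdet : IsUnit A.det := by
    refine Ne.isUnit ?_
    rw [det_smul]
    refine mul_ne_zero (pow_ne_zero _ (inv_ne_zero hN')) ?_
    have := (Int.castRingHom ℝ).map_det A0
    simp only [eq_intCast, RingHom.mapMatrix_apply, Int.coe_castRingHom] at this
    rw [← this]
    exact Int.cast_ne_zero.2 hA0
  have hproj : ∀ y ∈ Λ, ∃ k, y ∘ Sum.inl = A *ᵥ rz k := fun y hy => by
    obtain ⟨n, hn⟩ := h2 y hy
    obtain ⟨k, hk⟩ := (hA (n ∘ Sum.inl)).1 ((hM _).2 ⟨y, hy, by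
      funext i; exact congrFun hn (Sum.inl i)⟩)
    refine ⟨k, smul_right_injective _ hN' ?_⟩
    beta_reduce
    rw [hAk, ← hk]
    funext i
    exact congrFun hn (Sum.inl i)
  have hlift : ∀ j, ∃ c : κ → ℝ, Sum.elim (fun i => A i j) c ∈ Λ := fun j => by
    obtain ⟨x, hx, h⟩ := (hM _).1 ((hA _).2 ⟨Pi.single j 1, rfl⟩)
    rw [← hAk] at h
    have h' := smul_right_injective _ hN' h
    refine ⟨x ∘ Sum.inr, ?_⟩
    convert hx using 1
    funext s
    rcases s with i | i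
    · have := congrFun h' i
      simp only [rz, mulVec, dotProduct, Pi.single_apply, Function.comp] at this
      simp [this]
    · rfl
  choose c hc using hlift
  let C0 : Matrix κ κ ℝ := Matrix.of fun i j => c j i
  let D : Matrix κ κ ℝ := Aᵀ⁻¹
  have hAD : Aᵀ * D = 1 := mul_nonsing_inv _ (by rwa [det_transpose])
  have hDA : Dᵀ * A = 1 := by
    have := congrArg transpose hAD
    rwa [transpose_mul, transpose_transpose, transpose_one] at this
  have hlow : ∀ n : κ → ℤ, Sum.elim (0 : κ → ℝ) (D *ᵥ rz n) ∈ Λ := fun n => (hd _).2 fun y hy => by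
    obtain ⟨k, hk⟩ := hproj y hy
    refine ⟨-(n ⬝ᵥ k), ?_⟩
    rw [← Sum.elim_comp_inl_inr y, E_elim, hk, zero_dotProduct, dotProduct_mulVec,
      ← mulVec_transpose, mulVec_mulVec, hAD, one_mulVec]
    simp [rz, dotProduct]
  obtain ⟨T, hT⟩ := exists_upper (Aᵀ * C0 - C0ᵀ * A)
    (fun i j => by simp [mul_apply, mul_comm]) fun i j => by
      obtain ⟨k, hk⟩ := (hd _).1 (hc i) _ (hc j)
      refine ⟨k, ?_⟩
      rw [← hk, E_elim]
      simp [mul_apply, C0, dotProduct]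
  let T' : Matrix κ κ ℝ := T.map (Int.cast : ℤ → ℝ)
  let C : Matrix κ κ ℝ := C0 - D * T'
  have hC : Aᵀ * C = Cᵀ * A := by
    simp only [C, transpose_sub, transpose_mul, Matrix.mul_sub, Matrix.sub_mul,
      ← Matrix.mul_assoc Aᵀ, Matrix.mul_assoc T'ᵀ, hAD, hDA, Matrix.one_mul, Matrix.mul_one]
    rw [sub_eq_sub_iff_sub_eq_sub, hT]
  let q : Matrix (κ ⊕ κ) (κ ⊕ κ) ℝ := fromBlocks A 0 C D
  let p : Matrix (κ ⊕ κ) (κ ⊕ κ) ℝ := fromBlocks Dᵀ 0 (-Cᵀ) Aᵀ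
  have hpq : p * q = 1 := by
    simp [p, q, fromBlocks_multiply, hAD, hDA, hC]
  have hqp : q * p = 1 := mul_eq_one_comm.1 hpq
  have hq : Sim q 1 := by
    rw [sim_iff]
    simp [q, J, fromBlocks_transpose, fromBlocks_multiply, hAD, hDA, hC]
  have hp : Sim p 1 := fun x y => by
    have := hq (p *ᵥ x) (p *ᵥ y)
    rw [mulVec_mulVec, mulVec_mulVec, hqp, one_mulVec, one_mulVec] at this
    rw [this, one_mul, one_mul]
  have hqn : ∀ n, q *ᵥ rz n ∈ Λ := fun n => by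
    have e : q *ᵥ rz n = ∑ j, n (Sum.inl j) • Sum.elim (fun i => A i j) (c j) +
        Sum.elim (0 : κ → ℝ) (D *ᵥ rz (n ∘ Sum.inr - T *ᵥ (n ∘ Sum.inl))) := by
      have e2 : rz (T *ᵥ (n ∘ Sum.inl)) = T' *ᵥ rz (n ∘ Sum.inl) := by
        funext i
        simp [T', rz, mulVec, dotProduct]
      have e3 : rz n = Sum.elim (rz (n ∘ Sum.inl)) (rz (n ∘ Sum.inr)) := by
        funext s
        rcases s with i | i <;> rfl
      rw [e3, fromBlocks_mulVec, rz_sub, e2, mulVec_sub, mulVec_mulVec]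
      simp only [Sum.elim_comp_inl, Sum.elim_comp_inr, C, sub_mulVec]
      funext s
      rcases s with i | i
      · simp [rz, mulVec, dotProduct, mul_comm]
      · simp only [Sum.elim_inr, Pi.add_apply, Pi.sub_apply, Finset.sum_apply, Pi.smul_apply]
        have : (C0 *ᵥ rz (n ∘ Sum.inl)) i = ∑ j, n (Sum.inl j) • c j i := by
          simp [C0, rz, mulVec, dotProduct, mul_comm]
        rw [this]
        ring
    rw [e]
    exact Λ.add_mem (Λ.sum_mem fun j _ => Λ.zsmul_mem (hc j) _) (hlow _)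
  refine ⟨p, q, hpq, hqp, hp, hq, by simp [p], by simp [q], fun x => ⟨fun hx => ?_, ?_⟩⟩
  · refine exists_rz_of_int fun n => ?_
    obtain ⟨k, hk⟩ := (hd x).1 hx _ (hqn n)
    refine ⟨k, ?_⟩
    have := hq (p *ᵥ x) (rz n)
    rw [mulVec_mulVec, hqp, one_mulVec, one_mul] at this
    rw [← this, hk]
  · rintro ⟨n, hn⟩
    have := hqn n
    rwa [← hn, mulVec_mulVec, hqp, one_mulVec] at this

theorem SelfDual.exists_basis {ι : Type} [Fintype ι] [DecidableEq ι]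
    {L : AddSubgroup (ι ⊕ ι → ℝ)} {n : ℕ} (h : SelfDual L n) :
    ∃ p : RM ι, Sim p 1 ∧ p.toBlocks₁₂ = 0 ∧ ∀ x, x ∈ L ↔ IntV (p *ᵥ x) := by
  obtain ⟨p, q, -, -, hp, -, hp0, -, hL⟩ := exists_sb L (N := n) (by exact_mod_cast h.ne)
    (fun k => by exact_mod_cast h.low _ ⟨k, rfl⟩) (fun x hx => by exact_mod_cast h.up x hx) h.dual
  exact ⟨p, hp, hp0, hL⟩

end M4.CL
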