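import Mathlib
import Pool.Agent.Lib.MP_33b3f9_ag.M4.CL.SB

/-!
The trick of Zarhin: a self dual lattice that is stable under a group with bounded denominators.
-/

set_option autoImplicit false

namespace M4.CL

open Complex Matrix M4

variable {ι o : Type} [Fintype ι]

/-- The dual of a set of vectors. -/
def dual (S : Set (ι ⊕ ι → ℝ)) : AddSubgroup (ι ⊕ ι → ℝ) where
  carrier := {x | ∀ y ∈ S, ∃ k : ℤ, E x y = k}
  zero_mem' := fun y _ => ⟨0, by simp⟩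
  add_mem' := fun ha hb y hy => by
    obtain ⟨k, hk⟩ := ha y hy
    obtain ⟨l, hl⟩ := hb y hy
    exact ⟨k + l, by rw [E_add_left, hk, hl, Int.cast_add]⟩
  neg_mem' := fun ha y hy => by
    obtain ⟨k, hk⟩ := ha y hy
    exact ⟨-k, by rw [E_neg_left, hk, Int.cast_neg]⟩

theorem mem_dual {S : Set (ι ⊕ ι → ℝ)} {x : ι ⊕ ι → ℝ} :
    x ∈ dual S ↔ ∀ y ∈ S, ∃ k : ℤ, E x y = k := Iff.rfl

theorem mem_dual_dual {S : Set (ι ⊕ ι → ℝ)} {y : ι ⊕ ι → ℝ} (hy : y ∈ S) :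
    y ∈ dual (dual S : Set (ι ⊕ ι → ℝ)) := fun x hx => by
  obtain ⟨k, hk⟩ := hx y hy
  exact ⟨-k, by rw [E_swap, hk, Int.cast_neg]⟩

/-- The component `k` of a vector. -/
def cp (z : (ι × o) ⊕ (ι × o) → ℝ) (k : o) : ι ⊕ ι → ℝ :=
  fun s => z (Sum.map (fun i => (i, k)) (fun i => (i, k)) s)

/-- The vector with given components. -/
def asm (f : o → ι ⊕ ι → ℝ) : (ι × o) ⊕ (ι × o) → ℝ :=
  Sum.elim (fun a => f a.2 (Sum.inl a.1)) fun a => f a.2 (Sum.inr a.1)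

omit [Fintype ι] in
theorem cp_asm (f : o → ι ⊕ ι → ℝ) : cp (asm f) = f := by
  funext k s
  rcases s with i | i <;> rfl

theorem E_cp [Fintype o] (z w : (ι × o) ⊕ (ι × o) → ℝ) :
    E z w = ∑ k, E (cp z k) (cp w k) := by
  simp only [E, Fintype.sum_prod_type_right]
  rfl

theorem E_sum_left {α : Type} (s : Finset α) (f : α → ι ⊕ ι → ℝ) (y : ι ⊕ ι → ℝ) :
    E (∑ a ∈ s, f a) y = ∑ a ∈ s, E (f a) y := by
  classical
  induction s using Finset.induction_on with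
  | empty => simp
  | insert a s ha ih => rw [Finset.sum_insert ha, Finset.sum_insert ha, E_add_left, ih]

theorem E_zsmul_left (c : ℤ) (x y : ι ⊕ ι → ℝ) : E (c • x) y = c * E x y := by
  rw [← Int.cast_smul_eq_zsmul ℝ, E_smul_left]

theorem E_zsmul_right (c : ℤ) (x y : ι ⊕ ι → ℝ) : E x (c • y) = c * E x y := by
  rw [← Int.cast_smul_eq_zsmul ℝ, E_smul_right]

/-- An integral `4 × 4` matrix with `Fᵀ F = F Fᵀ = s`. -/
theorem zl_quat (s : ℕ) : ∃ F : Matrix (Fin 4) (Fin 4) ℤ, Fᵀ * F = (s : ℤ) • 1 ∧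
    F * Fᵀ = (s : ℤ) • 1 := by
  obtain ⟨a, b, c, d, h⟩ := Nat.sum_four_squares s
  have h' : (s : ℤ) = a ^ 2 + b ^ 2 + c ^ 2 + d ^ 2 := by exact_mod_cast h.symm
  refine ⟨!![(a : ℤ), -b, -c, -d; b, a, -d, c; c, d, a, -b; d, -c, b, a], ?_, ?_⟩ <;>
  · ext i j
    fin_cases i <;> fin_cases j <;> simp [mul_apply, Fin.sum_univ_four, h'] <;> ring

/-- An integral matrix acts on tuples of vectors. -/
def mv {α : Type} [Fintype α] (F : Matrix α α ℤ) (u : α → ι ⊕ ι → ℝ) : α → ι ⊕ ι → ℝ :=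
  fun k => ∑ l, F k l • u l

section MV

variable {α : Type} [Fintype α]

omit [Fintype ι] in
theorem mv_add (F : Matrix α α ℤ) (u v : α → ι ⊕ ι → ℝ) : mv F (u + v) = mv F u + mv F v := by
  funext k
  simp [mv, Finset.sum_add_distrib]

omit [Fintype ι] in
theorem mv_neg (F : Matrix α α ℤ) (u : α → ι ⊕ ι → ℝ) : mv F (-u) = -mv F u := by
  funext k
  simp [mv]

omit [Fintype ι] in
theorem mv_mv (F G : Matrix α α ℤ) (u : α → ι ⊕ ι → ℝ) : mv F (mv G u) = mv (F * G) u := by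
  funext k
  simp only [mv, mul_apply, Finset.smul_sum, Finset.sum_smul, mul_smul]
  exact Finset.sum_comm

omit [Fintype ι] in
theorem mv_scalar [DecidableEq α] (c : ℤ) (u : α → ι ⊕ ι → ℝ) :
    mv (c • (1 : Matrix α α ℤ)) u = c • u := by
  funext k
  simp [mv, one_apply]

omit [Fintype ι] in
theorem mv_mem (F : Matrix α α ℤ) {L : AddSubgroup (ι ⊕ ι → ℝ)} {u : α → ι ⊕ ι → ℝ}
    (hu : ∀ k, u k ∈ L) (k : α) : mv F u k ∈ L :=
  L.sum_mem fun l _ => L.zsmul_mem (hu l) _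

theorem mulVec_mv (d : Matrix (ι ⊕ ι) (ι ⊕ ι) ℝ) (F : Matrix α α ℤ) (u : α → ι ⊕ ι → ℝ)
    (k : α) : mv F (fun l => d *ᵥ u l) k = d *ᵥ mv F u k := by
  simp only [mv, mulVec_sum, mulVec_smul]

theorem E_mv (F : Matrix α α ℤ) (u v : α → ι ⊕ ι → ℝ) :
    ∑ k, E (v k) (mv F u k) = ∑ l, E (mv Fᵀ v l) (u l) := by
  simp only [mv, E_swap (∑ _, _), E_sum_left, E_zsmul_left, transpose_apply,
    ← Finset.sum_neg_distrib]
  rw [Finset.sum_comm]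
  refine Finset.sum_congr rfl fun l _ => Finset.sum_congr rfl fun k _ => ?_
  rw [E_swap (u l)]
  ring

end MV

theorem int_sum {α : Type} [Fintype α] {f : α → ℝ} (h : ∀ a, ∃ k : ℤ, f a = k) :
    ∃ k : ℤ, ∑ a, f a = k := by
  choose k hk using h
  exact ⟨∑ a, k a, by simp [hk]⟩

/-- The lattice of Zarhin. -/
def zar {α : Type} [Fintype α] (e : α ⊕ α ≃ o) (F : Matrix α α ℤ)
    (L0 L1 : AddSubgroup (ι ⊕ ι → ℝ)) : AddSubgroup ((ι × o) ⊕ (ι × o) → ℝ) where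
  carrier := {z | (∀ k, cp z (e (Sum.inl k)) ∈ L1) ∧
    ∀ k, cp z (e (Sum.inr k)) - mv F (fun l => cp z (e (Sum.inl l))) k ∈ L0}
  zero_mem' := ⟨fun k => L1.zero_mem, fun k => L0.sub_mem L0.zero_mem
    (mv_mem F (fun _ => L0.zero_mem) k)⟩
  add_mem' := fun {a b} ha hb => ⟨fun k => L1.add_mem (ha.1 k) (hb.1 k), fun k => by
    have := L0.add_mem (ha.2 k) (hb.2 k)
    rw [← add_sub_add_comm, ← Pi.add_apply (mv F _), ← mv_add] at this
    exact this⟩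
  neg_mem' := fun {a} ha => ⟨fun k => L1.neg_mem (ha.1 k), fun k => by
    have := L0.neg_mem (ha.2 k)
    rw [neg_sub', ← Pi.neg_apply (mv F _), ← mv_neg] at this
    exact this⟩

theorem zar_dual {α : Type} [Fintype α] [DecidableEq α] [Fintype o] (e : α ⊕ α ≃ o)
    {F : Matrix α α ℤ} {N : ℤ} (hF : Fᵀ * F = (N - 1) • 1) (hF' : F * Fᵀ = (N - 1) • 1)
    {L0 L1 : AddSubgroup (ι ⊕ ι → ℝ)} (h01 : L0 ≤ L1) (hN : ∀ x ∈ L1, N • x ∈ L0)
    (h1 : ∀ x, x ∈ L1 ↔ ∀ y ∈ L0, ∃ k : ℤ, E x y = k)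
    (h0 : ∀ x, x ∈ L0 ↔ ∀ y ∈ L1, ∃ k : ℤ, E x y = k) (z : (ι × o) ⊕ (ι × o) → ℝ) :
    z ∈ zar e F L0 L1 ↔ ∀ w ∈ zar e F L0 L1, ∃ k : ℤ, E z w = k := by
  set u : α → ι ⊕ ι → ℝ := fun l => cp z (e (Sum.inl l)) with hu
  set v : α → ι ⊕ ι → ℝ := fun l => cp z (e (Sum.inr l)) with hv
  have key : ∀ w, E z w = ∑ k, E (u k + mv Fᵀ v k) (cp w (e (Sum.inl k))) +
      ∑ k, E (v k) (cp w (e (Sum.inr k)) - mv F (fun l => cp w (e (Sum.inl l))) k) := fun w => by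
    rw [E_cp, ← e.sum_comp, Fintype.sum_sum_type]
    simp only [E_add_left, E_sub_right, Finset.sum_add_distrib, Finset.sum_sub_distrib, E_mv]
    ring
  have mk : ∀ a b : α → ι ⊕ ι → ℝ, (∀ k, a k ∈ L1) → (∀ k, b k ∈ L0) →
      (∀ w ∈ zar e F L0 L1, ∃ k : ℤ, E z w = k) →
      ∃ k : ℤ, ∑ k, E (u k + mv Fᵀ v k) (a k) + ∑ k, E (v k) (b k) = k := fun a b ha hb h => by
    have := h (asm fun s => Sum.elim a (b + mv F a) (e.symm s))
      ⟨fun k => by simpa [cp_asm] using ha k, fun k => by simpa [cp_asm] using hb k⟩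
    rw [key] at this
    simpa [cp_asm] using this
  constructor
  · rintro ⟨ha, hb⟩ w ⟨hc, hd⟩
    have hv1 : ∀ k, v k ∈ L1 := fun k => by
      simpa using L1.add_mem (h01 (hb k)) (mv_mem F ha k)
    have e1 : ∀ k, u k + mv Fᵀ v k ∈ L0 := fun k => by
      have : u k + mv Fᵀ v k = N • u k + mv Fᵀ (v - mv F u) k := by
        rw [sub_eq_add_neg, mv_add, mv_neg, mv_mv, hF, mv_scalar]
        simp only [Pi.add_apply, Pi.neg_apply, Pi.sub_apply, Pi.smul_apply, sub_smul, one_smul]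
        abel
      rw [this]
      exact L0.add_mem (hN _ (ha k)) (mv_mem _ hb k)
    obtain ⟨k1, hk1⟩ := int_sum fun k => (h0 _).1 (e1 k) _ (hc k)
    obtain ⟨k2, hk2⟩ := int_sum fun k => (h1 _).1 (hv1 k) _ (hd k)
    exact ⟨k1 + k2, by rw [key, hk1, hk2, Int.cast_add]⟩
  · intro h
    have sg : ∀ {L : AddSubgroup (ι ⊕ ι → ℝ)} {y : ι ⊕ ι → ℝ}, y ∈ L → ∀ k l : α,
        (Pi.single k y : α → ι ⊕ ι → ℝ) l ∈ L := fun {L y} hy k l => by
      rw [Pi.single_apply]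
      split_ifs
      exacts [hy, L.zero_mem]
    have hv1 : ∀ k, v k ∈ L1 := fun k => (h1 _).2 fun y hy => by
      simpa [Pi.single_apply, apply_ite] using mk 0 _ (fun _ => L1.zero_mem) (sg hy k) h
    have e1 : ∀ k, u k + mv Fᵀ v k ∈ L0 := fun k => (h0 _).2 fun y hy => by
      simpa [Pi.single_apply, apply_ite] using mk _ 0 (sg hy k) (fun _ => L0.zero_mem) h
    refine ⟨fun k => ?_, fun k => ?_⟩
    · simpa using L1.sub_mem (h01 (e1 k)) (mv_mem Fᵀ hv1 k)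
    · have : v k - mv F u k = N • v k - mv F (u + mv Fᵀ v) k := by
        rw [mv_add, mv_mv, hF', mv_scalar]
        simp only [Pi.add_apply, Pi.sub_apply, Pi.smul_apply, sub_smul, one_smul]
        abel
      change v k - mv F u k ∈ L0
      rw [this]
      exact L0.sub_mem (hN _ (hv1 k)) (mv_mem _ e1 k)

variable [DecidableEq ι]

/-- A self dual lattice in eight copies that is stable under `D`. -/
theorem exists_zarhin (D : Submonoid (RM ι)) (hs : ∀ δ ∈ D, Sim δ 1)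
    (hi : ∀ δ ∈ D, ∃ δ' ∈ D, δ * δ' = 1) {n : ℕ} (hn : n ≠ 0) (hD : ∀ δ ∈ D, IntM ((n : ℝ) • δ)) :
    ∃ L : AddSubgroup ((ι × Fin 8) ⊕ (ι × Fin 8) → ℝ), SelfDual L n ∧
      ∀ δ ∈ D, ∀ x ∈ L, dg δ *ᵥ x ∈ L := by
  let e : Fin 4 ⊕ Fin 4 ≃ Fin 8 := finSumFinEquiv
  obtain ⟨F, hF, hF'⟩ := zl_quat (n ^ 2 - 1)
  have hc : ((n ^ 2 - 1 : ℕ) : ℤ) = (n : ℤ) ^ 2 - 1 := by
    have : 1 ≤ n ^ 2 := Nat.one_le_pow _ _ (Nat.pos_of_ne_zero hn)
    push_cast [this]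
    rfl
  rw [hc] at hF hF'
  let S : Set (ι ⊕ ι → ℝ) := {y | ∃ d ∈ D, ∃ k, y = d *ᵥ rz k}
  let L0 := dual S
  let L1 := dual (L0 : Set (ι ⊕ ι → ℝ))
  have a0 : ∀ k, rz k ∈ S := fun k => ⟨1, D.one_mem, k, (one_mulVec _).symm⟩
  have a1 : ∀ x ∈ L0, ∃ k, x = rz k := fun x hx => exists_rz_of_int fun k => hx _ (a0 k)
  have a2 : ∀ k, (n : ℝ) • rz k ∈ L0 := by
    rintro k _ ⟨d, hd, k', rfl⟩
    obtain ⟨k'', hk⟩ := (intM_iff _).1 (hD d hd) _ ⟨k', rfl⟩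
    rw [E_smul_left, ← E_smul_right, ← smul_mulVec, hk]
    exact E_rz _ _
  have a3 : ∀ x ∈ L1, ∃ k, (n : ℝ) • x = rz k := fun x hx => exists_rz_of_int fun k => by
    rw [E_smul_left, ← E_smul_right]
    exact hx _ (a2 k)
  have h01 : L0 ≤ L1 := fun x hx => by
    obtain ⟨k, rfl⟩ := a1 x hx
    exact mem_dual_dual (a0 k)
  have hN : ∀ x ∈ L1, (n : ℤ) ^ 2 • x ∈ L0 := fun x hx => by
    obtain ⟨k, hk⟩ := a3 x hx
    rw [← Int.cast_smul_eq_zsmul ℝ, Int.cast_pow, Int.cast_natCast, sq, mul_smul, hk]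
    exact a2 k
  have h0 : ∀ x, x ∈ L0 ↔ ∀ y ∈ L1, ∃ k : ℤ, E x y = k := fun x =>
    ⟨fun hx => mem_dual_dual (S := (L0 : Set (ι ⊕ ι → ℝ))) hx,
      fun h y hy => h y (mem_dual_dual hy)⟩
  have st : ∀ T : Set (ι ⊕ ι → ℝ), (∀ d ∈ D, ∀ y ∈ T, d *ᵥ y ∈ T) →
      ∀ d ∈ D, ∀ x ∈ dual T, d *ᵥ x ∈ dual T := fun T hT d hd x hx y hy => by
    obtain ⟨d', hd', h⟩ := hi d hd
    have := hs d hd x (d' *ᵥ y)
    rw [mulVec_mulVec, h, one_mulVec, one_mul] at this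
    rw [this]
    exact hx _ (hT d' hd' y hy)
  have s0 := st S (by
    rintro d hd _ ⟨d', hd', k, rfl⟩
    exact ⟨d * d', D.mul_mem hd hd', k, mulVec_mulVec _ _ _⟩)
  have s1 := st L0 s0
  have cd : ∀ (d : RM ι) z j, cp (dg d *ᵥ z) j = d *ᵥ cp z j := fun d z j => dg_mulVec d z j
  refine ⟨zar e F L0 L1, ⟨hn, zar_dual e hF hF' h01 hN (fun _ => Iff.rfl) h0, ?_,
    fun z hz => ?_⟩, fun d hd z hz => ⟨fun j => ?_, fun j => ?_⟩⟩
  · rintro _ ⟨k, rfl⟩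
    have : ∀ j, cp ((n : ℝ) • rz k) j ∈ L0 := fun j =>
      a2 fun s => k (Sum.map (fun i => (i, j)) (fun i => (i, j)) s)
    exact ⟨fun j => h01 (this _), fun j => L0.sub_mem (this _) (mv_mem F (fun _ => this _) j)⟩
  · have : ∀ j, cp z j ∈ L1 := fun j => by
      obtain ⟨j | j, rfl⟩ := e.surjective j
      · exact hz.1 j
      · simpa using L1.add_mem (h01 (hz.2 j)) (mv_mem F hz.1 j)
    choose k hk using fun j => a3 _ (this j)
    refine ⟨Sum.elim (fun a => k a.2 (Sum.inl a.1)) fun a => k a.2 (Sum.inr a.1), ?_⟩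
    funext s
    rcases s with a | a
    · exact congrFun (hk a.2) (Sum.inl a.1)
    · exact congrFun (hk a.2) (Sum.inr a.1)
  · rw [cd]
    exact s1 d hd _ (hz.1 j)
  · simp only [cd]
    rw [mulVec_mv, ← mulVec_sub]
    exact s0 d hd _ (hz.2 j)

/-- A stabiliser of a self dual lattice is conjugate to an integral matrix of level eight. -/
theorem conj_int {L : AddSubgroup (ι ⊕ ι → ℝ)} {n m : ℕ} (h : SelfDual L n) (hn : Odd n)
    (hm : Odd m) {p δ : RM ι} (hp : Sim p 1) (hL : ∀ x, x ∈ L ↔ IntV (p *ᵥ x)) (hδ : Sim δ 1)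
    (hc : Cong 8 m δ) (hst : ∀ x ∈ L, δ *ᵥ x ∈ L) :
    ∃ γ b : ZM ι, γ ∈ symplecticGroup ι ℤ ∧ γ = 1 + (8 : ℤ) • b ∧ p * δ = zr γ * p := by
  obtain ⟨u, rfl⟩ := Sim.isUnit' hp one_ne_zero
  have hpq : (u : RM ι) * (u⁻¹ : (RM ι)ˣ) = 1 := u.mul_inv
  have hqp : ((u⁻¹ : (RM ι)ˣ) : RM ι) * u = 1 := u.inv_mul
  generalize ((u⁻¹ : (RM ι)ˣ) : RM ι) = q at hpq hqp
  generalize (u : RM ι) = p at hp hL hpq hqp
  have hq : ∀ x, IntV x → q *ᵥ x ∈ L := fun x hx =>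
    (hL _).2 (by rwa [mulVec_mulVec, hpq, one_mulVec])
  obtain ⟨γ, hγ⟩ : IntM (p * δ * q) := (intM_iff _).2 fun x hx => by
    rw [← mulVec_mulVec, ← mulVec_mulVec]
    exact (hL _).1 (hst _ (hq x hx))
  obtain ⟨P, hP⟩ : IntM ((n : ℝ) • p) := (intM_iff _).2 fun x hx => by
    rw [smul_mulVec, ← mulVec_smul]
    exact (hL _).1 (h.low x hx)
  obtain ⟨Q, hQ⟩ : IntM ((n : ℝ) • q) := (intM_iff _).2 fun x hx => by
    rw [smul_mulVec]
    exact h.up _ (hq x hx)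
  obtain ⟨j, b, hb⟩ := hc
  have e1 : zr (((n * m ^ j * n : ℕ) : ℤ) • γ) =
      zr (((n * m ^ j * n : ℕ) : ℤ) • (1 : ZM ι) + (8 : ℤ) • (P * b * Q)) := by
    have e2 : ((n : ℝ) • p) * ((m : ℝ) ^ j • (δ - 1)) * ((n : ℝ) • q) =
        (8 : ℝ) • (zr P * zr b * zr Q) := by
      rw [hb, hP, hQ]
      simp
    rw [zr_add, zr_smul, zr_smul, zr_smul, zr_one, zr_mul, zr_mul, ← hγ, Int.cast_ofNat, ← e2,
      ← hpq]
    simp only [Matrix.smul_mul, Matrix.mul_smul, Matrix.mul_sub, Matrix.sub_mul, hpq,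
      Matrix.mul_one, smul_smul, smul_sub]
    push_cast
    module
  have e3 := zr_injective e1
  have hco : IsCoprime (8 : ℤ) ((n * m ^ j * n : ℕ) : ℤ) := by
    have : Nat.Coprime (2 ^ 3) (n * m ^ j * n) :=
      Nat.Coprime.pow_left _ (Nat.coprime_two_left.2 ((hn.mul hm.pow).mul hn))
    exact_mod_cast Nat.isCoprime_iff_coprime.2 this
  have e4 : ∀ i k, (8 : ℤ) ∣ (γ - 1) i k := fun i k => hco.dvd_of_dvd_mul_left ⟨(P * b * Q) i k, by
    have := congrFun (congrFun e3 i) k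
    simp only [Matrix.add_apply, Matrix.smul_apply, smul_eq_mul] at this
    rw [Matrix.sub_apply, mul_sub, this]
    ring⟩
  choose c hc using e4
  refine ⟨γ, Matrix.of c, (sim_zr_iff γ).1 ?_, ?_, ?_⟩
  · have := Sim.mul' (Sim.mul' hp hδ) (Sim.inv' hp one_ne_zero hpq)
    rw [hγ] at this
    simpa using this
  · ext i k
    have := hc i k
    simp only [Matrix.sub_apply] at this
    simp only [Matrix.add_apply, Matrix.smul_apply, of_apply, smul_eq_mul]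
    linarith
  · rw [← hγ, Matrix.mul_assoc, hqp, Matrix.mul_one]

end M4.CL
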