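import Mathlib
import Pool.Agent.Lib.MP_33b3f9_ag.M4.ThAct

/-!
The diagonal embedding of genus `ι` into genus `ι × o`.
-/

set_option autoImplicit false

namespace M4.CL

open Complex Matrix M4

variable {ι o : Type} [DecidableEq o]

/-- The block diagonal matrix with equal blocks. -/
def bd (o : Type) [DecidableEq o] {R : Type} [Zero R] (M : Matrix ι ι R) :
    Matrix (ι × o) (ι × o) R := blockDiagonal fun _ : o => M

/-- The diagonal embedding of `2 × 2` block matrices. -/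
def dS (o : Type) [DecidableEq o] {R : Type} [Zero R] (g : Matrix (ι ⊕ ι) (ι ⊕ ι) R) :
    Matrix ((ι × o) ⊕ (ι × o)) ((ι × o) ⊕ (ι × o)) R :=
  fromBlocks (bd o g.toBlocks₁₁) (bd o g.toBlocks₁₂) (bd o g.toBlocks₂₁) (bd o g.toBlocks₂₂)

section Ring

variable {R S : Type} [CommRing R] [CommRing S]

theorem bd_apply (M : Matrix ι ι R) (a b : ι × o) :
    bd o M a b = if a.2 = b.2 then M a.1 b.1 else 0 := blockDiagonal_apply _ _ _

theorem bd_map (M : Matrix ι ι R) (f : R → S) (hf : f 0 = 0) :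
    (bd o M).map f = bd o (M.map f) := blockDiagonal_map _ f hf

theorem bd_add (M N : Matrix ι ι R) : bd o (M + N) = bd o M + bd o N :=
  blockDiagonal_add (fun _ : o => M) fun _ => N

theorem bd_sub (M N : Matrix ι ι R) : bd o (M - N) = bd o M - bd o N :=
  blockDiagonal_sub (fun _ : o => M) fun _ => N

theorem bd_neg (M : Matrix ι ι R) : bd o (-M) = -bd o M := blockDiagonal_neg fun _ : o => M

theorem bd_zero : bd o (0 : Matrix ι ι R) = 0 := blockDiagonal_zero

theorem bd_smul (c : R) (M : Matrix ι ι R) : bd o (c • M) = c • bd o M :=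
  blockDiagonal_smul c fun _ : o => M

theorem bd_transpose (M : Matrix ι ι R) : (bd o M)ᵀ = bd o Mᵀ := blockDiagonal_transpose _

theorem bd_one [DecidableEq ι] : bd o (1 : Matrix ι ι R) = 1 := blockDiagonal_one

theorem dS_map (g : Matrix (ι ⊕ ι) (ι ⊕ ι) R) (f : R → S) (hf : f 0 = 0) :
    (dS o g).map f = dS o (g.map f) := by
  rw [dS, fromBlocks_map, bd_map _ f hf, bd_map _ f hf, bd_map _ f hf, bd_map _ f hf]
  rfl

theorem dS_fromBlocks (A B C D : Matrix ι ι R) :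
    dS o (fromBlocks A B C D) = fromBlocks (bd o A) (bd o B) (bd o C) (bd o D) := by
  simp [dS]

theorem dS_transpose (g : Matrix (ι ⊕ ι) (ι ⊕ ι) R) : (dS o g)ᵀ = dS o gᵀ := by
  rw [dS, fromBlocks_transpose, bd_transpose, bd_transpose, bd_transpose, bd_transpose]
  rfl

theorem dS_smul (c : R) (g : Matrix (ι ⊕ ι) (ι ⊕ ι) R) : dS o (c • g) = c • dS o g := by
  rw [dS, dS, fromBlocks_smul, ← bd_smul, ← bd_smul, ← bd_smul, ← bd_smul]
  rfl

theorem dS_sub (g h : Matrix (ι ⊕ ι) (ι ⊕ ι) R) : dS o (g - h) = dS o g - dS o h := by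
  ext (a | a) (b | b) <;> simp [dS, bd_apply, toBlocks₁₁, toBlocks₁₂, toBlocks₂₁, toBlocks₂₂] <;>
    split_ifs <;> simp

theorem dS_one [DecidableEq ι] : dS o (1 : Matrix (ι ⊕ ι) (ι ⊕ ι) R) = 1 := by
  rw [← fromBlocks_one, dS_fromBlocks, bd_one, bd_zero, fromBlocks_one]

theorem dS_J [DecidableEq ι] : dS o (J ι R) = J (ι × o) R := by
  rw [J, dS_fromBlocks, bd_neg, bd_one, bd_zero, J]

variable [Fintype ι] [Fintype o]

theorem bd_mul (M N : Matrix ι ι R) : bd o (M * N) = bd o M * bd o N :=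
  blockDiagonal_mul (fun _ : o => M) fun _ => N

theorem dS_mul (g h : Matrix (ι ⊕ ι) (ι ⊕ ι) R) : dS o (g * h) = dS o g * dS o h := by
  rw [← fromBlocks_toBlocks g, ← fromBlocks_toBlocks h, fromBlocks_multiply]
  simp only [dS_fromBlocks, fromBlocks_multiply, bd_add, bd_mul]

theorem det_bd [DecidableEq ι] (M : Matrix ι ι R) : (bd o M).det = M.det ^ Fintype.card o := by
  rw [bd, det_blockDiagonal, Finset.prod_const, Finset.card_univ]

end Ring

variable [Fintype ι] [Fintype o] [DecidableEq ι]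

theorem bd_inv {K : Type} [Field K] {M : Matrix ι ι K} (h : M.det ≠ 0) :
    (bd o M)⁻¹ = bd o M⁻¹ :=
  inv_eq_right_inv (by rw [← bd_mul, mul_nonsing_inv _ (Ne.isUnit h), bd_one])

theorem Sim.dS {g : Matrix (ι ⊕ ι) (ι ⊕ ι) ℝ} {m : ℝ} (h : Sim g m) : Sim (dS o g) m := by
  rw [sim_iff] at h ⊢
  rw [dS_transpose, ← dS_J, ← dS_mul, ← dS_mul, h, dS_smul]

omit [DecidableEq ι] in
theorem den_dS (g : Matrix (ι ⊕ ι) (ι ⊕ ι) ℝ) (τ : Matrix ι ι ℂ) :
    den (dS o g) (bd o τ) = bd o (den g τ) := by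
  simp only [den, dS, toBlocks_fromBlocks₁₁, toBlocks_fromBlocks₁₂, bd_map _ _ ofReal_zero,
    bd_sub, bd_mul]

theorem act_dS {g : Matrix (ι ⊕ ι) (ι ⊕ ι) ℝ} {τ : Matrix ι ι ℂ} (h : (den g τ).det ≠ 0) :
    act (dS o g) (bd o τ) = bd o (act g τ) := by
  change (_ : Matrix _ _ ℂ) * (den (dS o g) (bd o τ))⁻¹ = bd o (_ * (den g τ)⁻¹)
  rw [den_dS, bd_inv h]
  simp only [dS, toBlocks_fromBlocks₂₁, toBlocks_fromBlocks₂₂, bd_map _ _ ofReal_zero,
    bd_sub, bd_mul]

omit [DecidableEq ι] in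
theorem InH.bd {τ : Matrix ι ι ℂ} (h : InH τ) : InH (bd o τ) := by
  refine ⟨by rw [Matrix.IsSymm, bd_transpose, h.1.eq], ?_⟩
  rw [bd_map _ _ zero_im]
  have hY := h.2
  generalize τ.map im = Y at hY
  rw [posDef_iff_dotProduct_mulVec] at hY ⊢
  refine ⟨?_, fun x hx => ?_⟩
  · have := hY.1
    rw [IsHermitian, conjTranspose_eq_transpose_of_trivial] at this ⊢
    rw [bd_transpose, this]
  · have e : star x ⬝ᵥ CL.bd o Y *ᵥ x =
        ∑ k : o, star (fun i => x (i, k)) ⬝ᵥ Y *ᵥ fun i => x (i, k) := by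
      simp only [dotProduct, mulVec, bd_apply, Fintype.sum_prod_type_right, ite_mul, zero_mul,
        Pi.star_apply]
      refine Finset.sum_congr rfl fun k _ => Finset.sum_congr rfl fun i _ => ?_
      congr 1
      simp [Finset.sum_ite_irrel]
    rw [e]
    obtain ⟨⟨i, k⟩, hk⟩ := Function.ne_iff.1 hx
    refine Finset.sum_pos' (fun k' _ => ?_) ⟨k, Finset.mem_univ _, hY.2 ?_⟩
    · by_cases h0 : (fun i => x (i, k')) = 0
      · rw [h0]; simp
      · exact (hY.2 h0).le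
    · exact Function.ne_iff.2 ⟨i, hk⟩

end M4.CL
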