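import Mathlib
import Pool.Agent.Lib.MP_33b3f9_ag.M4.ThExt
import Pool.Agent.Lib.MP_33b3f9_ag.M4.ThNull2
import Pool.Agent.Lib.MP_33b3f9_ag.M4.CL.ZD

/-!
Theta constants pulled back along a parabolic element and the diagonal embedding.
-/

set_option autoImplicit false

namespace M4.CL

open Complex Matrix M4 Filter Topology

variable {ι κ o : Type} [Fintype ι] [Fintype κ] [Fintype o] [DecidableEq ι] [DecidableEq κ]
  [DecidableEq o]

omit [DecidableEq κ] in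
theorem Th_hf_add_four (σ : Matrix κ κ ℂ) (k n : κ ⊕ κ → ℤ) :
    Th σ (hf k + rz ((4 : ℤ) • n)) = Th σ (hf k) := by
  have h := congrFun (U_rz_Th σ ((4 : ℤ) • n)) (hf k)
  obtain ⟨j, hj⟩ := E_rz n k
  have e : (((1 : ℝ) : ℂ) * E (rz ((4 : ℤ) • n)) (hf k) / 2) = (j : ℂ) := by
    rw [rz_smul, hf, E_smul_left, E_smul_right, hj]
    push_cast
    ring
  have e2 : chi ((4 : ℤ) • n) = 1 := by
    have := chi_add_two (0 : κ ⊕ κ → ℤ) ((2 : ℤ) • n)
    rw [zero_add, smul_smul] at this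
    simpa [chi] using this
  rwa [U_apply, e, ee_int, one_mul, e2, one_smul] at h

/-- On the congruence subgroup of level eight all theta constants of level two have one common
factor of automorphy. -/
theorem law_eight {γ b : Matrix (κ ⊕ κ) (κ ⊕ κ) ℤ} (hγ : γ ∈ symplecticGroup κ ℤ)
    (hb : γ = 1 + (8 : ℤ) • b) {σ : Matrix κ κ ℂ} (hσ : InH σ) :
    ∃ c : ℂ, c ^ 8 = (den (mz γ) σ).det ^ 4 ∧
      ∀ k, Th (act (mz γ) σ) (hf k) = c * Th σ (hf k) := by
  obtain ⟨c, hc, h⟩ := law_of_even hγ (fun i j => ⟨4 * b i j, by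
    rw [hb, add_sub_cancel_left, Matrix.smul_apply, smul_eq_mul]; ring⟩) hσ
  refine ⟨c, hc, fun k => ?_⟩
  rw [← h, ← Th_hf_add_four _ k (b *ᵥ k)]
  congr 1
  have e : mz γ *ᵥ rz k = rz (γ *ᵥ k) := by
    funext i
    simp only [mz, rz, mulVec, dotProduct, Matrix.map_apply, Int.cast_sum, Int.cast_mul]
  rw [hf, mulVec_smul, e, hb, add_mulVec, one_mulVec, smul_mulVec, rz_add, rz_smul, rz_smul,
    smul_add, smul_smul]
  norm_num

omit [DecidableEq κ] in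
theorem den_par {p : Matrix (κ ⊕ κ) (κ ⊕ κ) ℝ} (hp : p.toBlocks₁₂ = 0) (σ : Matrix κ κ ℂ) :
    den p σ = p.toBlocks₁₁.map ofReal := by
  rw [den, hp, Matrix.map_zero _ ofReal_zero, Matrix.zero_mul, sub_zero]

/-- The theta constants of level two at `p` times the block diagonal matrix. -/
noncomputable def zy (p : Matrix ((ι × o) ⊕ (ι × o)) ((ι × o) ⊕ (ι × o)) ℝ)
    (e : (ι × o) ⊕ (ι × o) → Fin 2) (τ : Matrix ι ι ℂ) : ℂ := Th (act p (bd o τ)) (hf (bz e))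

theorem zy_law {p : Matrix ((ι × o) ⊕ (ι × o)) ((ι × o) ⊕ (ι × o)) ℝ} (hp : Sim p 1)
    (hp0 : p.toBlocks₁₂ = 0) {δ : Matrix (ι ⊕ ι) (ι ⊕ ι) ℝ} (hδ : Sim δ 1)
    {γ b : Matrix ((ι × o) ⊕ (ι × o)) ((ι × o) ⊕ (ι × o)) ℤ} (hγ : γ ∈ symplecticGroup (ι × o) ℤ)
    (hb : γ = 1 + (8 : ℤ) • b) (h : p * dS o δ = mz γ * p) {τ : Matrix ι ι ℂ} (hτ : InH τ) :
    ∃ c : ℂ, c ^ 8 = ((den δ τ).det ^ 4) ^ Fintype.card o ∧
      ∀ e, zy p e (act δ τ) = c * zy p e τ := by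
  have h1 := den_det_ne_zero hδ one_pos hτ
  have hb1 : InH (bd o τ) := InH.bd hτ
  have hσ := inH_act hp one_pos hb1
  have h2 := den_det_ne_zero (Sim.dS (o := o) hδ) one_pos hb1
  have h3 := den_det_ne_zero hp one_pos (inH_act (Sim.dS (o := o) hδ) one_pos hb1)
  have h4 := den_det_ne_zero hp one_pos hb1
  have h5 := den_det_ne_zero (sim_mz_iff.2 hγ) one_pos hσ
  obtain ⟨c, hc, hl⟩ := law_eight hγ hb hσ
  refine ⟨c, ?_, fun e => ?_⟩
  · have e1 := den_mul (g := p) h2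
    rw [h, den_mul h4, den_par hp0, den_par hp0, den_dS] at e1
    have e2 := congrArg det e1
    rw [det_mul, det_mul, det_bd, mul_comm] at e2
    rw [den_par hp0] at h4
    rw [hc, mul_left_cancel₀ h4 e2, ← pow_mul, ← pow_mul, mul_comm]
  · rw [zy, ← act_dS h1, ← act_mul h2 h3, h, act_mul h4 h5, hl, zy]

theorem exists_zy_ne_zero {p : Matrix ((ι × o) ⊕ (ι × o)) ((ι × o) ⊕ (ι × o)) ℝ} (hp : Sim p 1)
    {τ : Matrix ι ι ℂ} (hτ : InH τ) : ∃ e, zy p e τ ≠ 0 :=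
  exists_null_ne_zero (inH_act hp one_pos (InH.bd hτ))

/-- The linear part of `τ ↦ act p (bd τ)`. -/
noncomputable def zlin (p : Matrix ((ι × o) ⊕ (ι × o)) ((ι × o) ⊕ (ι × o)) ℝ) :
    (ι → ι → ℂ) →L[ℂ] (ι × o → ι × o → ℂ) :=
  LinearMap.toContinuousLinearMap
    { toFun := fun ξ i j => (p.toBlocks₂₂.map ofReal * bd o (Matrix.of ξ) *
        (p.toBlocks₁₁.map ofReal)⁻¹) i j
      map_add' := fun ξ η => by
        funext i j
        rw [show Matrix.of (ξ + η) = Matrix.of ξ + Matrix.of η from rfl, bd_add, Matrix.mul_add,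
          Matrix.add_mul]
        rfl
      map_smul' := fun c ξ => by
        funext i j
        rw [show Matrix.of (c • ξ) = c • Matrix.of ξ from rfl, bd_smul, Matrix.mul_smul,
          Matrix.smul_mul]
        rfl }

theorem zlin_apply (p : Matrix ((ι × o) ⊕ (ι × o)) ((ι × o) ⊕ (ι × o)) ℝ) (ξ : ι → ι → ℂ) :
    Matrix.of (zlin p ξ) = p.toBlocks₂₂.map ofReal * bd o (Matrix.of ξ) *
      (p.toBlocks₁₁.map ofReal)⁻¹ := rfl

theorem act_par {p : Matrix ((ι × o) ⊕ (ι × o)) ((ι × o) ⊕ (ι × o)) ℝ} (hp0 : p.toBlocks₁₂ = 0)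
    (σ : ι → ι → ℂ) : act p (bd o (Matrix.of σ)) = Matrix.of (zlin p σ -
      fun i j => (p.toBlocks₂₁.map ofReal * (p.toBlocks₁₁.map ofReal)⁻¹ : Matrix _ _ ℂ) i j) := by
  change _ * (den p _)⁻¹ = _
  rw [den_par hp0, Matrix.sub_mul]
  rfl

theorem par_blocks {p : Matrix (κ ⊕ κ) (κ ⊕ κ) ℝ} (hp : Sim p 1) (hp0 : p.toBlocks₁₂ = 0) :
    (p.toBlocks₁₁.map ofReal)ᵀ * p.toBlocks₂₂.map ofReal = 1 := by
  have h := sim_iff.1 hp
  rw [← fromBlocks_toBlocks p, hp0, fromBlocks_transpose, J, fromBlocks_multiply,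
    fromBlocks_multiply, one_smul] at h
  have h2 := (fromBlocks_inj.1 h).2.1
  simp only [Matrix.mul_zero, Matrix.mul_one, zero_add, Matrix.mul_neg, Matrix.neg_mul,
    add_zero, neg_inj] at h2
  have := congrArg (fun M : Matrix κ κ ℝ => M.map ofRealHom) h2
  simp only [Matrix.map_mul, Matrix.map_one _ (map_zero _) (map_one _)] at this
  exact this

theorem hasFDerivAt_zy {p : Matrix ((ι × o) ⊕ (ι × o)) ((ι × o) ⊕ (ι × o)) ℝ} (hp : Sim p 1)
    (hp0 : p.toBlocks₁₂ = 0) (e : (ι × o) ⊕ (ι × o) → Fin 2) {σ : ι → ι → ℂ}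
    (hσ : InH (Matrix.of σ)) :
    HasFDerivAt (fun σ : ι → ι → ℂ => zy p e (Matrix.of σ))
      ((fderiv ℂ (fun ρ : ι × o → ι × o → ℂ => Th (Matrix.of ρ) (hf (bz e)))
        fun i j => act p (bd o (Matrix.of σ)) i j).comp (zlin p)) σ := by
  have h1 := (inH_act hp one_pos (InH.bd (o := o) hσ)).posIm
  have h2 := ((differentiableOn_Th (hf (bz e))).differentiableAt
    (isOpen_posIm.mem_nhds h1)).hasFDerivAt
  simp only [zy, act_par hp0] at h2 ⊢
  exact h2.comp σ ((zlin p).hasFDerivAt.sub_const _)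

/-- The immersion property. -/
theorem zy_imm [Nonempty o] {p : Matrix ((ι × o) ⊕ (ι × o)) ((ι × o) ⊕ (ι × o)) ℝ} (hp : Sim p 1)
    (hp0 : p.toBlocks₁₂ = 0) {σ : ι → ι → ℂ} (hσ : InH (Matrix.of σ)) {ξ : ι → ι → ℂ}
    (hξ : (Matrix.of ξ).IsSymm) {μ : ℂ}
    (h : ∀ e, fderiv ℂ (fun σ : ι → ι → ℂ => zy p e (Matrix.of σ)) σ ξ =
      μ * zy p e (Matrix.of σ)) : ξ = 0 := by
  have hAD := par_blocks hp hp0
  generalize hA : p.toBlocks₁₁.map ofReal = A at hAD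
  generalize hD : p.toBlocks₂₂.map ofReal = D at hAD
  have hi : A⁻¹ = Dᵀ := inv_eq_left_inv (by
    have := congrArg transpose hAD
    rwa [transpose_mul, transpose_transpose, transpose_one] at this)
  have hz : Matrix.of (zlin p ξ) = D * bd o (Matrix.of ξ) * Dᵀ := by rw [zlin_apply, hA, hD, hi]
  have h0 : zlin p ξ = 0 := null_imm (inH_act hp one_pos (InH.bd (o := o) hσ)) (μ := μ)
    (by rw [hz, Matrix.IsSymm, transpose_mul, transpose_mul, transpose_transpose, bd_transpose,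
      hξ.eq, Matrix.mul_assoc])
    fun e => by
      have := h e
      rwa [(hasFDerivAt_zy hp hp0 e hσ).fderiv] at this
  have h1 : bd o (Matrix.of ξ) = 0 := by
    have hDA : Dᵀ * A = 1 := by
      have := congrArg transpose hAD
      rwa [transpose_mul, transpose_transpose, transpose_one] at this
    have : Aᵀ * Matrix.of (zlin p ξ) * A = bd o (Matrix.of ξ) := by
      rw [hz, ← Matrix.mul_assoc, ← Matrix.mul_assoc, hAD, Matrix.one_mul, Matrix.mul_assoc, hDA,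
        Matrix.mul_one]
    rw [← this, h0]
    simp
  obtain ⟨k⟩ := ‹Nonempty o›
  funext i j
  simpa [bd_apply] using congrFun (congrFun h1 (i, k)) (j, k)

end M4.CL
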