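import Pool.Agent.Lib.MP_33b3f9_ag.M4.CL.Gm
import Pool.Agent.Lib.MP_33b3f9_ag.M4.CL.SB
import Pool.Agent.Lib.MP_33b3f9_ag.M4.CL.ZL
import Pool.Agent.Lib.MP_33b3f9_ag.M4.CL.ZT

/-! Forms that are invariant under a group with bounded denominators. -/

namespace M4.CL

open Complex Matrix

variable {ι : Type} [Fintype ι] [DecidableEq ι]

/-- The monomials of degree eight. -/
noncomputable def zf (p : RM (ι × Fin 8)) (e₀ e : (ι × Fin 8) ⊕ (ι × Fin 8) → Fin 2)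
    (τ : Matrix ι ι ℂ) : ℂ := zy p e₀ τ ^ 7 * zy p e τ

theorem wt_sim_one {κ : Type} [Fintype κ] [DecidableEq κ] {g : RM κ} (hg : Sim g 1)
    (τ : Matrix κ κ ℂ) : wt g τ = (den g τ).det ^ 4 := by
  have h := Sim.det_sq hg
  rw [one_pow] at h
  rw [wt, ← ofReal_pow, h, ofReal_one, div_one]

/-- A parabolic element that conjugates the group into the congruence subgroup of level eight. -/
theorem exists_par (D : Submonoid (RM ι)) (hs : ∀ δ ∈ D, Sim δ 1)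
    (hi : ∀ δ ∈ D, ∃ δ' ∈ D, δ * δ' = 1) {n m : ℕ} (hn : Odd n) (hm : Odd m)
    (hD : ∀ δ ∈ D, IntM ((n : ℝ) • δ)) (hc : ∀ δ ∈ D, Cong 8 m δ) :
    ∃ p : RM (ι × Fin 8), Sim p 1 ∧ p.toBlocks₁₂ = 0 ∧ IntM ((n : ℝ) • p) ∧
      ∀ δ ∈ D, ∀ τ, InH τ → ∀ e₀ e, zf p e₀ e (act δ τ) = wt δ τ ^ 8 * zf p e₀ e τ := by
  obtain ⟨L, hL, hst⟩ := exists_zarhin D hs hi hn.pos.ne' hD
  obtain ⟨p, hp, hp0, hpL⟩ := hL.exists_basis
  refine ⟨p, hp, hp0, (intM_iff _).2 fun x hx => ?_, fun δ hδ τ hτ e₀ e => ?_⟩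
  · rw [smul_mulVec, ← mulVec_smul]
    exact (hpL _).1 (hL.low x hx)
  · obtain ⟨γ, b, hγ, hb, h⟩ := conj_int hL hn hm hp hpL (dg_sim (hs δ hδ)) (dg_cong (hc δ hδ))
      (hst δ hδ)
    obtain ⟨c, hc8, hl⟩ := zy_law hp hp0 (hs δ hδ) hγ hb h hτ
    rw [Fintype.card_fin] at hc8
    rw [zf, zf, hl, hl, wt_sim_one (hs δ hδ), ← hc8]
    ring

/-- Membership in the ring of forms, from stability under `p` and under the diagonal. -/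
theorem zf_good {p : RM (ι × Fin 8)} (hp : Sim p 1) (hp0 : p.toBlocks₁₂ = 0)
    (h1 : ∀ f ∈ MF (ι × Fin 8) (8 * 1), slash 1 p f ∈ MF (ι × Fin 8) (8 * 1))
    (h3 : ∀ f ∈ MF (ι × Fin 8) (8 * 1),
      (fun τ : HH ι => f ⟨bd (Fin 8) τ.1, InH.bd τ.2⟩) ∈ MF ι (8 * 8))
    (e₀ e : (ι × Fin 8) ⊕ (ι × Fin 8) → Fin 2) :
    (fun τ : HH ι => zf p e₀ e τ.1) ∈ MF ι (8 * 8) := by
  have h0 : t2 e₀ ^ 7 * t2 e ∈ MF (ι × Fin 8) (8 * 1) :=
    MF.mul (m := 1 * 7) (n := 1) (MF.pow (t2_mem e₀) 7) (t2_mem e)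
  have h := (MF ι (8 * 8)).smul_mem ((p.toBlocks₁₁.map ofReal).det ^ 4) (h3 _ (h1 _ h0))
  convert h using 1
  funext τ
  have h4 := den_det_ne_zero hp one_pos (InH.bd (o := Fin 8) τ.2)
  rw [den_par hp0] at h4
  simp only [Pi.smul_apply, slash_apply, wt_sim_one hp, den_par hp0, pow_one, smul_eq_mul,
    Pi.mul_apply, Pi.pow_apply, t2, aH_val hp one_pos, zf, zy]
  field_simp

theorem null_law {γ b : ZM ι} (hγ : γ ∈ symplecticGroup ι ℤ) (h : γ = 1 + (8 : ℤ) • b) (τ : HH ι) :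
    ∃ c : ℂ, c ^ 8 = wt (zr γ) τ.1 ∧ ∀ e, t2 e (aH (zr γ) τ) = c * t2 e τ := by
  obtain ⟨c, hc, hl⟩ := law_eight hγ h τ.2
  have hs := (sim_zr_iff γ).2 hγ
  refine ⟨c, by rw [wt_sim_one hs]; exact hc, fun e => ?_⟩
  rw [t2, aH_val hs one_pos]
  exact hl (bz e)

theorem zf_imm {p : RM (ι × Fin 8)} (hp : Sim p 1) (hp0 : p.toBlocks₁₂ = 0) (a : HH ι) :
    Imm {f | ∃ e₀ e, f = fun τ : HH ι => zf p e₀ e τ.1} a := by
  obtain ⟨e₀, h0⟩ := exists_zy_ne_zero hp a.2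
  refine ⟨⟨_, ⟨e₀, e₀, rfl⟩, mul_ne_zero (pow_ne_zero _ h0) h0⟩, fun ξ μ hξ h => ?_⟩
  let z : ((ι × Fin 8) ⊕ (ι × Fin 8) → Fin 2) → ℂ := fun e =>
    fderiv ℂ (fun σ : ι → ι → ℂ => zy p e (Matrix.of σ)) a.1 ξ
  have hd : ∀ e, HasDerivAt (fun s : ℂ => zy p e (a.1 + s • ξ)) (z e) 0 := fun e => by
    have h1 : ∀ u w : ι → ι → ℂ, HasDerivAt (fun s : ℂ => u + s • w) w 0 := fun u w => by
      simpa using ((hasDerivAt_id (0 : ℂ)).smul_const w).const_add u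
    exact (hasFDerivAt_zy hp hp0 e (σ := a.1) a.2).differentiableAt.hasFDerivAt.comp_hasDerivAt_of_eq
      0 (h1 a.1 ξ) (by funext i k; simp)
  have key : ∀ e, 7 * zy p e₀ a.1 ^ 6 * z e₀ * zy p e a.1 + zy p e₀ a.1 ^ 7 * z e =
      μ * (zy p e₀ a.1 ^ 7 * zy p e a.1) := fun e => by
    have h1 := ((hd e₀).fun_pow 7).fun_mul (hd e)
    have h2 : HasDerivAt (fun s : ℂ => zy p e₀ (a.1 + s • ξ) ^ 7 * zy p e (a.1 + s • ξ))
        (μ * zf p e₀ e a.1) 0 := (h _ ⟨e₀, e, rfl⟩).congr_of_eventuallyEq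
      ((eventually_inH a.2 (ξ := ξ) hξ).mono fun s hs => by
        have hs' : InH (a.1 + s • ξ) := hs
        simp only [pt, dif_pos hs', zf])
    have h3 := h1.unique h2
    simp only [zero_smul, add_zero, zf] at h3
    simpa using h3
  have h1 : z e₀ = μ / 8 * zy p e₀ a.1 := mul_left_cancel₀
    (mul_ne_zero (by norm_num : (8 : ℂ) ≠ 0) (pow_ne_zero 7 h0)) (by linear_combination key e₀)
  refine zy_imm hp hp0 (σ := a.1) a.2 (ξ := ξ) hξ (μ := μ / 8) fun e =>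
    mul_left_cancel₀ (pow_ne_zero 7 h0) ?_
  have := key e
  rw [h1] at this
  change _ * z e = _ * (_ * zy p e a.1)
  linear_combination this

theorem exists_forms (D : Submonoid (RM ι)) (hs : ∀ δ ∈ D, Sim δ 1)
    (hi : ∀ δ ∈ D, ∃ δ' ∈ D, δ * δ' = 1) {m j : ℕ} (hm : Odd m)
    (hD : ∀ δ ∈ D, IntM ((m : ℝ) ^ j • δ)) (hc : ∀ δ ∈ D, Cong 8 m δ) :
    ∃ U : Set (HH ι → ℂ), (∀ f ∈ U, f ∈ MF ι (8 * 8) ∧ ∀ δ ∈ D, slash 8 δ f = f) ∧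
      ∀ a : HH ι, Imm U a := by
  obtain ⟨p, hp, hp0, ⟨P, hP⟩, hl⟩ := exists_par D hs hi (n := m ^ j) hm.pow hm
    (fun δ hδ => by rw [Nat.cast_pow]; exact hD δ hδ) hc
  have hq : IsQ p := fun i k => ⟨P i k / (m ^ j : ℕ), by
    have h0 : ((m ^ j : ℕ) : ℝ) ≠ 0 := Nat.cast_ne_zero.2 (hm.pow (n := j)).pos.ne'
    have := congrFun (congrFun hP i) k
    simp only [Matrix.smul_apply, smul_eq_mul, zr, Matrix.map_apply] at this
    rw [Rat.cast_div, Rat.cast_intCast, Rat.cast_natCast, ← this, mul_div_cancel_left₀ _ h0]⟩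
  refine ⟨_, ?_, zf_imm hp hp0⟩
  rintro _ ⟨e₀, e, rfl⟩
  refine ⟨zf_good hp hp0 (fun f hf => x_slash_mem hp one_pos hq hf)
    (fun f hf => by
      have := x_dg_mem (Fin 8) hf
      rw [Fintype.card_fin] at this
      exact this) e₀ e, fun δ hδ => ?_⟩
  funext τ
  rw [slash_apply, aH_val (hs δ hδ) one_pos, hl δ hδ _ τ.2,
    mul_div_cancel_left₀ _ (pow_ne_zero _ (wt_ne_zero (hs δ hδ) one_pos τ))]

end M4.CL
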