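import Pool.Agent.Lib.MP_33b3f9_ag.M4.CL.Del
import Pool.Agent.Lib.MP_33b3f9_ag.M4.CL.E3a
import Pool.Agent.Lib.MP_33b3f9_ag.M4.CL.E3b
import Pool.Agent.Lib.MP_33b3f9_ag.M4.CL.Ind
import Pool.Agent.Lib.MP_33b3f9_ag.M4.CL.ZF

/-! The stabiliser of the colour has bounded denominators; invariant forms. -/

namespace M4.CL

open Matrix Filter Topology

variable {ι : Type} [Fintype ι] [DecidableEq ι] {m : ℕ}
  {E : Type} [NormedAddCommGroup E] [NormedSpace ℂ E] {S : Setup (GS ι m) (Cn ι)} {V : Germ ι E}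

/-- Let `Z = {x | ∀ k F, S.MS k F → F ∈ S.I → F x = 0}`, it contains `S.a` (`S.ev`), and
`H = {g | Sim g 1 ∧ ∀ x ∈ Z, cact g x ∈ Z}`, a submonoid; `mx δ ∈ H` for `δ ∈ Del ⊓ SpG` (`MS.sl`),
in particular for the integral symplectic matrices that are `1` modulo `32 m ^ n` (`exists_mx`);
`continuous_tv` gives closedness. If the claim fails, `tv_of_unbounded` and `trl_mem` give
`f (a - S) = 0` for all real symmetric `S`; `x_hol`, `eq_zero_of_real`. -/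
theorem Con.bounded (h : Con S V) (hm : Odd m) {n : ℕ} (hq : S.Lv n ≤ S.Del) {k : ℕ}
    {f : HH ι → ℂ} (hf : f ∈ MF ι (8 * k)) (h0 : f ≠ 0) (hs : S.MS k (lift k f))
    (hI : lift k f ∈ S.I) : ∃ j : ℕ, ∀ δ ∈ S.Del ⊓ SpG ι m, IntM ((m : ℝ) ^ j • mx δ) := by
  by_contra hn
  have hm0 : m ≠ 0 := hm.pos.ne'
  let Z : Set (Cn ι) := {x | ∀ k F, S.MS k F → F ∈ S.I → F x = 0}
  let H : Submonoid (RM ι) :=
    { carrier := {g | Sim g 1 ∧ ∀ x ∈ Z, cact g x ∈ Z}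
      one_mem' := ⟨Sim.one, fun x hx => by rwa [cact_one]⟩
      mul_mem' := fun {a b} ha hb => ⟨by simpa using Sim.mul' ha.1 hb.1, fun x hx => by
        rw [cact_mul ha.1 one_pos hb.1 one_pos]
        exact ha.2 _ (hb.2 x hx)⟩ }
  have h1 : ∀ δ ∈ S.Del ⊓ SpG ι m, mx δ ∈ H := fun δ hδ =>
    ⟨hδ.2, fun x hx l F hF hF' => hx l _ (hF.sl δ) ((hδ.1 l F hF).2 hF')⟩
  have h2 : ∀ u, IsClosed {t : ℝ | tv t u ∈ H} := fun u => by
    have e : {t : ℝ | tv t u ∈ H} = ⋂ x ∈ Z, ⋂ (l : ℕ) (F : Cn ι → ℂ) (_ : S.MS l F) (_ : F ∈ S.I),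
        {t : ℝ | F (cact (tv t u) x) = 0} := by
      ext t
      simp only [Set.mem_iInter]
      exact ⟨fun ht => ht.2, fun ht => ⟨tv_sim t u, ht⟩⟩
    rw [e]
    refine isClosed_biInter fun x _ => isClosed_iInter fun l => isClosed_iInter fun F =>
      isClosed_iInter fun hF => isClosed_iInter fun _ => ?_
    exact isClosed_eq (continuous_tv (k := l) (h.F ▸ hF.1) u x) continuous_const
  have h3 : ∀ γ b : ZM ι, γ ∈ symplecticGroup ι ℤ → γ = 1 + ((32 * m ^ n : ℕ) : ℤ) • b →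
      zr γ ∈ H := fun γ b hγ hb => by
    have hs := (sim_zr_iff γ).2 hγ
    obtain ⟨x, hx⟩ := exists_mx (m := m) (g := γ) (b := ((4 * m ^ n : ℕ) : ℤ) • b) (M := 1) one_pos
      (one_dvd m) (by simpa using hs) (by
        rw [hb, smul_smul]
        congr 2
        push_cast
        ring)
    rw [← hx]
    refine h1 x ⟨hq ?_, ?_⟩
    · rw [h.Lv]
      exact ⟨hx ▸ hs, b, by rw [hx, hb]⟩
    · exact (hx ▸ hs : Sim (mx x) 1)
  have h4 := tv_of_unbounded H h2 (q := 32 * m ^ n) (by positivity) hm0 h3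
    (mx '' {δ | δ ∈ S.Del ⊓ SpG ι m})
    (by
      rintro _ ⟨δ, hδ, rfl⟩
      exact ⟨h1 δ hδ, hδ.2, (mx_cong δ).intM, mx δ⁻¹, h1 _ ((S.Del ⊓ SpG ι m).inv_mem hδ),
        mx_inv δ⟩)
    (fun j => by
      by_contra h5
      exact hn ⟨j, fun δ hδ => not_not.1 fun h6 => h5 ⟨_, ⟨δ, hδ, rfl⟩, h6⟩⟩)
  obtain ⟨F, hF, hF'⟩ := x_hol hf
  refine h0 (funext fun τ => ?_)
  rw [hF']
  refine eq_zero_of_real hF S.a.t.2 τ.2 fun T hT => ?_
  have h5 := trl_mem H h4 hT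
  have h6 := h5.2 S.a (fun _ F _ hF => S.ev F hF) k _ hs hI
  have h7 : S.a.l = 1 := by rw [h.a]; rfl
  rw [lift_apply, cact, wt_trl, h7, hF', aH_val h5.1 one_pos, act_trl] at h6
  simpa using h6

/-- `U` from `exists_forms` for the image of `Del ⊓ SpG` under `mx` (a submonoid); the `lift 8 f`,
`f ∈ U`, lie in `FF 8` and are invariant (`lift_cact`). Apply `exists_indep` to the functions
`q ↦ lift 8 f (V.c q)` (`analyticAt_c`, `Germ.imm`). -/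
theorem Con.forms [FiniteDimensional ℂ E] (h : Con S V) (hm : Odd m)
    (hi : Function.Injective (fderiv ℂ (fun (s : E) (i j : ι) => V.w s i j) 0)) {j : ℕ}
    (hj : ∀ δ ∈ S.Del ⊓ SpG ι m, IntM ((m : ℝ) ^ j • mx δ)) {D : ℕ}
    (hD : Module.finrank ℂ E + 1 = D) :
    ∃ Φ : Fin D → Cn ι → ℂ, (∀ i, Φ i ∈ S.F 8) ∧ (∀ i, Inv (S.Del ⊓ SpG ι m) (Φ i)) ∧
      ∀ p : MvPolynomial (Fin D) ℂ, MvPolynomial.aeval Φ p ∈ S.I → p = 0 := by
  let A : Submonoid (RM ι) :=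
    { carrier := mx '' {δ | δ ∈ S.Del ⊓ SpG ι m}
      one_mem' := ⟨1, (S.Del ⊓ SpG ι m).one_mem, mx_one⟩
      mul_mem' := by
        rintro _ _ ⟨a, ha, rfl⟩ ⟨b, hb, rfl⟩
        exact ⟨a * b, (S.Del ⊓ SpG ι m).mul_mem ha hb, mx_mul a b⟩ }
  obtain ⟨U, hU, hU'⟩ := exists_forms A (by rintro _ ⟨δ, hδ, rfl⟩; exact hδ.2)
    (by rintro _ ⟨δ, hδ, rfl⟩; exact ⟨_, ⟨δ⁻¹, (S.Del ⊓ SpG ι m).inv_mem hδ, rfl⟩, mx_inv δ⟩)
    hm (j := j)
    (by rintro _ ⟨δ, hδ, rfl⟩; exact hj δ hδ) (by rintro _ ⟨δ, -, rfl⟩; exact mx_cong δ)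
  have h1 : ∀ f ∈ U, lift 8 f ∈ FF ι 8 := fun f hf =>
    lift_mem_fil (M := fun i => MF ι (8 * i)) le_rfl (hU f hf).1
  obtain ⟨u, hu, hu'⟩ := exists_indep (E := ℂ × E) (D := D) (x₀ := (1, 0))
    (by rw [Module.finrank_prod, Module.finrank_self, add_comm, hD])
    ((fun f q => lift 8 f (V.c q)) '' U)
    (by rintro _ ⟨f, hf, rfl⟩; exact V.analyticAt_c (h1 f hf))
    (fun ξ hξ => V.imm hi (fun f hf => (hU f hf).1) (hU' V.a) (k := 8) (by norm_num) ξ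
      fun f hf => hξ _ ⟨f, hf, rfl⟩)
  choose f hf hf' using hu
  refine ⟨fun i => lift 8 (f i), fun i => h.F ▸ h1 _ (hf i), fun i δ hδ => ?_, fun p hp => ?_⟩
  · funext x
    exact (lift_cact 8 (mx δ) (f i) x).trans (by rw [(hU _ (hf i)).2 _ ⟨δ, hδ, rfl⟩])
  · rw [h.I, Germ.mem_I] at hp
    refine hu' p (hp.mono fun q hq => ?_)
    rw [← hq]
    have h2 := MvPolynomial.comp_aeval_apply (fun i => lift 8 (f i))
      (Pi.evalAlgHom ℂ (fun _ : Cn ι => ℂ) (V.c q)) p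
    refine Eq.trans ?_ h2.symm
    rw [MvPolynomial.aeval_eq_eval]
    congr 2
    funext i
    rw [← hf' i]
    rfl

end M4.CL
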