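import Mathlib

/-! Abstract frame of the counting lemma: a group acting on a filtered ring of functions. -/

namespace M4.CL

variable {G X : Type} [Group G] [MulAction G X]

/-- The function `x ↦ f (g • x)`. -/
def sl (g : G) (f : X → ℂ) : X → ℂ := fun x => f (g • x)

theorem sl_mul (g h : G) (f : X → ℂ) : sl (g * h) f = sl h (sl g f) := by
  funext x; simp [sl, mul_smul]

@[simp] theorem sl_one (f : X → ℂ) : sl (1 : G) f = f := by
  funext x; simp [sl]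

/-- `sl g` as an algebra homomorphism. -/
def slA (g : G) : (X → ℂ) →ₐ[ℂ] (X → ℂ) where
  toFun := sl g
  map_one' := rfl
  map_mul' _ _ := rfl
  map_zero' := rfl
  map_add' _ _ := rfl
  commutes' _ := rfl

/-- `f` is invariant under `H`. -/
def Inv (H : Subgroup G) (f : X → ℂ) : Prop := ∀ h ∈ H, sl h f = f

/-- Filtered ring of forms, colour, base point, levels, and the polynomial subring `A` over which
the invariants of `Γ` are generated by `N0` elements. -/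
structure Setup (G X : Type) [Group G] [MulAction G X] where
  F : ℕ → Submodule ℂ (X → ℂ)
  mono : Monotone F
  one_mem : (1 : X → ℂ) ∈ F 0
  mul_mem : ∀ {k l : ℕ} {f g : X → ℂ}, f ∈ F k → g ∈ F l → f * g ∈ F (k + l)
  sl_mem : ∀ {k : ℕ} {f : X → ℂ} (g : G), f ∈ F k → sl g f ∈ F k
  I : Ideal (X → ℂ)
  prime : ∀ {k l : ℕ} {f g : X → ℂ}, f ∈ F k → g ∈ F l → f * g ∈ I → f ∈ I ∨ g ∈ I
  a : X
  ev : ∀ f ∈ I, f a = 0
  Γ : Subgroup G
  Lv : ℕ → Subgroup G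
  anti : Antitone Lv
  le : ∀ n, Lv n ≤ Γ
  normal : ∀ n, ∀ γ ∈ Γ, ∀ h ∈ Lv n, γ * h * γ⁻¹ ∈ Lv n
  fin : ∀ n, (Lv n).relIndex Γ ≠ 0
  conj : ∀ (g : G) (n : ℕ), ∃ n', ∀ h ∈ Lv n', g * h * g⁻¹ ∈ Lv n
  A : ℕ → Submodule ℂ (X → ℂ)
  A_mono : Monotone A
  A_one : (1 : X → ℂ) ∈ A 0
  A_mul : ∀ {k l : ℕ} {f g : X → ℂ}, f ∈ A k → g ∈ A l → f * g ∈ A (k + l)
  A_le : ∀ k, A k ≤ F k
  A_inv : ∀ {k : ℕ} {f : X → ℂ}, f ∈ A k → Inv Γ f
  N0 : ℕ
  gen : Fin N0 → X → ℂ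
  fg : ∀ {k : ℕ} {f : X → ℂ}, f ∈ F k → Inv Γ f →
    ∃ c : Fin N0 → X → ℂ, (∀ i, c i ∈ A k) ∧ f = ∑ i, c i * gen i

namespace Setup

variable (S : Setup G X)

/-- Forms of filtration degree `k` that are invariant under some level. -/
def MS (k : ℕ) (f : X → ℂ) : Prop := f ∈ S.F k ∧ ∃ n, Inv (S.Lv n) f

theorem MS.sl {S : Setup G X} {k : ℕ} {f : X → ℂ} (h : S.MS k f) (g : G) : S.MS k (sl g f) := by
  obtain ⟨h1, n, h2⟩ := h
  obtain ⟨n', h3⟩ := S.conj g n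
  refine ⟨S.sl_mem g h1, n', fun x hx => ?_⟩
  have := h2 _ (h3 x hx)
  rw [← sl_mul, show g * x = g * x * g⁻¹ * g by simp, sl_mul, this]

/-- The stabiliser of the colour. -/
def Del : Subgroup G where
  carrier := {g | ∀ k f, S.MS k f → (sl g f ∈ S.I ↔ f ∈ S.I)}
  one_mem' := fun k f _ => by simp
  mul_mem' := fun {g h} hg hh k f hf => by
    rw [sl_mul, hh k _ (hf.sl g), hg k f hf]
  inv_mem' := fun {g} hg k f hf => by
    rw [← hg k _ (hf.sl g⁻¹), ← sl_mul]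
    simp

end Setup

end M4.CL
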