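import Pool.Agent.Lib.MP_33b3f9_ag.M4.CL.CM

/-! The whole count in one step. -/

namespace M4.CL

open Pointwise Pool.Agent.M4.Cnt

variable {G X : Type} [Group G] [MulAction G X]

theorem indep_mk {M σ : Type*} [CommRing M] [Algebra ℂ M] {ps : Ideal M} {F : σ → M}
    (h : ∀ p : MvPolynomial σ ℂ, MvPolynomial.aeval F p ∈ ps → p = 0) :
    AlgebraicIndependent ℂ fun l => Ideal.Quotient.mk ps (F l) := by
  refine algebraicIndependent_iff.2 fun p hp => h p ?_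
  rw [← Ideal.Quotient.eq_zero_iff_mem, ← hp]
  exact MvPolynomial.comp_aeval_apply F (Ideal.Quotient.mkₐ ℂ ps) p

/-- The count, with the invariance of the forms `Φ` stated for the elements that are used. -/
theorem Setup.count_core (S : Setup G X) {n0 : ℕ} (hq : S.Lv n0 ≤ S.Del) (T : Finset G) {D w : ℕ}
    (Φ : Fin D → X → ℂ) (hΦ : ∀ i, S.MS w (Φ i))
    (inv : ∀ g ∈ T, ∀ g' ∈ T, ∀ γ ∈ S.Γ, g⁻¹ * γ * g' ∈ S.Del →
      ∀ i, sl (g⁻¹ * γ * g') (Φ i) = Φ i)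
    (ind : ∀ p : MvPolynomial (Fin D) ℂ, MvPolynomial.aeval Φ p ∈ S.I → p = 0)
    (sep : ∀ g ∈ T, ∀ g' ∈ T, g ≠ g' →
      ∃ k, ∃ f ∈ S.F k, Inv S.Γ f ∧ f (g • S.a) ≠ f (g' • S.a))
    {g0 : G} (hP : ∀ g ∈ T, ∀ k, ∀ c ∈ S.A k, sl g0 c ∈ S.I → sl g c ∈ S.I)
    {del s c : ℕ}
    (fin : ∀ k, Module.Finite ℂ
      ((S.A k).map ((S.I.restrictScalars ℂ).mkQ ∘ₗ (slA g0).toLinearMap)))
    (hb : ∀ k, Module.finrank ℂ
      ((S.A k).map ((S.I.restrictScalars ℂ).mkQ ∘ₗ (slA g0).toLinearMap)) ≤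
      del * (s * k + c + D).choose D) :
    T.card ≤ S.N0 * del * (s * w) ^ D := by
  classical
  let F : Fin D → S.MA := fun i => ⟨Φ i, w, hΦ i⟩
  have hind : AlgebraicIndependent ℂ fun l => Ideal.Quotient.mk S.ps (F l) := by
    refine indep_mk fun p h1 => ind p ?_
    have h2 : MvPolynomial.aeval Φ p = S.MA.val (MvPolynomial.aeval F p) :=
      (MvPolynomial.comp_aeval_apply F S.MA.val p).symm
    rw [h2]
    exact h1
  obtain ⟨e, he⟩ := indep (Γ := S.Γ) (ι := T) S.gr S.all S.W_mono S.orb_finite S.ps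
    (fun g => g.1) (fun g => S.orb_ps_finite hq g.1)
    (fun i j hij => by
      obtain ⟨k, f, hf, h1, h2⟩ := sep i.1 i.2 j.1 j.2 fun h => hij (Subtype.ext h)
      refine ⟨k, ⟨f, k, hf, 0, fun h hh => h1 h (S.le 0 hh)⟩, hf, S.fix_iff.2 h1, fun h => h2 ?_⟩
      have h3 : f (i.1⁻¹⁻¹ • S.a) - f (j.1⁻¹⁻¹ • S.a) = 0 := S.ev _ h
      rwa [inv_inv, inv_inv, sub_eq_zero] at h3)
    F (fun l => (hΦ l).1)
    (fun i j γ hγ h l => by
      have h1 : (i.1⁻¹ * γ * j.1) • F l = F l :=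
        Subtype.ext (sl_inv_of (inv i.1 i.2 j.1 j.2 γ hγ (S.smul_eq_iff.1 h) l))
      rw [h1, sub_self]
      exact Ideal.zero_mem _)
    hind
  refine num (e := s * e + c) fun n => ?_
  obtain ⟨A, _, α, hα, hn, hA⟩ := exists_expo D n
  obtain ⟨b, hb1, hb2⟩ := he n A α hα hn
  have h1 := fun p => S.fg (f := (b p).1) (hb1 p).1 (S.fix_iff.1 (hb1 p).2)
  choose a ha1 ha2 using h1
  set π := (S.I.restrictScalars ℂ).mkQ ∘ₗ (slA g0 : (X → ℂ) →ₐ[ℂ] (X → ℂ)).toLinearMap with hπ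
  let v : T × A → Fin S.N0 → (S.A (w * n + e)).map π :=
    fun p i => ⟨π (a p i), Submodule.mem_map_of_mem (ha1 p i)⟩
  have hv : LinearIndependent ℂ v := by
    refine Fintype.linearIndependent_iff.2 fun c hc p => congrFun (hb2 c fun j => ?_) p
    have h2 : ∀ i, sl j.1 (∑ p, c p • a p i) ∈ S.I := by
      intro i
      refine hP j.1 j.2 _ _ (Submodule.sum_mem _ fun p _ => Submodule.smul_mem _ _ (ha1 p i)) ?_
      have h3 : π (∑ p, c p • a p i) = 0 := by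
        have := congrArg Subtype.val (congrFun hc i)
        simpa [v] using this
      exact (Submodule.Quotient.mk_eq_zero _).1 h3
    have h4 : (∑ p, c p • b p).1 = ∑ i, (∑ p, c p • a p i) * S.gen i := by
      have h5 : (∑ p, c p • b p).1 = ∑ p, c p • (b p).1 := by simp
      rw [h5]
      simp only [Finset.sum_mul, smul_mul_assoc]
      rw [Finset.sum_comm]
      exact Finset.sum_congr rfl fun p _ => by rw [← Finset.smul_sum, ← ha2 p]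
    rw [S.mem_smul_ps, h4]
    change slA j.1 (∑ i, (∑ p, c p • a p i) * S.gen i) ∈ S.I
    rw [map_sum]
    refine Ideal.sum_mem _ fun i _ => ?_
    rw [map_mul]
    exact Ideal.mul_mem_right _ _ (h2 i)
  have := fin (w * n + e)
  have h6 := hv.fintype_card_le_finrank
  rw [Fintype.card_prod, Fintype.card_coe, hA, Module.finrank_pi_fintype, Finset.sum_const,
    Finset.card_univ, Fintype.card_fin, smul_eq_mul] at h6
  refine h6.trans ?_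
  rw [mul_assoc, show s * w * n + (s * e + c) + D = s * (w * n + e) + c + D by ring]
  exact Nat.mul_le_mul_left _ (hb _)

/-- The count. -/
theorem Setup.count_all (S : Setup G X) {n0 : ℕ} (hq : S.Lv n0 ≤ S.Del) (T : Finset G)
    (H : Subgroup G)
    (hH : ∀ g ∈ T, ∀ γ ∈ S.Γ, g⁻¹ * γ * g ∈ S.Del → g⁻¹ * γ * g ∈ H) {D w : ℕ}
    (eig : ∀ T0 : Finset G, (∀ δ ∈ T0, δ ∈ S.Del) → ∃ Φ : Fin D → X → ℂ, (∀ i, Φ i ∈ S.F w) ∧
      (∀ i, Inv H (Φ i)) ∧ (∀ i, ∀ δ ∈ T0, sl δ (Φ i) = Φ i) ∧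
      ∀ p : MvPolynomial (Fin D) ℂ, MvPolynomial.aeval Φ p ∈ S.I → p = 0)
    (sep : ∀ g ∈ T, ∀ g' ∈ T, g ≠ g' →
      ∃ k, ∃ f ∈ S.F k, Inv S.Γ f ∧ f (g • S.a) ≠ f (g' • S.a))
    {g0 : G} (hP : ∀ g ∈ T, ∀ k, ∀ c ∈ S.A k, sl g0 c ∈ S.I → sl g c ∈ S.I)
    {del s c : ℕ}
    (fin : ∀ k, Module.Finite ℂ
      ((S.A k).map ((S.I.restrictScalars ℂ).mkQ ∘ₗ (slA g0).toLinearMap)))
    (hb : ∀ k, Module.finrank ℂ
      ((S.A k).map ((S.I.restrictScalars ℂ).mkQ ∘ₗ (slA g0).toLinearMap)) ≤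
      del * (s * k + c + D).choose D) :
    T.card ≤ S.N0 * del * (s * w) ^ D := by
  classical
  rcases T.eq_empty_or_nonempty with rfl | ⟨g1, hg1⟩
  · simp
  have h0 : ∀ g g' : G, ∃ δ ∈ S.Del, (∃ γ ∈ S.Γ, g⁻¹ * γ * g' ∈ S.Del) →
      ∃ γ ∈ S.Γ, δ = g⁻¹ * γ * g' := by
    intro g g'
    by_cases h : ∃ γ ∈ S.Γ, g⁻¹ * γ * g' ∈ S.Del
    · obtain ⟨γ, h1, h2⟩ := h
      exact ⟨_, h2, fun _ => ⟨γ, h1, rfl⟩⟩
    · exact ⟨1, S.Del.one_mem, fun h' => absurd h' h⟩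
  choose δ hδ1 hδ2 using h0
  obtain ⟨Φ, h1, h2, h3, h4⟩ := eig ((T ×ˢ T).image fun p => δ p.1 p.2) (fun x hx => by
    obtain ⟨p, -, rfl⟩ := Finset.mem_image.1 hx
    exact hδ1 _ _)
  refine S.count_core hq T Φ (fun i => ⟨h1 i, ?_⟩) (fun g hg g' hg' γ hγ hd i => ?_) h4 sep hP
    fin hb
  · obtain ⟨n, hn⟩ := S.conj g1 0
    refine ⟨max n n0, fun h hh => h2 i h ?_⟩
    have e : g1⁻¹ * (g1 * h * g1⁻¹) * g1 = h := by group
    have := hH g1 hg1 _ (S.le 0 (hn h (S.anti (le_max_left _ _) hh)))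
    rw [e] at this
    exact this (hq (S.anti (le_max_right _ _) hh))
  · obtain ⟨γ0, hγ0, e0⟩ := hδ2 g g' ⟨γ, hγ, hd⟩
    have e : g⁻¹ * γ * g' = g⁻¹ * (γ * γ0⁻¹) * g * δ g g' := by rw [e0]; group
    have hη : g⁻¹ * (γ * γ0⁻¹) * g ∈ S.Del := by
      have := S.Del.mul_mem hd (S.Del.inv_mem (hδ1 g g'))
      rwa [e, mul_inv_cancel_right] at this
    rw [e, sl_mul, h2 i _ (hH g hg _ (S.Γ.mul_mem hγ (S.Γ.inv_mem hγ0)) hη)]
    exact h3 i _ (Finset.mem_image.2 ⟨(g, g'), Finset.mem_product.2 ⟨hg, hg'⟩, rfl⟩)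

end M4.CL
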