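import Pool.Agent.Lib.MP_33b3f9_ag.M4.CL.CA
import Pool.Agent.Lib.MP_33b3f9_ag.M4.CntC

/-! The ring of forms of all levels as a ring with a group action. -/

namespace M4.CL

open Pointwise Pool.Agent.M4.Cnt

variable {G X : Type} [Group G] [MulAction G X]

theorem sl_inv_of {g : G} {f : X → ℂ} (h : sl g f = f) : sl g⁻¹ f = f := by
  conv_lhs => rw [← h]
  rw [← sl_mul, mul_inv_cancel, sl_one]

namespace Setup

variable (S : Setup G X)

/-- The ring of forms of all levels. -/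
def MA : Subalgebra ℂ (X → ℂ) where
  carrier := {f | ∃ k, S.MS k f}
  mul_mem' := by
    rintro f g ⟨k, hf, n, hn⟩ ⟨l, hg, m, hm⟩
    refine ⟨k + l, S.mul_mem hf hg, max n m, fun h hh => ?_⟩
    exact (map_mul (slA h) f g).trans (congrArg₂ (· * ·) (hn h (S.anti (le_max_left _ _) hh))
      (hm h (S.anti (le_max_right _ _) hh)))
  add_mem' := by
    rintro f g ⟨k, hf, n, hn⟩ ⟨l, hg, m, hm⟩
    refine ⟨max k l, (S.F _).add_mem (S.mono (le_max_left _ _) hf) (S.mono (le_max_right _ _) hg),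
      max n m, fun h hh => ?_⟩
    exact (map_add (slA h) f g).trans (congrArg₂ (· + ·) (hn h (S.anti (le_max_left _ _) hh))
      (hm h (S.anti (le_max_right _ _) hh)))
  algebraMap_mem' c := ⟨0, by
    rw [Algebra.algebraMap_eq_smul_one]
    exact (S.F 0).smul_mem c S.one_mem, 0, fun _ _ => rfl⟩

instance : MulSemiringAction G S.MA where
  smul g f := ⟨sl g⁻¹ f.1, f.2.imp fun _ h => h.sl g⁻¹⟩
  one_smul f := Subtype.ext (by change sl (1 : G)⁻¹ f.1 = f.1; simp)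
  mul_smul g h f := Subtype.ext (by
    change sl (g * h)⁻¹ f.1 = sl g⁻¹ (sl h⁻¹ f.1)
    rw [mul_inv_rev, sl_mul])
  smul_zero _ := rfl
  smul_add _ _ _ := rfl
  smul_one _ := rfl
  smul_mul _ _ _ := rfl

theorem smul_val (g : G) (f : S.MA) : (g • f).1 = sl g⁻¹ f.1 := rfl

instance : SMulCommClass G ℂ S.MA := ⟨fun _ _ _ => rfl⟩

/-- The filtration. -/
def W (k : ℕ) : Submodule ℂ S.MA := (S.F k).comap S.MA.val.toLinearMap

/-- The colour. -/
def ps : Ideal S.MA := S.I.comap S.MA.val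

theorem mem_W {k : ℕ} {f : S.MA} : f ∈ S.W k ↔ f.1 ∈ S.F k := Iff.rfl

theorem mem_ps {f : S.MA} : f ∈ S.ps ↔ f.1 ∈ S.I := Iff.rfl

theorem mem_smul_ps {g : G} {f : S.MA} : f ∈ g • S.ps ↔ sl g f.1 ∈ S.I := by
  rw [Ideal.mem_pointwise_smul_iff_inv_smul_mem, mem_ps, smul_val, inv_inv]

instance : S.ps.IsPrime where
  ne_top' h := by
    have h1 : (1 : S.MA) ∈ S.ps := h ▸ Submodule.mem_top
    exact one_ne_zero (S.ev _ h1)
  mem_or_mem' {f g} h := by
    obtain ⟨k, hk, -⟩ := f.2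
    obtain ⟨l, hl, -⟩ := g.2
    exact S.prime hk hl h

theorem gr : Gr G S.W := ⟨S.one_mem, fun hx hy => S.mul_mem hx hy, fun g _ _ hx => S.sl_mem g⁻¹ hx⟩

theorem all (f : S.MA) : ∃ k, f ∈ S.W k := f.2.imp fun _ h => h.1

theorem W_mono : Monotone S.W := fun _ _ h _ hx => S.mono h hx

theorem fix_iff {H : Subgroup G} {f : S.MA} : Fix H f ↔ Inv H f.1 :=
  ⟨fun h γ hγ => by simpa [smul_val] using congrArg Subtype.val (h γ⁻¹ (H.inv_mem hγ)),
    fun h γ hγ => Subtype.ext (h γ⁻¹ (H.inv_mem hγ))⟩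

theorem orb_finite (f : S.MA) : (orb S.Γ f).Finite := by
  obtain ⟨k, -, n, hn⟩ := f.2
  exact orb_finite_of_relIndex (S.fin n) (S.fix_iff.2 hn)

theorem smul_ps_iff {δ : G} : δ • S.ps = S.ps ↔ δ ∈ S.Del := by
  constructor
  · intro h k f hf
    have h1 := S.mem_smul_ps (g := δ) (f := ⟨f, k, hf⟩)
    rw [h] at h1
    exact h1.symm
  · intro h
    ext f
    obtain ⟨k, hk⟩ := f.2
    rw [mem_smul_ps]
    exact h k _ hk

theorem smul_eq_iff {g g' γ : G} : γ • g' • S.ps = g • S.ps ↔ g⁻¹ * γ * g' ∈ S.Del := by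
  rw [← smul_ps_iff, mul_smul, mul_smul, inv_smul_eq_iff]

theorem orb_ps_finite {n0 : ℕ} (hq : S.Lv n0 ≤ S.Del) (g : G) : (orb S.Γ (g • S.ps)).Finite := by
  obtain ⟨n, hn⟩ := S.conj g⁻¹ n0
  refine orb_finite_of_relIndex (S.fin n) fun h hh => S.smul_eq_iff.2 (hq ?_)
  simpa using hn h hh

end Setup

end M4.CL
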