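import Pool.Agent.Lib.MP_33b3f9_ag.M4.MFGen
import Pool.Agent.Lib.MP_33b3f9_ag.M4.MFHol

/-! Facts on the ring of theta constants. -/

namespace M4.CL

open Matrix

variable {ι : Type} [Fintype ι] [DecidableEq ι]

theorem x_slash_mem {g : Matrix (ι ⊕ ι) (ι ⊕ ι) ℝ} {m : ℝ} (hg : Sim g m) (hm : 0 < m) (hq : IsQ g)
    {k : ℕ} {f : HH ι → ℂ} (hf : f ∈ MF ι (8 * k)) : slash k g f ∈ MF ι (8 * k) :=
  slash_mem hg hm hq hf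

omit [DecidableEq ι] in
theorem x_hol {n : ℕ} {f : HH ι → ℂ} (hf : f ∈ MF ι n) : ∃ F : (ι → ι → ℂ) → ℂ,
    DifferentiableOn ℂ F (PosIm ι) ∧ ∀ τ : HH ι, f τ = F τ.1 :=
  MF.hol hf

omit [DecidableEq ι] in
theorem x_inH_dg (ρ : Type) [Fintype ρ] [DecidableEq ρ] {τ : Matrix ι ι ℂ} (hτ : InH τ) :
    InH (M4.dg ρ τ) :=
  inH_dg hτ

omit [DecidableEq ι] in
theorem x_dg_mem (ρ : Type) [Fintype ρ] [DecidableEq ρ] {n : ℕ} {f : HH (ι × ρ) → ℂ}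
    (hf : f ∈ MF (ι × ρ) n) :
    (fun τ : HH ι => f ⟨M4.dg ρ τ.1, x_inH_dg ρ τ.2⟩) ∈ MF ι (Fintype.card ρ * n) :=
  dg_mem hf

end M4.CL
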