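import Pool.Agent.Lib.MP_33b3f9_ag.M4.CL.Mx
import Pool.Agent.Lib.MP_33b3f9_ag.M4.CL.Ext

/-! The cone over the Siegel space; forms as functions on the cone. -/

namespace M4.CL

open Matrix

variable {ι : Type} [Fintype ι] [DecidableEq ι]

/-- The cone over the Siegel space. -/
@[ext] structure Cn (ι : Type) [Fintype ι] where
  l : ℂ
  t : HH ι

/-- The action of a similitude on the cone. -/
noncomputable def cact (g : RM ι) (x : Cn ι) : Cn ι := ⟨x.l / wt g x.t.1, aH g x.t⟩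

/-- A form of weight `4 i` as a function on the cone. -/
noncomputable def lift (i : ℕ) : (HH ι → ℂ) →ₗ[ℂ] (Cn ι → ℂ) where
  toFun f x := x.l ^ i * f x.t
  map_add' f g := by funext x; simp [mul_add]
  map_smul' c f := by funext x; simp [mul_left_comm]

/-- Sums of forms of weight at most `4 k`. -/
noncomputable def fil (M : ℕ → Submodule ℂ (HH ι → ℂ)) (k : ℕ) : Submodule ℂ (Cn ι → ℂ) :=
  ⨆ i ∈ Finset.range (k + 1), (M i).map (lift i)

/-- The filtered ring of all forms. -/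
noncomputable def FF (ι : Type) [Fintype ι] (k : ℕ) : Submodule ℂ (Cn ι → ℂ) :=
  fil (fun i => MF ι (8 * i)) k

omit [DecidableEq ι] in
theorem lift_apply (i : ℕ) (f : HH ι → ℂ) (x : Cn ι) : lift i f x = x.l ^ i * f x.t := rfl

theorem wt_ne_zero {g : RM ι} {m : ℝ} (hg : Sim g m) (hm : 0 < m) (τ : HH ι) : wt g τ.1 ≠ 0 :=
  div_ne_zero (pow_ne_zero _ (den_det_ne_zero hg hm τ.2))
    (pow_ne_zero _ (Complex.ofReal_ne_zero.2 (hg.det_ne_zero hm.ne')))

theorem wt_mul' {g h : RM ι} {n : ℝ} (hh : Sim h n) (hn : 0 < n) (τ : HH ι) :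
    wt (g * h) τ.1 = wt g (aH h τ).1 * wt h τ.1 := by
  rw [aH_val hh hn, wt, wt, wt, den_mul (den_det_ne_zero hh hn τ.2), det_mul, det_mul,
    Complex.ofReal_mul, mul_pow, mul_pow, mul_div_mul_comm]

theorem aH_mul' {g h : RM ι} {m n : ℝ} (hg : Sim g m) (hm : 0 < m) (hh : Sim h n) (hn : 0 < n)
    (τ : HH ι) : aH (g * h) τ = aH g (aH h τ) := by
  refine Subtype.ext ?_
  rw [aH_val (hg.mul hh) (mul_pos hm hn), aH_val hg hm, aH_val hh hn,
    act_mul (den_det_ne_zero hh hn τ.2) (den_det_ne_zero hg hm (inH_act hh hn τ.2))]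

theorem cone_scalar {c : ℝ} (hc : c ≠ 0) (x : Cn ι) : cact (c • (1 : RM ι)) x = x := by
  have h1 : den (c • (1 : RM ι)) x.t.1 = (c : ℂ) • 1 := by
    ext i j
    by_cases e : i = j <;> simp [den, mul_apply, toBlocks₁₁, toBlocks₁₂, one_apply, e]
  have h2 : wt (c • (1 : RM ι)) x.t.1 = 1 := by
    rw [wt, h1, det_smul, det_smul, det_one, det_one, mul_one, mul_one, Fintype.card_sum,
      Complex.ofReal_pow, ← pow_mul, ← pow_mul, div_eq_one_iff_eq
        (pow_ne_zero _ (Complex.ofReal_ne_zero.2 hc))]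
    congr 1
    ring
  have h3 : act (c • (1 : RM ι)) x.t.1 = x.t.1 := by rw [act_smul hc, act_one]
  refine Cn.ext ?_ (Subtype.ext ?_)
  · show x.l / _ = x.l
    rw [h2, div_one]
  · show (aH _ x.t).1 = _
    rw [aH, dif_pos (h3.symm ▸ x.t.2)]
    exact h3

theorem cact_one (x : Cn ι) : cact 1 x = x := by
  have := cone_scalar one_ne_zero x
  rwa [one_smul] at this

theorem cact_mul {g h : RM ι} {m n : ℝ} (hg : Sim g m) (hm : 0 < m) (hh : Sim h n) (hn : 0 < n)
    (x : Cn ι) : cact (g * h) x = cact g (cact h x) := by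
  refine Cn.ext ?_ (aH_mul' hg hm hh hn x.t)
  show x.l / wt (g * h) x.t.1 = x.l / wt h x.t.1 / wt g (aH h x.t).1
  rw [wt_mul' hh hn, div_div, mul_comm]

theorem cact_scalar {c : ℝ} (hc : c ≠ 0) (x : Cn ι) : cact (c • (1 : RM ι)) x = x :=
  cone_scalar hc x

theorem lift_cact (i : ℕ) (g : RM ι) (f : HH ι → ℂ) (x : Cn ι) :
    lift i f (cact g x) = lift i (slash i g f) x := by
  show (x.l / wt g x.t.1) ^ i * f (aH g x.t) = x.l ^ i * (f (aH g x.t) / wt g x.t.1 ^ i)
  rw [div_pow, div_mul_eq_mul_div, mul_div_assoc]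

omit [DecidableEq ι] in
theorem lift_mul (i j : ℕ) (f g : HH ι → ℂ) : lift i f * lift j g = lift (i + j) (f * g) := by
  funext x
  simp only [Pi.mul_apply, lift_apply, pow_add]
  ring

omit [DecidableEq ι] in
theorem lift_mem_fil {M : ℕ → Submodule ℂ (HH ι → ℂ)} {i k : ℕ} (h : i ≤ k) {f : HH ι → ℂ}
    (hf : f ∈ M i) : lift i f ∈ fil M k :=
  Submodule.mem_iSup_of_mem i (Submodule.mem_iSup_of_mem (Finset.mem_range.2 (Nat.lt_succ_of_le h))
    ⟨f, hf, rfl⟩)

omit [DecidableEq ι] in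
theorem mem_fil {M : ℕ → Submodule ℂ (HH ι → ℂ)} {k : ℕ} {F : Cn ι → ℂ} : F ∈ fil M k ↔
    ∃ f : ℕ → HH ι → ℂ, (∀ i, f i ∈ M i) ∧ F = ∑ i ∈ Finset.range (k + 1), lift i (f i) := by
  constructor
  · intro h
    obtain ⟨μ, rfl⟩ := (Submodule.mem_iSup_finset_iff_exists_sum _ F).1 h
    choose f h1 h2 using fun i => (μ i).2
    exact ⟨f, h1, Finset.sum_congr rfl fun i _ => (h2 i).symm⟩
  · rintro ⟨f, h, rfl⟩
    exact Submodule.sum_mem _ fun i hi =>
      lift_mem_fil (Nat.le_of_lt_succ (Finset.mem_range.1 hi)) (h i)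

omit [DecidableEq ι] in
theorem fil_mono (M : ℕ → Submodule ℂ (HH ι → ℂ)) : Monotone (fil M) := by
  intro k l h F hF
  obtain ⟨f, h1, rfl⟩ := mem_fil.1 hF
  exact Submodule.sum_mem _ fun i hi =>
    lift_mem_fil ((Nat.le_of_lt_succ (Finset.mem_range.1 hi)).trans h) (h1 i)

omit [DecidableEq ι] in
theorem fil_le {M M' : ℕ → Submodule ℂ (HH ι → ℂ)} (h : ∀ i, M i ≤ M' i) (k : ℕ) :
    fil M k ≤ fil M' k :=
  iSup₂_mono fun i _ => Submodule.map_mono (h i)

omit [DecidableEq ι] in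
theorem fil_one {M : ℕ → Submodule ℂ (HH ι → ℂ)} (h : (1 : HH ι → ℂ) ∈ M 0) :
    (1 : Cn ι → ℂ) ∈ fil M 0 := by
  have e : (1 : Cn ι → ℂ) = lift 0 1 := funext fun x => by simp [lift_apply]
  exact e ▸ lift_mem_fil le_rfl h

omit [DecidableEq ι] in
theorem fil_mul {M : ℕ → Submodule ℂ (HH ι → ℂ)}
    (h : ∀ i j, ∀ f ∈ M i, ∀ g ∈ M j, f * g ∈ M (i + j)) {k l : ℕ} {F G : Cn ι → ℂ}
    (hF : F ∈ fil M k) (hG : G ∈ fil M l) : F * G ∈ fil M (k + l) := by
  obtain ⟨f, h1, rfl⟩ := mem_fil.1 hF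
  obtain ⟨g, h2, rfl⟩ := mem_fil.1 hG
  rw [Finset.sum_mul_sum]
  refine Submodule.sum_mem _ fun i hi => Submodule.sum_mem _ fun j hj => ?_
  rw [lift_mul]
  exact lift_mem_fil (add_le_add (Nat.le_of_lt_succ (Finset.mem_range.1 hi))
    (Nat.le_of_lt_succ (Finset.mem_range.1 hj))) (h i j _ (h1 i) _ (h2 j))

omit [DecidableEq ι] in
/-- A polynomial in one variable that vanishes everywhere. -/
theorem lift_inj {n : ℕ} {f g : ℕ → HH ι → ℂ}
    (h : ∑ i ∈ Finset.range n, lift i (f i) = ∑ i ∈ Finset.range n, lift i (g i)) {i : ℕ}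
    (hi : i < n) : f i = g i := by
  funext τ
  have e : ∑ j ∈ Finset.range n, Polynomial.monomial j (f j τ) =
      ∑ j ∈ Finset.range n, Polynomial.monomial j (g j τ) := by
    refine Polynomial.funext fun l => ?_
    have := congrFun h ⟨l, τ⟩
    simpa only [Finset.sum_apply, lift_apply, Polynomial.eval_finsetSum, Polynomial.eval_monomial,
      mul_comm] using this
  have := congrArg (fun P => Polynomial.coeff P i) e
  simpa [Polynomial.coeff_monomial, hi] using this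

theorem FF_cact {g : RM ι} {m : ℝ} (hg : Sim g m) (hm : 0 < m) (hq : IsQ g) {k : ℕ}
    {F : Cn ι → ℂ} (hF : F ∈ FF ι k) : (fun x => F (cact g x)) ∈ FF ι k := by
  obtain ⟨f, h1, rfl⟩ := mem_fil.1 hF
  refine mem_fil.2 ⟨fun i => slash i g (f i), fun i => x_slash_mem hg hm hq (h1 i), ?_⟩
  funext x
  simp only [Finset.sum_apply, lift_cact]

/-- `x_hol`, `differentiableOn_act` or continuity of the inverse matrix, `InH.posIm`. -/
theorem continuous_tv {k : ℕ} {F : Cn ι → ℂ} (hF : F ∈ FF ι k) (u : ι ⊕ ι → ℝ) (x : Cn ι) :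
    Continuous fun t : ℝ => F (cact (tv t u) x) := by
  obtain ⟨f, h1, rfl⟩ := mem_fil.1 hF
  have c0 : Continuous fun t : ℝ => tv t u := by
    unfold tv
    fun_prop
  have c1 : ∀ (a b : ι → ι ⊕ ι), Continuous fun t : ℝ =>
      ((tv t u).submatrix a b).map Complex.ofReal := fun a b =>
    (c0.matrix_submatrix a b).matrix_map Complex.continuous_ofReal
  have c2 : Continuous fun t : ℝ => den (tv t u) x.t.1 :=
    (c1 Sum.inl Sum.inl).sub ((c1 Sum.inl Sum.inr).matrix_mul continuous_const)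
  have c3 : Continuous fun t : ℝ => actNum (tv t u) x.t.1 :=
    ((c1 Sum.inr Sum.inr).matrix_mul continuous_const).sub (c1 Sum.inr Sum.inl)
  have c4 : Continuous fun t : ℝ => wt (tv t u) x.t.1 :=
    (c2.matrix_det.pow 4).div ((Complex.continuous_ofReal.comp c0.matrix_det).pow 2) fun t =>
      pow_ne_zero _ (Complex.ofReal_ne_zero.2 ((tv_sim t u).det_ne_zero one_ne_zero))
  have c5 : Continuous fun t : ℝ => (aH (tv t u) x.t).1 := by
    simp only [aH_val (tv_sim _ u) one_pos, act_eq_num, Matrix.inv_def, Ring.inverse_eq_inv']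
    exact c3.matrix_mul ((c2.matrix_det.inv₀ fun t =>
      den_det_ne_zero (tv_sim t u) one_pos x.t.2).smul c2.matrix_adjugate)
  simp only [Finset.sum_apply, lift_apply]
  refine continuous_finsetSum _ fun i _ => Continuous.mul
    ((continuous_const.div c4 fun t => wt_ne_zero (tv_sim t u) one_pos x.t).pow i) ?_
  obtain ⟨G, h2, h3⟩ := x_hol (h1 i)
  simp only [h3]
  exact h2.continuousOn.comp_continuous c5 fun t => InH.posIm (aH (tv t u) x.t).2

end M4.CL
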