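import Pool.Agent.Lib.MP_33b3f9_ag.M4.FP.Defs

/-! One deep element gives a whole layer of the congruence filtration. -/

namespace M4.CL

open Matrix

variable {ι : Type} [Fintype ι] [DecidableEq ι] {G : Subgroup (symplecticGroup ι ℤ)}

theorem e2b_ideal {M : Type} [AddCommGroup M] (L : AddSubgroup M) (N : M) {m q j : ℕ}
    (hq : q ∣ m ^ j) {c : ℤ} (hc : c ≠ 0) (h1 : (q : ℤ) • N ∈ L)
    (h2 : ∀ l : ℕ, l.Prime → l ∣ q → ∃ s : ℤ, ¬ (l : ℤ) ∣ s ∧ (c * s) • N ∈ L) :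
    ((m ^ c.natAbs : ℕ) : ℤ) • N ∈ L := by
  have key : ∀ t : ℤ, t • N ∈ L ↔ (addOrderOf (N : M ⧸ L) : ℤ) ∣ t := fun t => by
    rw [addOrderOf_dvd_iff_zsmul_eq_zero, ← QuotientAddGroup.mk_zsmul,
      QuotientAddGroup.eq_zero_iff]
  simp only [key] at h1 h2 ⊢
  generalize addOrderOf (N : M ⧸ L) = d at h1 h2 ⊢
  rw [Int.natCast_dvd_natCast] at h1 ⊢
  refine (Nat.dvd_iff_prime_pow_dvd_dvd _ _).2 fun l e hl he => ?_
  rcases e with _ | e
  · simp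
  have h3 : l ∣ q := ((dvd_pow_self l e.succ_ne_zero).trans he).trans h1
  obtain ⟨s, hs, h4⟩ := h2 l hl h3
  have h5 : l ^ (e + 1) ∣ c.natAbs * s.natAbs := by
    rw [← Int.natAbs_mul]
    exact he.trans (Int.natCast_dvd.1 h4)
  have h6 : l ^ (e + 1) ∣ c.natAbs := Nat.Coprime.dvd_of_dvd_mul_right
    (Nat.Coprime.pow_left _ ((Nat.Prime.coprime_iff_not_dvd hl).2 fun h => hs
      (Int.natCast_dvd.2 h))) h5
  have h7 := (Nat.lt_pow_self hl.one_lt).le.trans (Nat.le_of_dvd (Int.natAbs_pos.2 hc) h6)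
  exact (pow_dvd_pow l h7).trans (pow_dvd_pow_of_dvd (hl.dvd_of_dvd_pow (h3.trans hq)) _)

/-- One layer of the congruence filtration. -/
def e2bL (G : Subgroup (symplecticGroup ι ℤ)) (q : ℤ) :
    AddSubgroup (Matrix (ι ⊕ ι) (ι ⊕ ι) ℤ) where
  carrier := {Y | ∃ g ∈ G, ∃ Z : Matrix (ι ⊕ ι) (ι ⊕ ι) ℤ,
    g.1 = 1 + (32 * q) • Y + (32 * q ^ 2) • Z}
  zero_mem' := ⟨1, G.one_mem, 0, by simp⟩
  add_mem' := by
    rintro Y Y' ⟨g, hg, Z, h⟩ ⟨g', hg', Z', h'⟩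
    refine ⟨g * g', G.mul_mem hg hg', Z + Z' + (32 : ℤ) • (Y * Y') + (32 * q) • (Y * Z' + Z * Y') +
      (32 * q ^ 2) • (Z * Z'), ?_⟩
    change g.1 * g'.1 = _
    rw [h, h']
    simp only [add_mul, mul_add, one_mul, mul_one, Matrix.smul_mul, Matrix.mul_smul]
    module
  neg_mem' := by
    rintro Y ⟨g, hg, Z, h⟩
    have h1 : g.1 * (g⁻¹).1 = 1 := congrArg Subtype.val (mul_inv_cancel g)
    refine ⟨g⁻¹, G.inv_mem hg, (32 : ℤ) • (Y * (Y * (g⁻¹).1)) + (32 * q) • (Y * (Z * (g⁻¹).1)) -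
      Z * (g⁻¹).1, ?_⟩
    generalize (g⁻¹).1 = u at h1 ⊢
    rw [h] at h1
    have h2 := congrArg (fun t => Y * t) h1
    simp only [add_mul, mul_add, one_mul, mul_one, Matrix.smul_mul, Matrix.mul_smul] at h1 h2
    linear_combination (norm := module) h1 - (32 * q) • h2

theorem e2b_conj (q : ℤ) : ∀ g ∈ G, ∀ X ∈ e2bL G q,
    (g : Matrix (ι ⊕ ι) (ι ⊕ ι) ℤ) * X * (g⁻¹ : symplecticGroup ι ℤ) ∈ e2bL G q := by
  rintro g hg X ⟨g', hg', Z, h⟩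
  have h1 : g.1 * (g⁻¹).1 = 1 := congrArg Subtype.val (mul_inv_cancel g)
  refine ⟨g * g' * g⁻¹, G.mul_mem (G.mul_mem hg hg') (G.inv_mem hg), g.1 * Z * (g⁻¹).1, ?_⟩
  change g.1 * g'.1 * (g⁻¹).1 = _
  rw [h]
  simp only [add_mul, mul_add, mul_one, Matrix.smul_mul, Matrix.mul_smul, h1]

theorem e2b_q (q : ℤ) (Z : Matrix (ι ⊕ ι) (ι ⊕ ι) ℤ) : q • Z ∈ e2bL G q :=
  ⟨1, G.one_mem, -Z, by
    change (1 : Matrix (ι ⊕ ι) (ι ⊕ ι) ℤ) = _
    module⟩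

/-- The test vectors. -/
def e2bV (p : (ι ⊕ ι) × Option (ι ⊕ ι)) : ι ⊕ ι → ℤ :=
  Pi.single p.1 1 + p.2.elim 0 fun b => Pi.single b 1

theorem e2b_test {X : Matrix (ι ⊕ ι) (ι ⊕ ι) ℤ} {a l : ℤ} (ha : a ≠ 0) (hl : l ∣ a) (ho : Odd l)
    (hX : 1 + a • X ∈ symplecticGroup ι ℤ) (h : ∀ p, l ∣ e2bV p ⬝ᵥ (J ι ℤ * X) *ᵥ e2bV p)
    (i j : ι ⊕ ι) : l ∣ X i j := by
  have h1 : J ι ℤ * X - (J ι ℤ * X)ᵀ = (-a) • (Xᵀ * J ι ℤ * X) := by
    have h2 := SymplecticGroup.mem_iff'.1 hX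
    refine smul_right_injective _ ha ?_
    simp only [transpose_add, transpose_one, transpose_smul, add_mul, mul_add, one_mul, mul_one,
      Matrix.smul_mul, Matrix.mul_smul] at h2
    simp only [transpose_mul, J_transpose, Matrix.mul_neg]
    linear_combination (norm := module) h2
  generalize hA : J ι ℤ * X = A at h h1
  have h2 : ∀ i, l ∣ A i i := fun i => by simpa [e2bV] using h (i, none)
  have h3 : ∀ i j, l ∣ A i j := fun i j => by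
    have h4 := h (i, some j)
    simp only [e2bV, Option.elim_some, mulVec_add, add_dotProduct, dotProduct_add,
      mulVec_single_one, single_dotProduct, one_mul, col_apply] at h4
    have h5 : l ∣ A i j - A j i := by
      have := congrFun (congrFun h1 i) j
      rw [Matrix.sub_apply, transpose_apply, Matrix.smul_apply, smul_eq_mul] at this
      rw [this]
      exact (dvd_neg.2 hl).mul_right _
    have h6 : l ∣ 2 * A i j := by
      have h7 := dvd_add (dvd_sub (dvd_sub h4 (h2 i)) (h2 j)) h5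
      rwa [show A i i + A j i + (A i j + A j j) - A i i - A j j + (A i j - A j i) = 2 * A i j by
        ring] at h7
    exact (Int.isCoprime_two_right.2 ho).dvd_of_dvd_mul_left h6
  have h4 : X = -(J ι ℤ * A) := by
    rw [← hA, ← Matrix.mul_assoc, J_squared, Matrix.neg_mul, Matrix.one_mul, neg_neg]
  rw [h4, Matrix.neg_apply, dvd_neg, mul_apply]
  exact Finset.dvd_sum fun k _ => (h3 k j).mul_left _

theorem e2b_span (L : AddSubgroup (Matrix (ι ⊕ ι) (ι ⊕ ι) ℤ)) {t : ℤ}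
    (h : ∀ p, t • FP.Nv (e2bV p) ∈ L) {S : Matrix (ι ⊕ ι) (ι ⊕ ι) ℤ} (hS : S.IsSymm) :
    (2 : ℤ) • (t • (S * J ι ℤ)) ∈ L := by
  have h1 : ∀ i j : ι ⊕ ι, t • ((single i j 1 + single j i 1) * J ι ℤ) ∈ L := fun i j => by
    convert L.sub_mem (L.sub_mem (h (i, some j)) (h (i, none))) (h (j, none)) using 1
    simp only [FP.Nv, e2bV, Option.elim_some, Option.elim_none, add_zero, add_vecMulVec,
      vecMulVec_add, ← single_eq_single_vecMulVec_single, add_mul, smul_add]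
    abel
  have h2 : (2 : ℤ) • S = ∑ i, ∑ j, S i j • (single i j 1 + single j i 1) := by
    simp only [smul_add, Finset.sum_add_distrib, smul_single, smul_eq_mul, mul_one]
    rw [← matrix_eq_sum_single, Finset.sum_comm, two_smul]
    congr 1
    conv_lhs => rw [matrix_eq_sum_single S]
    exact Finset.sum_congr rfl fun i _ => Finset.sum_congr rfl fun j _ => by rw [hS.apply]
  rw [smul_comm, ← Matrix.smul_mul, h2, Finset.sum_mul, Finset.smul_sum]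
  refine L.sum_mem fun i _ => ?_
  rw [Finset.sum_mul, Finset.smul_sum]
  refine L.sum_mem fun j _ => ?_
  rw [Matrix.smul_mul, smul_comm]
  exact L.zsmul_mem (h1 i j) _

/-- `L = {Y | ∃ g ∈ G, ∃ Z, g = 1 + 32 q Y + 32 q² Z}` is an additive subgroup, stable under
conjugation by `G`, it contains `X` and all `q • Z` (take `g = 1`). Let `B` be the finite set of
the vectors `e a`, `e a + e b`, `c0` the product of the constants `c v w` of `SpanOK` over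
`v, w ∈ B`, `c0 = c1 c2` with `c1 ∣ m ^ k` and `c2` prime to `m`. For `v ∈ B` the set of integers
`t` with `(t * c0) • Nv v ∈ L` is an ideal that contains `q` and all `w ⬝ᵥ (J X) w`, `w ∈ B`. No
prime `l` divides all of these: `l ∣ q` is odd, `J X` is symmetric modulo `32 q` since `g` is
symplectic, so `l` would divide `2 (J X) a b` for all `a, b`. Hence `c0 • Nv v ∈ L`, by Bezout
`c1 • Nv v ∈ L`. Every `S * J`, `S` symmetric, is an integral combination of the `Nv v`, `v ∈ B`. -/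
theorem exists_layer (hG : FP.SpanOK G) {m : ℕ} (hm : Odd m) : ∃ k : ℕ, ∀ q j : ℕ, q ∣ m ^ j →
    ∀ g ∈ G, ∀ X : Matrix (ι ⊕ ι) (ι ⊕ ι) ℤ, g.1 = 1 + ((32 * q : ℕ) : ℤ) • X →
      (∀ l : ℕ, l.Prime → l ∣ m → ∃ a b, ¬ (l : ℤ) ∣ X a b) →
      ∀ S : Matrix (ι ⊕ ι) (ι ⊕ ι) ℤ, S.IsSymm → ∃ g' ∈ G, ∃ Z : Matrix (ι ⊕ ι) (ι ⊕ ι) ℤ,
        g'.1 = 1 + ((32 * q * m ^ k : ℕ) : ℤ) • (S * J ι ℤ) + ((32 * q ^ 2 : ℕ) : ℤ) • Z := by
  choose c hc0 hc using hG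
  refine ⟨(∏ p : ((ι ⊕ ι) × Option (ι ⊕ ι)) × ((ι ⊕ ι) × Option (ι ⊕ ι)),
    c (e2bV p.1) (e2bV p.2)).natAbs, fun q j hq g hg X hX hl S hS => ?_⟩
  have hqo : Odd q := Odd.of_dvd_nat hm.pow hq
  have hXL : X ∈ e2bL G q := ⟨g, hg, 0, by rw [hX]; simp⟩
  have h1 := fun p => e2b_ideal (e2bL G q) (FP.Nv (e2bV p)) hq
    (Finset.prod_ne_zero_iff.2 fun (p : ((ι ⊕ ι) × Option (ι ⊕ ι)) × ((ι ⊕ ι) × Option (ι ⊕ ι))) _ =>
      hc0 (e2bV p.1) (e2bV p.2)) (e2b_q _ _) fun l hlp hlq => by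
      obtain ⟨a, b, hab⟩ := hl l hlp (hlp.dvd_of_dvd_pow (hlq.trans hq))
      obtain ⟨p', hp'⟩ := not_forall.1 fun h => hab (e2b_test (a := ((32 * q : ℕ) : ℤ))
        (by have := hqo.pos; positivity) (Int.natCast_dvd_natCast.2 (hlq.mul_left 32))
        ((Int.odd_coe_nat l).2 (Odd.of_dvd_nat hqo hlq)) (hX ▸ g.2) h a b)
      refine ⟨_, hp', ?_⟩
      obtain ⟨u, hu⟩ := Finset.dvd_prod_of_mem
        (fun p : ((ι ⊕ ι) × Option (ι ⊕ ι)) × ((ι ⊕ ι) × Option (ι ⊕ ι)) =>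
          c (e2bV p.1) (e2bV p.2)) (Finset.mem_univ (p, p'))
      rw [hu, mul_right_comm, mul_comm, mul_smul]
      exact AddSubgroup.zsmul_mem _ (hc _ _ _ (e2b_conj q) X hXL) u
  have h2 := e2b_span _ h1 hS
  generalize (∏ p : ((ι ⊕ ι) × Option (ι ⊕ ι)) × ((ι ⊕ ι) × Option (ι ⊕ ι)),
    c (e2bV p.1) (e2bV p.2)).natAbs = k at h2 ⊢
  obtain ⟨r, hr⟩ := hqo
  have h3 : ((m ^ k : ℕ) : ℤ) • (S * J ι ℤ) ∈ e2bL G q := by
    convert (e2bL G q).sub_mem (e2b_q q (((m ^ k : ℕ) : ℤ) • (S * J ι ℤ)))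
      (AddSubgroup.zsmul_mem _ h2 r) using 1
    rw [hr]
    push_cast
    module
  obtain ⟨g', hg', Z, h4⟩ := h3
  refine ⟨g', hg', Z, ?_⟩
  rw [h4, smul_smul]
  push_cast
  rfl

end M4.CL
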