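import Pool.Agent.Lib.MP_33b3f9_ag.M4.CL.E2a
import Pool.Agent.Lib.MP_33b3f9_ag.M4.CL.E2b

/-! The closure of a subgroup with large adjoint span is open. -/

namespace M4.CL

open Matrix

variable {ι : Type} [Fintype ι] [DecidableEq ι] {G : Subgroup (symplecticGroup ι ℤ)}

/-- With `T = - Y J`, `Y = T J`, symplecticity gives `T - Tᵀ = (2 a) • W`; `S = T - a • W`. -/
theorem exists_symm {γ Y : Matrix (ι ⊕ ι) (ι ⊕ ι) ℤ} (hγ : γ ∈ symplecticGroup ι ℤ) {a : ℤ}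
    (ha : a ≠ 0) (h : γ = 1 + (2 * a) • Y) :
    ∃ S Z : Matrix (ι ⊕ ι) (ι ⊕ ι) ℤ, S.IsSymm ∧ Y = S * J ι ℤ + a • Z := by
  have h1 := SymplecticGroup.mem_iff.1 hγ
  have h2 : (2 * a) • (Y * J ι ℤ + J ι ℤ * Yᵀ + (2 * a) • (Y * J ι ℤ * Yᵀ)) = 0 := by
    rw [h, transpose_add, transpose_one, transpose_smul] at h1
    simp only [add_mul, mul_add, one_mul, mul_one, smul_mul_assoc, mul_smul_comm] at h1
    rw [← sub_eq_zero] at h1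
    rw [← h1]
    module
  have h3 := (smul_eq_zero.1 h2).resolve_left (mul_ne_zero two_ne_zero ha)
  refine ⟨-(Y * J ι ℤ) - a • (Y * J ι ℤ * Yᵀ), Y * J ι ℤ * Yᵀ * J ι ℤ, ?_, ?_⟩
  · rw [Matrix.IsSymm, ← sub_eq_zero, ← h3]
    simp only [transpose_sub, transpose_neg, transpose_smul, transpose_mul, transpose_transpose,
      J_transpose, neg_mul, mul_neg, mul_assoc]
    module
  · rw [sub_mul, smul_mul_assoc, sub_add_cancel, neg_mul, mul_assoc, J_squared, mul_neg, mul_one,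
      neg_neg]

theorem e2_step {γ g : symplecticGroup ι ℤ} {c : ℤ} {U : Matrix (ι ⊕ ι) (ι ⊕ ι) ℤ}
    (h : γ.1 = g.1 + c • U) : (γ * g⁻¹).1 = 1 + c • (U * (g⁻¹).1) := by
  have h1 : g.1 * (g⁻¹).1 = 1 := congrArg Subtype.val (mul_inv_cancel g)
  rw [← h1, ← smul_mul_assoc, ← add_mul, ← h]
  rfl

omit [Fintype ι] in
theorem e2_dvd {A b : Matrix (ι ⊕ ι) (ι ⊕ ι) ℤ} {s t : ℕ} (hst : s ∣ t)
    (h : A = 1 + ((32 * t : ℕ) : ℤ) • b) :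
    ∃ b' : Matrix (ι ⊕ ι) (ι ⊕ ι) ℤ, A = 1 + ((32 * s : ℕ) : ℤ) • b' := by
  obtain ⟨u, rfl⟩ := hst
  refine ⟨(u : ℤ) • b, ?_⟩
  rw [h, smul_smul]
  push_cast
  rw [mul_assoc]

/-- Let `q n = q * m ^ n` (`exists_tower`), `k` from `exists_layer`. If `γ = 1 + 32 (q n) m ^ k Y`
then `exists_symm` and `exists_layer` give `g ∈ G` with `γ = g` modulo `32 (q n)²`, so
`γ g⁻¹ = 1` modulo `32 (q (n + 1)) m ^ k` as soon as `k + 1 ≤ n`. Induction on `n`; choose `e` with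
`q (k + 1) m ^ k ∣ m ^ e`. The empty index type is trivial. -/
theorem exists_open (hG : FP.SpanOK G) {m : ℕ} (hm : Odd m) : ∃ e : ℕ, ∀ (n : ℕ)
    (γ : symplecticGroup ι ℤ) (b : Matrix (ι ⊕ ι) (ι ⊕ ι) ℤ),
    γ.1 = 1 + ((32 * m ^ e : ℕ) : ℤ) • b → ∃ g ∈ G, ∃ (h : symplecticGroup ι ℤ)
      (b' : Matrix (ι ⊕ ι) (ι ⊕ ι) ℤ), h.1 = 1 + ((32 * m ^ n : ℕ) : ℤ) • b' ∧ γ = h * g := by
  rcases isEmpty_or_nonempty ι with hι | hι
  · exact ⟨0, fun n γ b _ => ⟨1, G.one_mem, γ, 0, Subsingleton.elim _ _, (mul_one γ).symm⟩⟩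
  have hm0 : m ≠ 0 := hm.pos.ne'
  obtain ⟨q, j, hq, htow⟩ := exists_tower hG hm0
  obtain ⟨k, hk⟩ := exists_layer hG hm
  have hq0 : q ≠ 0 := ne_zero_of_dvd_ne_zero (pow_ne_zero j hm0) hq
  have key : ∀ (d : ℕ) (γ : symplecticGroup ι ℤ) (b : Matrix (ι ⊕ ι) (ι ⊕ ι) ℤ),
      γ.1 = 1 + ((32 * (q * m ^ (k + 1) * m ^ k) : ℕ) : ℤ) • b → ∃ g ∈ G,
        ∃ (h : symplecticGroup ι ℤ) (b' : Matrix (ι ⊕ ι) (ι ⊕ ι) ℤ),
          h.1 = 1 + ((32 * (q * m ^ (k + 1 + d) * m ^ k) : ℕ) : ℤ) • b' ∧ γ = h * g := by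
    intro d γ b hb
    induction d with
    | zero => exact ⟨1, G.one_mem, γ, b, hb, (mul_one γ).symm⟩
    | succ d ih =>
      obtain ⟨g, hg, h, Y, hY, rfl⟩ := ih
      obtain ⟨g0, hg0, X, hX, hX'⟩ := htow (k + 1 + d)
      have ha : ((16 * (q * m ^ (k + 1 + d) * m ^ k) : ℕ) : ℤ) ≠ 0 := by
        rw [Int.natCast_ne_zero]
        positivity
      obtain ⟨S, Z, hS, rfl⟩ := exists_symm (Y := Y) h.2 ha (by
        rw [hY]
        push_cast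
        rw [← mul_assoc (2 : ℤ)]
        norm_num)
      obtain ⟨g1, hg1, Z', hZ⟩ := hk (q * m ^ (k + 1 + d)) (j + (k + 1 + d))
        (by rw [pow_add m j]; exact mul_dvd_mul_right hq _) g0 hg0 X hX hX' S hS
      have h1 : h.1 = g1.1 + ((32 * (q * m ^ (k + 1 + d)) ^ 2 : ℕ) : ℤ) •
          ((16 * (m : ℤ) ^ k * (m : ℤ) ^ k) • Z - Z') := by
        rw [hY, hZ]
        push_cast
        module
      obtain ⟨b', hb'⟩ := e2_dvd (s := q * m ^ (k + 1 + (d + 1)) * m ^ k)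
        ⟨q * m ^ d, by ring⟩ (e2_step h1)
      exact ⟨g1 * g, G.mul_mem hg1 hg, h * g1⁻¹, b', hb', by group⟩
  refine ⟨j + (k + 1) + k, fun n γ b hb => ?_⟩
  obtain ⟨b1, hb1⟩ := e2_dvd (s := q * m ^ (k + 1) * m ^ k) (by
    rw [pow_add m _ k, pow_add m j]
    exact mul_dvd_mul_right (mul_dvd_mul_right hq _) _) hb
  obtain ⟨g, hg, h, b', hb', rfl⟩ := key n γ b1 hb1
  obtain ⟨b2, hb2⟩ := e2_dvd (s := m ^ n) ⟨q * m ^ (k + 1) * m ^ k, by ring⟩ hb'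
  exact ⟨g, hg, h, b2, hb2, rfl⟩

end M4.CL
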