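import Pool.Agent.Lib.MP_33b3f9_ag.M4.CL.Cone

/-! Analytic germs in the Siegel space and their ideals. -/

namespace M4.CL

open Matrix Filter Topology

variable {ι : Type} [Fintype ι]

open Classical in
/-- A matrix as a point of the Siegel space, with default value `a`. -/
noncomputable def pt (a : HH ι) (τ : Matrix ι ι ℂ) : HH ι := if h : InH τ then ⟨τ, h⟩ else a

/-- The functions of `U` define an immersion into projective space at `a`. -/
def Imm (U : Set (HH ι → ℂ)) (a : HH ι) : Prop :=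
  (∃ f ∈ U, f a ≠ 0) ∧ ∀ (ξ : Matrix ι ι ℂ) (μ : ℂ), ξ.IsSymm →
    (∀ f ∈ U, HasDerivAt (fun s : ℂ => f (pt a (a.1 + s • ξ))) (μ * f a) 0) → ξ = 0

/-- An analytic germ in the Siegel space. -/
structure Germ (ι : Type) [Fintype ι] (E : Type) [NormedAddCommGroup E] [NormedSpace ℂ E] where
  w : E → Matrix ι ι ℂ
  an : AnalyticAt ℂ (fun (s : E) (i j : ι) => w s i j) 0
  sy : ∀ s, (w s).IsSymm
  inH : InH (w 0)

theorem gm_inH {τ : Matrix ι ι ℂ} (h1 : τ.IsSymm) (h2 : (fun i j => τ i j) ∈ PosIm ι) : InH τ :=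
  ⟨h1, PosDef.of_dotProduct_mulVec_pos (isHermitian_iff_isSymm.2 (h1.map Complex.im))
    fun x hx => by
      rw [star_trivial, ths_form]
      exact h2 x hx⟩

theorem gm_pt (a : HH ι) {τ : Matrix ι ι ℂ} (h : InH τ) : (pt a τ).1 = τ := by
  rw [pt, dif_pos h]

theorem gm_mul {X : Type} [NormedAddCommGroup X] [NormedSpace ℂ X] {f g : X → ℂ} {x : X}
    (hf : AnalyticAt ℂ f x) (hg : AnalyticAt ℂ g x) (h : ∀ᶠ y in 𝓝 x, f y * g y = 0) :
    (∀ᶠ y in 𝓝 x, f y = 0) ∨ ∀ᶠ y in 𝓝 x, g y = 0 := by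
  obtain ⟨r, hr, hb⟩ := Metric.eventually_nhds_iff_ball.1
    (hf.eventually_analyticAt.and (hg.eventually_analyticAt.and h))
  by_cases h0 : ∀ y ∈ Metric.ball x r, f y = 0
  · exact Or.inl (Metric.eventually_nhds_iff_ball.2 ⟨r, hr, h0⟩)
  · push Not at h0
    obtain ⟨y, hy, h1⟩ := h0
    refine Or.inr (Metric.eventually_nhds_iff_ball.2 ⟨r, hr, fun z hz => ?_⟩)
    refine AnalyticOnNhd.eqOn_zero_of_preconnected_of_eventuallyEq_zero
      (fun z hz => (hb z hz).2.1) (convex_ball x r).isPreconnected hy ?_ hz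
    filter_upwards [(hb y hy).1.continuousAt.eventually_ne h1, Metric.isOpen_ball.mem_nhds hy]
      with z a1 a2
    exact (mul_eq_zero.1 (hb z a2).2.2).resolve_left a1

namespace Germ

variable {E : Type} [NormedAddCommGroup E] [NormedSpace ℂ E] (V : Germ ι E)

/-- The base point. -/
def a : HH ι := ⟨V.w 0, V.inH⟩

/-- The germ as a map to the Siegel space. -/
noncomputable def p (s : E) : HH ι := pt V.a (V.w s)

/-- The cone over the germ. -/
noncomputable def c (q : ℂ × E) : Cn ι := ⟨q.1, V.p q.2⟩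

/-- The functions that vanish on the cone over the germ. -/
def I : Ideal (Cn ι → ℂ) where
  carrier := {F | ∀ᶠ q in 𝓝 ((1 : ℂ), (0 : E)), F (V.c q) = 0}
  zero_mem' := Eventually.of_forall fun _ => rfl
  add_mem' := fun hf hg => (hf.and hg).mono fun q h => by simp [h.1, h.2]
  smul_mem' := fun c _ hf => hf.mono fun q h => by simp [h]

theorem mem_I {F : Cn ι → ℂ} : F ∈ V.I ↔ ∀ᶠ q in 𝓝 ((1 : ℂ), (0 : E)), F (V.c q) = 0 := Iff.rfl

theorem p_zero : V.p 0 = V.a := by
  exact Subtype.ext (gm_pt _ V.inH)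

/-- `isOpen_posIm`; a symmetric matrix in `PosIm` lies in the Siegel space. -/
theorem p_val : ∀ᶠ s in 𝓝 (0 : E), (V.p s).1 = V.w s := by
  filter_upwards [V.an.continuousAt.eventually_mem (isOpen_posIm.mem_nhds V.inH.posIm)] with s hs
  exact gm_pt _ (gm_inH (V.sy s) hs)

/-- `x_hol`, `Osg.analyticOnNhd_of_differentiableOn`. -/
theorem analyticAt_p {n : ℕ} {f : HH ι → ℂ} (hf : f ∈ MF ι n) :
    AnalyticAt ℂ (fun s => f (V.p s)) 0 := by
  obtain ⟨F, hF, e⟩ := x_hol hf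
  refine ((Pool.Agent.Lib.MP_a47f92_an.Osg.analyticOnNhd_of_differentiableOn isOpen_posIm hF _
    V.inH.posIm).comp V.an).congr ?_
  filter_upwards [V.p_val] with s hs
  rw [e, hs]
  rfl

theorem analyticAt_c {k : ℕ} {F : Cn ι → ℂ} (hF : F ∈ FF ι k) :
    AnalyticAt ℂ (fun q => F (V.c q)) (1, 0) := by
  obtain ⟨f, hf, rfl⟩ := mem_fil.1 hF
  simp only [Finset.sum_apply, lift_apply]
  exact Finset.analyticAt_fun_sum _ fun i _ => (analyticAt_fst.pow i).mul
    ((V.analyticAt_p (hf i)).comp_of_eq analyticAt_snd rfl)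

/-- On a small ball: `AnalyticOnNhd.eqOn_zero_of_preconnected_of_eventuallyEq_zero`. -/
theorem prime {k l : ℕ} {F G : Cn ι → ℂ} (hF : F ∈ FF ι k) (hG : G ∈ FF ι l) (h : F * G ∈ V.I) :
    F ∈ V.I ∨ G ∈ V.I := by
  exact gm_mul (V.analyticAt_c hF) (V.analyticAt_c hG) h

/-- `nhds_prod_eq`; a polynomial in one variable that vanishes near `1` is zero. -/
theorem sum_mem_I (n : ℕ) (f : ℕ → HH ι → ℂ) : ∑ i ∈ Finset.range n, lift i (f i) ∈ V.I ↔
    ∀ i < n, ∀ᶠ s in 𝓝 (0 : E), f i (V.p s) = 0 := by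
  rw [mem_I]
  simp only [Finset.sum_apply, lift_apply]
  refine ⟨fun h i hi => ?_, fun h => ?_⟩
  · rw [nhds_prod_eq, eventually_prod_iff] at h
    obtain ⟨pa, ha, pb, hb, h⟩ := h
    filter_upwards [hb] with s hs
    have h1 : ∑ j ∈ Finset.range n, Polynomial.monomial j (f j (V.p s)) = 0 := by
      refine Polynomial.eq_zero_of_infinite_isRoot _ ((infinite_of_mem_nhds (1 : ℂ) ha).mono
        fun x hx => ?_)
      change Polynomial.eval x _ = 0
      rw [Polynomial.eval_finsetSum, ← h hx hs]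
      exact Finset.sum_congr rfl fun j _ => by rw [Polynomial.eval_monomial, mul_comm]; rfl
    have h2 := congrArg (fun P : Polynomial ℂ => P.coeff i) h1
    simpa [Polynomial.coeff_monomial, hi] using h2
  · have h1 := (eventually_all_finset (Finset.range n)).2 fun i hi => h i (Finset.mem_range.1 hi)
    filter_upwards [(continuous_snd.tendsto ((1 : ℂ), (0 : E))).eventually h1] with q hq
    exact Finset.sum_eq_zero fun i hi => mul_eq_zero_of_right _ (hq i hi)

theorem lift_mem_I (i : ℕ) (f : HH ι → ℂ) :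
    lift i f ∈ V.I ↔ ∀ᶠ s in 𝓝 (0 : E), f (V.p s) = 0 := by
  rw [mem_I]
  refine ⟨fun h => ?_, fun h => ?_⟩
  · rw [nhds_prod_eq, eventually_prod_iff] at h
    obtain ⟨pa, ha, pb, hb, h⟩ := h
    obtain ⟨x, h1, h2⟩ := (ha.and (eventually_ne_nhds one_ne_zero)).exists
    filter_upwards [hb] with s hs
    exact (mul_eq_zero.1 (h h1 hs)).resolve_left (pow_ne_zero _ h2)
  · filter_upwards [(continuous_snd.tendsto ((1 : ℂ), (0 : E))).eventually h] with q hq
    exact mul_eq_zero_of_right _ hq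

/-- With `F` from `x_hol` the derivative is `k * ξ.1 * f a + fderiv F a η`, `η` the derivative of
`w` along `ξ.2` (symmetric), and `fderiv F a η` is the derivative along the line `a + s η`
(`eventually_inH`). -/
theorem imm (hi : Function.Injective (fderiv ℂ (fun (s : E) (i j : ι) => V.w s i j) 0))
    {U : Set (HH ι → ℂ)} {n : ℕ} (hU : ∀ f ∈ U, f ∈ MF ι n) (h : Imm U V.a) {k : ℕ} (hk : k ≠ 0)
    (ξ : ℂ × E) (h0 : ∀ f ∈ U, fderiv ℂ (fun q => lift k f (V.c q)) (1, 0) ξ = 0) : ξ = 0 := by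
  have hD := V.an.differentiableAt.hasFDerivAt
  obtain ⟨D, eD⟩ : ∃ D, D = fderiv ℂ (fun (s : E) (i j : ι) => V.w s i j) 0 := ⟨_, rfl⟩
  rw [← eD] at hD hi
  have hs : (Matrix.of (D ξ.2)).IsSymm := IsSymm.ext fun i j => by
    have h1 := hasFDerivAt_pi'.1 (hasFDerivAt_pi'.1 hD i) j
    have h2 := hasFDerivAt_pi'.1 (hasFDerivAt_pi'.1 hD j) i
    simp only [fun s => (V.sy s).apply i j] at h2
    exact DFunLike.congr_fun (h2.unique h1) ξ.2
  have hl : HasDerivAt (fun s : ℂ => (fun i j => V.w 0 i j) + s • D ξ.2) (D ξ.2) 0 := by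
    simpa using ((hasDerivAt_id (0 : ℂ)).smul_const (D ξ.2)).const_add fun i j => V.w 0 i j
  have hH : ∀ᶠ s : ℂ in 𝓝 0, InH (V.a.1 + s • Matrix.of (D ξ.2)) := by
    filter_upwards [hl.continuousAt.eventually_mem
      (isOpen_posIm.mem_nhds (by simpa using V.inH.posIm))] with s h1
    exact gm_inH (V.inH.1.add (hs.smul s)) h1
  have key : ∀ f ∈ U, ∃ d, d = -(k * ξ.1) * f V.a ∧ (ξ.2 = 0 → d = 0) ∧
      HasDerivAt (fun s : ℂ => f (pt V.a (V.a.1 + s • Matrix.of (D ξ.2)))) d 0 := fun f hf => by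
    obtain ⟨F, hF, e⟩ := x_hol (hU f hf)
    have h1 := (hF.differentiableAt (isOpen_posIm.mem_nhds V.inH.posIm)).hasFDerivAt
    refine ⟨fderiv ℂ F (fun i j => V.w 0 i j) (D ξ.2), ?_, fun h => by simp [h], ?_⟩
    · have h2 := ((hasFDerivAt_fst (𝕜 := ℂ) (p := ((1 : ℂ), (0 : E)))).pow k).mul
        ((h1.comp 0 hD).comp ((1 : ℂ), (0 : E)) hasFDerivAt_snd)
      have h3 : (fun q => lift k f (V.c q)) =ᶠ[𝓝 ((1 : ℂ), (0 : E))]
          fun q => q.1 ^ k * F (fun i j => V.w q.2 i j) := by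
        filter_upwards [(continuous_snd.tendsto ((1 : ℂ), (0 : E))).eventually V.p_val] with q hq
        change q.1 ^ k * f (V.p q.2) = _
        rw [e, hq]
      have h4 := h0 f hf
      rw [(h2.congr_of_eventuallyEq h3).fderiv] at h4
      have h5 : f V.a = F fun i j => V.w 0 i j := e _
      simp at h4
      rw [h5]
      linear_combination h4
    · refine (h1.comp_hasDerivAt_of_eq 0 hl (by simp)).congr_of_eventuallyEq ?_
      filter_upwards [hH] with s h2
      rw [e, gm_pt _ h2]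
      rfl
  have h1 : ξ.2 = 0 := hi ((h.2 _ (-(k * ξ.1)) hs fun f hf => by
    obtain ⟨d, rfl, -, h2⟩ := key f hf
    exact h2).trans (map_zero D).symm)
  obtain ⟨f, hf, h2⟩ := h.1
  obtain ⟨d, rfl, h3, -⟩ := key f hf
  refine Prod.ext ?_ h1
  simpa [h2, hk] using h3 h1

end Germ

end M4.CL
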