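import Pool.Agent.Lib.MP_33b3f9_ag.M4.CL.Cone

/-! The group of similitudes with denominators dividing a power of `m`, and its levels. -/

namespace M4.CL

open Matrix

variable {ι : Type} [Fintype ι] [DecidableEq ι] {m : ℕ}

omit [Fintype ι] [DecidableEq ι] in
theorem grp_zr_neg (a : ZM ι) : zr (-a) = -zr a := by
  ext i j
  simp [zr]

omit [Fintype ι] in
theorem grp_zr_lv (N : ℤ) (b : ZM ι) : zr (1 + N • b) = 1 + (N : ℝ) • zr b := by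
  rw [zr_add, zr_one, zr_smul]

theorem grp_zr_adj (b : ZM ι) :
    zr (-(J ι ℤ * bᵀ * J ι ℤ)) = -(J ι ℝ * (zr b)ᵀ * J ι ℝ) := by
  have h : zr (J ι ℤ) = J ι ℝ := map_J ι (Int.castRingHom ℝ)
  rw [grp_zr_neg, zr_mul, zr_mul, h]
  rfl

theorem grp_adj_mul {g : RM ι} {μ : ℝ} (h : Sim g μ) : -(J ι ℝ * gᵀ * J ι ℝ) * g = μ • 1 := by
  rw [Matrix.neg_mul, Matrix.mul_assoc (J ι ℝ), Matrix.mul_assoc (J ι ℝ), (sim_iff g μ).1 h,
    Matrix.mul_smul, J_squared, smul_neg, neg_neg]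

theorem grp_cong_adj {N : ℕ} {g : RM ι} (h : Cong N m g) : Cong N m (-(J ι ℝ * gᵀ * J ι ℝ)) := by
  obtain ⟨j, b, h⟩ := h
  refine ⟨j, -(J ι ℤ * bᵀ * J ι ℤ), ?_⟩
  have h1 : -(J ι ℝ * gᵀ * J ι ℝ) - 1 = -(J ι ℝ * (g - 1)ᵀ * J ι ℝ) := by
    rw [transpose_sub, transpose_one, Matrix.mul_sub, Matrix.sub_mul, Matrix.mul_one, J_squared]
    abel
  rw [h1, grp_zr_adj, smul_neg, smul_neg, ← Matrix.smul_mul, ← Matrix.mul_smul, ← transpose_smul,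
    h, transpose_smul, Matrix.mul_smul, Matrix.smul_mul]

theorem grp_sim_scalar (c : ℝ) : Sim (c • (1 : RM ι)) (c * c) := by
  intro x y
  rw [smul_mulVec, smul_mulVec, one_mulVec, one_mulVec, E_smul_left, E_smul_right, mul_assoc]

theorem Cong.one (N m : ℕ) : Cong N m (1 : RM ι) := by
  refine ⟨0, 0, ?_⟩
  ext i j
  simp [zr]

theorem Cong.mul {N : ℕ} {g h : RM ι} (hg : Cong N m g) (hh : Cong N m h) : Cong N m (g * h) := by
  obtain ⟨j, b, hb⟩ := hg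
  obtain ⟨k, c, hc⟩ := hh
  refine ⟨j + k, (N : ℤ) • (b * c) + ((m : ℤ) ^ k • b + (m : ℤ) ^ j • c), ?_⟩
  have h1 : (m : ℝ) ^ (j + k) • (g * h - 1) =
      ((m : ℝ) ^ j • (g - 1)) * ((m : ℝ) ^ k • (h - 1)) +
        ((m : ℝ) ^ k • (m : ℝ) ^ j • (g - 1) + (m : ℝ) ^ j • (m : ℝ) ^ k • (h - 1)) := by
    rw [Matrix.smul_mul, Matrix.mul_smul, Matrix.sub_mul, Matrix.mul_sub, Matrix.mul_one,
      Matrix.one_mul, pow_add]
    module
  rw [h1, hb, hc, zr_add, zr_add, zr_smul, zr_smul, zr_smul, zr_mul, Matrix.smul_mul,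
    Matrix.mul_smul]
  push_cast
  module

theorem Cong.intM {N : ℕ} {g : RM ι} (hg : Cong N m g) : ∃ j : ℕ, IntM ((m : ℝ) ^ j • g) := by
  obtain ⟨j, b, hb⟩ := hg
  refine ⟨j, (m : ℤ) ^ j • 1 + (N : ℤ) • b, ?_⟩
  rw [zr_add, zr_smul, zr_smul, zr_one]
  push_cast
  rw [← hb, smul_sub, add_sub_cancel]

theorem Cong.isQ {N : ℕ} {g : RM ι} (hg : Cong N m g) (hm : m ≠ 0) : IsQ g := by
  obtain ⟨j, b, hb⟩ := hg.intM
  intro i k
  refine ⟨b i k / m ^ j, ?_⟩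
  have h1 : (m : ℝ) ^ j * g i k = b i k := congrFun (congrFun hb i) k
  have h2 : (m : ℝ) ^ j ≠ 0 := pow_ne_zero _ (by exact_mod_cast hm)
  push_cast
  rw [eq_div_iff h2, mul_comm, h1]

/-- Similitudes that are `1` modulo `8` over `ℤ[1 / m]`, with their inverses. -/
def GS (ι : Type) [Fintype ι] [DecidableEq ι] (m : ℕ) : Subgroup (GL (ι ⊕ ι) ℝ) where
  carrier := {g | (∃ μ, 0 < μ ∧ Sim (g : RM ι) μ) ∧ Cong 8 m (g : RM ι) ∧
    Cong 8 m ((g⁻¹ : GL (ι ⊕ ι) ℝ) : RM ι)}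
  one_mem' := ⟨⟨1, one_pos, Sim.one⟩, Cong.one _ _, Cong.one _ _⟩
  mul_mem' := by
    rintro g h ⟨⟨μ, h1, h2⟩, h3, h4⟩ ⟨⟨ν, h5, h6⟩, h7, h8⟩
    refine ⟨⟨μ * ν, mul_pos h1 h5, h2.mul h6⟩, h3.mul h7, ?_⟩
    rw [_root_.mul_inv_rev]
    exact h8.mul h4
  inv_mem' := by
    rintro g ⟨⟨μ, h1, h2⟩, h3, h4⟩
    exact ⟨⟨μ⁻¹, inv_pos.2 h1, Sim.inv' h2 h1.ne' g.mul_inv⟩, h4, h3⟩

/-- The underlying matrix. -/
def mx (g : GS ι m) : RM ι := ((g : GL (ι ⊕ ι) ℝ) : RM ι)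

theorem mx_mul (g h : GS ι m) : mx (g * h) = mx g * mx h := rfl

theorem mx_one : mx (1 : GS ι m) = 1 := rfl

theorem mx_inv (g : GS ι m) : mx g * mx g⁻¹ = 1 := by rw [← mx_mul, mul_inv_cancel, mx_one]

theorem mx_injective : Function.Injective (mx : GS ι m → RM ι) :=
  fun _ _ h => Subtype.ext (Units.ext h)

theorem mx_sim (g : GS ι m) : ∃ μ, 0 < μ ∧ Sim (mx g) μ := g.2.1

theorem mx_cong (g : GS ι m) : Cong 8 m (mx g) := g.2.2.1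

noncomputable instance : MulAction (GS ι m) (Cn ι) where
  smul g x := cact (mx g) x
  one_smul := cact_one
  mul_smul g h x := by
    obtain ⟨μ, h1, h2⟩ := mx_sim g
    obtain ⟨ν, h3, h4⟩ := mx_sim h
    exact cact_mul h2 h1 h4 h3 x

theorem smul_def (g : GS ι m) (x : Cn ι) : g • x = cact (mx g) x := rfl

theorem grp_sim_inv {g : GS ι m} {μ : ℝ} (h : Sim (mx g) μ) (hμ : μ ≠ 0) : Sim (mx g⁻¹) μ⁻¹ :=
  Sim.inv' h hμ (mx_inv g)

/-- The symplectic elements. -/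
def SpG (ι : Type) [Fintype ι] [DecidableEq ι] (m : ℕ) : Subgroup (GS ι m) where
  carrier := {g | Sim (mx g) 1}
  one_mem' := Sim.one
  mul_mem' := fun {g h} hg hh => by simpa [mx_mul] using Sim.mul hg hh
  inv_mem' := fun {g} hg => by simpa using Sim.inv' hg one_ne_zero (mx_inv g)

/-- The principal congruence subgroups. -/
def LvG (ι : Type) [Fintype ι] [DecidableEq ι] (m N : ℕ) : Subgroup (GS ι m) where
  carrier := {g | Sim (mx g) 1 ∧ ∃ b : ZM ι, mx g = zr (1 + (N : ℤ) • b)}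
  one_mem' := ⟨Sim.one, 0, by simp [mx_one, zr_one]⟩
  mul_mem' := by
    rintro g h ⟨h1, b, hb⟩ ⟨h2, c, hc⟩
    refine ⟨by simpa [mx_mul] using Sim.mul h1 h2, b + c + (N : ℤ) • (b * c), ?_⟩
    rw [mx_mul, hb, hc, ← zr_mul]
    congr 1
    rw [Matrix.add_mul, Matrix.mul_add, Matrix.mul_add, Matrix.one_mul, Matrix.one_mul,
      Matrix.mul_one, Matrix.smul_mul, Matrix.mul_smul]
    module
  inv_mem' := by
    rintro g ⟨h1, b, hb⟩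
    refine ⟨by simpa using grp_sim_inv h1 one_ne_zero, ?_⟩
    have h2 := grp_adj_mul h1
    rw [one_smul] at h2
    obtain ⟨c, hc⟩ : ∃ c : ZM ι, zr c * mx g = 1 := ⟨_, by rw [grp_zr_adj, ← hb, h2]⟩
    have h3 : mx g⁻¹ = zr c := by
      rw [← Matrix.one_mul (mx g⁻¹), ← hc, Matrix.mul_assoc, mx_inv, Matrix.mul_one]
    refine ⟨-(c * b), ?_⟩
    rw [hb, ← zr_mul, ← zr_one] at hc
    have h4 := zr_injective hc
    rw [Matrix.mul_add, Matrix.mul_one, Matrix.mul_smul] at h4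
    rw [h3, ← h4, smul_neg, add_neg_cancel_right]

theorem commutator_mem (a b : GS ι m) : a * b * a⁻¹ * b⁻¹ ∈ SpG ι m := by
  obtain ⟨μ, h1, h2⟩ := mx_sim a
  obtain ⟨ν, h3, h4⟩ := mx_sim b
  have h := ((h2.mul h4).mul (grp_sim_inv h2 h1.ne')).mul (grp_sim_inv h4 h3.ne')
  have h5 : μ * ν * μ⁻¹ * ν⁻¹ = 1 := by field_simp
  rw [h5] at h
  exact h

instance : (SpG ι m).Normal := ⟨fun n hn g => by
  have := (SpG ι m).mul_mem (commutator_mem g n) hn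
  simpa using this⟩

theorem LvG_le_SpG (N : ℕ) : LvG ι m N ≤ SpG ι m := fun _ h => h.1

/-- The inverse is `M⁻¹ g'`, `g' = - J gᵀ J` integral, `g' - M = g' (1 - g)`. -/
theorem exists_mx {g b : ZM ι} {M : ℕ} (hM : 0 < M) (hd : M ∣ m) (hs : Sim (zr g) M)
    (h : g = 1 + (8 : ℤ) • b) : ∃ x : GS ι m, mx x = zr g := by
  have hM' : (0 : ℝ) < M := by exact_mod_cast hM
  obtain ⟨c, hc⟩ : ∃ c : ZM ι, zr c * zr g = (M : ℝ) • 1 := ⟨_, by rw [grp_zr_adj, grp_adj_mul hs]⟩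
  have h1 : ((M : ℝ)⁻¹ • zr c) * zr g = 1 := by
    rw [Matrix.smul_mul, hc, smul_smul, inv_mul_cancel₀ hM'.ne', one_smul]
  have h2 : zr g - 1 = (8 : ℝ) • zr b := by
    rw [h, grp_zr_lv, add_sub_cancel_left]
    norm_num
  obtain ⟨d, rfl⟩ := hd
  refine ⟨⟨⟨zr g, (M : ℝ)⁻¹ • zr c, mul_eq_one_comm.1 h1, h1⟩, ⟨M, hM', hs⟩,
    ⟨0, b, by simpa using h2⟩, 1, -((d : ℤ) • (c * b)), ?_⟩, rfl⟩
  change ((M * d : ℕ) : ℝ) ^ 1 • ((M : ℝ)⁻¹ • zr c - 1) = _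
  have h3 : (M : ℝ) • ((M : ℝ)⁻¹ • zr c - 1) = -((8 : ℝ) • (zr c * zr b)) := by
    rw [smul_sub, smul_smul, mul_inv_cancel₀ hM'.ne', one_smul, ← hc, ← Matrix.mul_smul, ← h2,
      Matrix.mul_sub, Matrix.mul_one, neg_sub]
  rw [pow_one, Nat.cast_mul, mul_comm, mul_smul, h3, grp_zr_neg, zr_smul, zr_mul]
  push_cast
  module

theorem LvG_anti {N N' : ℕ} (h : N ∣ N') : LvG ι m N' ≤ LvG ι m N := by
  obtain ⟨c, rfl⟩ := h
  rintro g ⟨h1, b, hb⟩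
  exact ⟨h1, (c : ℤ) • b, by rw [hb, smul_smul, Nat.cast_mul]⟩

theorem grp_conj (g h : GS ι m) (c : ℝ) (b : RM ι) (hb : mx h = 1 + c • b) :
    mx (g * h * g⁻¹) = 1 + c • (mx g * b * mx g⁻¹) := by
  rw [mx_mul, mx_mul, hb, Matrix.mul_add, Matrix.add_mul, Matrix.mul_one, mx_inv,
    Matrix.mul_smul, Matrix.smul_mul]

theorem LvG_normal {N N' : ℕ} {γ h : GS ι m} (hγ : γ ∈ LvG ι m N') (hh : h ∈ LvG ι m N) :
    γ * h * γ⁻¹ ∈ LvG ι m N := by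
  obtain ⟨-, c', hc'⟩ := (LvG ι m N').inv_mem hγ
  obtain ⟨-, c, hc⟩ := hγ
  obtain ⟨h1, b, hb⟩ := hh
  refine ⟨(inferInstance : (SpG ι m).Normal).conj_mem h h1 γ,
    (1 + (N' : ℤ) • c) * b * (1 + (N' : ℤ) • c'), ?_⟩
  rw [grp_zr_lv] at hb
  rw [grp_conj γ h _ _ hb, grp_zr_lv (N : ℤ), zr_mul, zr_mul, hc, hc']

/-- Reduction modulo `N` is a homomorphism from `LvG N'` to a finite monoid with this kernel. -/
theorem LvG_fin {N : ℕ} (hN : N ≠ 0) (N' : ℕ) : (LvG ι m N).relIndex (LvG ι m N') ≠ 0 := by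
  have : NeZero N := ⟨hN⟩
  have hI : ∀ k : LvG ι m N', ∃ a : ZM ι, mx (k : GS ι m) = zr a := fun k =>
    let ⟨_, _, hb⟩ := k.2
    ⟨_, hb⟩
  choose I hI using hI
  let φ : LvG ι m N' →* Matrix (ι ⊕ ι) (ι ⊕ ι) (ZMod N) :=
    { toFun := fun k => (Int.castRingHom (ZMod N)).mapMatrix (I k)
      map_one' := by
        have h : I 1 = 1 := zr_injective (by rw [← hI, zr_one]; rfl)
        rw [h, map_one]
      map_mul' := fun k l => by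
        have h : I (k * l) = I k * I l := zr_injective (by rw [← hI, zr_mul, ← hI, ← hI]; rfl)
        rw [h, map_mul] }
  have h1 : φ.toHomUnits.ker ≤ (LvG ι m N).subgroupOf (LvG ι m N') := by
    intro k hk
    have h2 : (Int.castRingHom (ZMod N)).mapMatrix (I k - 1) = 0 := by
      rw [map_sub, map_one, sub_eq_zero]
      exact congrArg Units.val (MonoidHom.mem_ker.1 hk)
    have h3 : ∀ i j, ∃ z : ℤ, (I k - 1) i j = N * z := fun i j =>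
      (ZMod.intCast_zmod_eq_zero_iff_dvd _ N).1 (congrFun (congrFun h2 i) j)
    choose b hb using h3
    refine ⟨k.2.1, of b, ?_⟩
    have h4 : I k - 1 = (N : ℤ) • of b := by
      ext i j
      exact hb i j
    rw [← h4, add_sub_cancel]
    exact hI k
  exact (Subgroup.finiteIndex_of_le h1).index_ne_zero

theorem LvG_conj (hm : m ≠ 0) (g : GS ι m) (n : ℕ) :
    ∃ n', ∀ h ∈ LvG ι m (32 * m ^ n'), g * h * g⁻¹ ∈ LvG ι m (32 * m ^ n) := by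
  obtain ⟨j, A, hA⟩ := (mx_cong g).intM
  obtain ⟨k, B, hB⟩ := (mx_cong g⁻¹).intM
  refine ⟨n + j + k, fun h hh => ?_⟩
  obtain ⟨h1, b, hb⟩ := hh
  refine ⟨(inferInstance : (SpG ι m).Normal).conj_mem h h1 g, A * b * B, ?_⟩
  rw [grp_zr_lv] at hb
  rw [grp_conj g h _ _ hb, grp_zr_lv, zr_mul, zr_mul, ← hA, ← hB, Matrix.smul_mul,
    Matrix.smul_mul, Matrix.mul_smul, smul_smul, smul_smul]
  congr 2
  push_cast
  ring

/-- `z` is the scalar `μ⁻¹`; one entry of `gᵀ J g = μ J` shows `μ = 1` modulo `8` over `ℤ[1 / m]`,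
the same for `g⁻¹` and `μ⁻¹`. -/
theorem exists_scalar [Nonempty ι] (g : GS ι m) :
    ∃ z : GS ι m, (∀ x : Cn ι, z • x = x) ∧ g * g * z ∈ SpG ι m := by
  obtain ⟨μ, h1, h2⟩ := mx_sim g
  have h3 : Cong 8 m (μ • (1 : RM ι)) :=
    grp_adj_mul h2 ▸ (grp_cong_adj (mx_cong g)).mul (mx_cong g)
  have h4 : Cong 8 m (μ⁻¹ • (1 : RM ι)) :=
    grp_adj_mul (grp_sim_inv h2 h1.ne') ▸ (grp_cong_adj (mx_cong g⁻¹)).mul (mx_cong g⁻¹)
  have h5 : (μ⁻¹ • (1 : RM ι)) * (μ • (1 : RM ι)) = 1 := by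
    rw [Matrix.smul_mul, Matrix.one_mul, smul_smul, inv_mul_cancel₀ h1.ne', one_smul]
  refine ⟨⟨⟨μ⁻¹ • 1, μ • 1, h5, mul_eq_one_comm.1 h5⟩,
    ⟨μ⁻¹ * μ⁻¹, by positivity, grp_sim_scalar _⟩, h4, h3⟩,
    fun x => cact_scalar (inv_ne_zero h1.ne') x, ?_⟩
  have h := (h2.mul h2).mul (grp_sim_scalar μ⁻¹)
  have h6 : μ * μ * (μ⁻¹ * μ⁻¹) = 1 := by field_simp
  rw [h6] at h
  exact h

end M4.CL
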