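import Pool.Agent.Lib.MP_33b3f9_ag.M4.CL.CA
import Pool.Agent.Lib.MP_33b3f9_ag.M4.CL.Grp
import Pool.Agent.Lib.MP_33b3f9_ag.M4.CL.Gm
import Pool.Agent.Lib.MP_33b3f9_ag.M4.CL.E2

/-! The stabiliser of the colour contains a congruence subgroup. -/

namespace M4.CL

open Matrix Filter Topology

variable {ι : Type} [Fintype ι] [DecidableEq ι] {m : ℕ}
  {E : Type} [NormedAddCommGroup E] [NormedSpace ℂ E]

/-- The abstract frame `S` is the frame of all forms and of the germ `V`. -/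
structure Con (S : Setup (GS ι m) (Cn ι)) (V : Germ ι E) : Prop where
  F : S.F = FF ι
  I : S.I = V.I
  a : S.a = V.c (1, 0)
  Γ : S.Γ = LvG ι m 32
  Lv : ∀ n, S.Lv n = LvG ι m (32 * m ^ n)

variable {S : Setup (GS ι m) (Cn ι)} {V : Germ ι E}

/-- `lift_cact`, `sum_mem_I`, `p_val`, `aH_val`, `wt_ne_zero`. -/
theorem sl_sum_mem_I (V : Germ ι E) (g : GS ι m) (n : ℕ) (f : ℕ → HH ι → ℂ) :
    sl g (∑ i ∈ Finset.range n, lift i (f i)) ∈ V.I ↔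
      ∀ i < n, ∀ᶠ s in 𝓝 (0 : E), f i (aH (mx g) (V.p s)) = 0 := by
  obtain ⟨μ, h1, h2⟩ := mx_sim g
  have e : sl g (∑ i ∈ Finset.range n, lift i (f i)) =
      ∑ i ∈ Finset.range n, lift i (slash i (mx g) (f i)) := by
    funext x
    simp only [sl, Finset.sum_apply, smul_def, lift_cact]
  rw [e, V.sum_mem_I]
  refine forall₂_congr fun i _ => Filter.eventually_congr (Eventually.of_forall fun s => ?_)
  rw [slash_apply, div_eq_zero_iff, or_iff_left (pow_ne_zero _ (wt_ne_zero h2 h1 _))]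

theorem del_step (V : Germ ι E) (g₀ x : GS ι m) {g : symplecticGroup ι ℤ} (hx : mx x = zr g.1)
    (hv : ∀ F : (ι → ι → ℂ) → ℂ, DifferentiableOn ℂ F (PosIm ι) →
      (∀ᶠ s in 𝓝 (0 : E), F (act (mx g₀) (V.w s)) = 0) →
      ∀ᶠ s in 𝓝 (0 : E), F (FP.az g (act (mx g₀) (V.w s))) = 0) {k : ℕ} {F : Cn ι → ℂ}
    (hF : F ∈ FF ι k) (h : sl g₀ F ∈ V.I) : sl (x * g₀) F ∈ V.I := by
  obtain ⟨f, hf, rfl⟩ := mem_fil.1 hF
  obtain ⟨μ, h1, h2⟩ := mx_sim g₀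
  obtain ⟨ν, h3, h4⟩ := mx_sim x
  rw [sl_sum_mem_I] at h ⊢
  intro i hi
  obtain ⟨Φ, hΦ, e⟩ := x_hol (hf i)
  have h5 : ∀ᶠ s in 𝓝 (0 : E), Φ (act (mx g₀) (V.w s)) = 0 := by
    filter_upwards [h i hi, V.p_val] with s a b
    rwa [e, aH_val h2 h1, b] at a
  filter_upwards [hv Φ hΦ h5, V.p_val] with s a b
  rw [e, mx_mul, aH_mul' h4 h3 h2 h1, aH_val h4 h3, aH_val h2 h1, b, hx]
  exact a

theorem sl_inv_of' {G X : Type} [Group G] [MulAction G X] {g : G} {f : X → ℂ} (h : sl g f = f) :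
    sl g⁻¹ f = f := by
  conv_lhs => rw [← h]
  rw [← sl_mul, mul_inv_cancel, sl_one]

/-- Step 1: for `g ∈ G` with `g = 1` modulo `8`, `x` with `mx x = zr g` and `F ∈ FF k`:
`sl g₀ F ∈ I → sl (x * g₀) F ∈ I` (`mem_fil`, `sl_sum_mem_I`, `x_hol`, `hv`). Step 2: `e` from
`exists_open`; for `γ ∈ Lv e` and `F` invariant under `Lv n` write `γ = h * x`, `h ∈ Lv n`
(`g = h⁻¹ γ` is `1` modulo `32`; `exists_mx` with `M = 1`), so `sl γ F = sl x F` and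
`sl g₀ F ∈ I → sl (γ * g₀) F ∈ I`; apply this also to `γ⁻¹` and `sl γ F`. Step 3: `S.conj g₀ e`,
`F = sl g₀ (sl g₀⁻¹ F)`, `MS.sl`. -/
theorem Con.le_del (h : Con S V) (hm : Odd m) (g₀ : GS ι m) {G : Subgroup (symplecticGroup ι ℤ)}
    (hG : FP.SpanOK G) (hv : ∀ γ ∈ G, ∀ F : (ι → ι → ℂ) → ℂ, DifferentiableOn ℂ F (PosIm ι) →
      (∀ᶠ s in 𝓝 (0 : E), F (act (mx g₀) (V.w s)) = 0) →
      ∀ᶠ s in 𝓝 (0 : E), F (FP.az γ (act (mx g₀) (V.w s))) = 0) : ∃ n, S.Lv n ≤ S.Del := by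
  obtain ⟨e, he⟩ := exists_open hG hm
  have hA : ∀ γ ∈ S.Lv e, ∀ k F, S.MS k F → sl g₀ F ∈ S.I → sl g₀ (sl γ F) ∈ S.I := by
    rintro γ hγ k F ⟨hF, n, hn⟩ hI
    rw [h.Lv] at hγ hn
    rw [h.F] at hF
    rw [h.I] at hI ⊢
    obtain ⟨h1, b, h2⟩ := hγ
    obtain ⟨g, hg, η, b', h3, h4⟩ := he n ⟨_, (sim_zr_iff _).1 (h2 ▸ h1)⟩ b rfl
    have h5 : Sim (zr η.1) 1 := (sim_zr_iff _).2 η.2
    obtain ⟨y, hy⟩ := exists_mx (m := m) (g := η.1) (b := ((4 * m ^ n : ℕ) : ℤ) • b') (M := 1)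
      one_pos (one_dvd _) (by simpa using h5) (by
        rw [h3, smul_smul]
        congr 2
        push_cast
        ring)
    have h6 : y ∈ LvG ι m (32 * m ^ n) := ⟨hy ▸ h5, b', by rw [hy, h3]⟩
    have h7 : mx γ = mx y * zr g.1 := by
      rw [hy, ← zr_mul, h2]
      exact congrArg (fun z : symplecticGroup ι ℤ => zr z.1) h4
    have h8 : mx (y⁻¹ * γ) = zr g.1 := by
      rw [mx_mul, h7, ← mul_assoc, ← mx_mul, inv_mul_cancel, mx_one, one_mul]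
    have h9 := del_step V g₀ _ h8 (hv g hg) hF hI
    rwa [sl_mul, sl_mul, sl_inv_of' (hn y h6)] at h9
  obtain ⟨n, hn⟩ := S.conj g₀ e
  have hB : ∀ δ ∈ S.Lv n, ∀ k F, S.MS k F → F ∈ S.I → sl δ F ∈ S.I := by
    intro δ hδ k F hF hI
    have h1 := hA _ (hn δ hδ) k _ (hF.sl g₀⁻¹) (by rwa [← sl_mul, inv_mul_cancel, sl_one])
    rwa [← sl_mul, ← sl_mul, show g₀⁻¹ * (g₀ * δ * g₀⁻¹ * g₀) = δ by group] at h1
  refine ⟨n, fun δ hδ k F hF => ⟨fun hI => ?_, hB δ hδ k F hF⟩⟩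
  have h1 := hB _ ((S.Lv n).inv_mem hδ) k _ (hF.sl δ) hI
  rwa [← sl_mul, mul_inv_cancel, sl_one] at h1

end M4.CL
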