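import Pool.Agent.Lib.MP_33b3f9_ag.M4.FP.Defs

/-! A subgroup with large adjoint span contains a tower of deep elements. -/

namespace M4.CL

open Matrix

variable {ι : Type} [Fintype ι] [DecidableEq ι] {G : Subgroup (symplecticGroup ι ℤ)}

/-- Otherwise `G` is finite (reduction modulo `M` is injective on `G`). Put `S = ∑ g gᵀ` over `G`,
`X = S J`; then `g X g⁻¹ = X` (`J g⁻¹ = gᵀ J`), so `L = ℤ X` is stable. For `w ≠ 0`,
`w ⬝ᵥ (J X) w = - ∑ |gᵀ J w|² ≠ 0`, hence `c • Nv v = k • X` with `c ≠ 0`, `v ≠ 0`, so `k ≠ 0`.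
`Nv v * Nv v = 0` but `X` is injective on vectors (the same sum of squares). -/
theorem exists_ne_one [Nonempty ι] (hG : FP.SpanOK G) {M : ℤ} (hM : M ≠ 0) :
    ∃ g ∈ G, ∃ b : Matrix (ι ⊕ ι) (ι ⊕ ι) ℤ, b ≠ 0 ∧ g.1 = 1 + M • b := by
  by_contra hc
  push Not at hc
  have : NeZero M.natAbs := ⟨Int.natAbs_ne_zero.2 hM⟩
  have : Finite G := Finite.of_injective
    (fun g : G => g.1.1.map (Int.cast : ℤ → ZMod M.natAbs)) fun g g' h => by
      have h1 : ∀ i j, ∃ c, (g.1.1 - g'.1.1) i j = M * c := fun i j =>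
        Int.natAbs_dvd.1 ((ZMod.intCast_eq_intCast_iff_dvd_sub _ _ _).1
          (congrFun (congrFun h i) j).symm)
      choose c hc' using h1
      have h2 : g.1.1 - g'.1.1 = M • Matrix.of c := Matrix.ext hc'
      have h3 : (g'.1⁻¹ * g.1).1 = 1 + M • ((g'.1⁻¹).1 * Matrix.of c) := by
        rw [← Matrix.mul_smul, ← h2, Matrix.mul_sub, ← Submonoid.coe_mul, ← Submonoid.coe_mul,
          inv_mul_cancel, Submonoid.coe_one, add_sub_cancel]
      by_cases h4 : (g'.1⁻¹).1 * Matrix.of c = 0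
      · rw [h4, smul_zero, add_zero] at h3
        exact Subtype.ext (inv_mul_eq_one.1 (Subtype.ext h3)).symm
      · exact absurd h3 (hc _ (G.mul_mem (G.inv_mem g'.2) g.2) _ h4)
  have := Fintype.ofFinite G
  obtain ⟨S, hS⟩ : ∃ S, S = ∑ g : G, g.1.1 * g.1.1ᵀ := ⟨_, rfl⟩
  have h1 : ∀ u : ι ⊕ ι → ℤ, u ⬝ᵥ S *ᵥ u = 0 → u = 0 := fun u hu => by
    rw [hS, Matrix.sum_mulVec, dotProduct_sum, Finset.sum_eq_zero_iff_of_nonneg] at hu
    · simpa using hu 1 (Finset.mem_univ _)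
    · intro g _
      rw [← mulVec_mulVec, dotProduct_mulVec, ← mulVec_transpose]
      exact Finset.sum_nonneg fun i _ => mul_self_nonneg _
  have h2 : ∀ g ∈ G, g.1 * (S * J ι ℤ) * (g⁻¹).1 = S * J ι ℤ := fun g hg => by
    have h3 : g.1 * S * g.1ᵀ = S := by
      rw [hS, Finset.mul_sum, Finset.sum_mul]
      refine Fintype.sum_equiv (Equiv.mulLeft (⟨g, hg⟩ : G)) _ _ fun x => ?_
      simp [Matrix.mul_assoc]
    rw [SymplecticGroup.coe_inv]
    calc g.1 * (S * J ι ℤ) * (-J ι ℤ * g.1ᵀ * J ι ℤ)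
        = -(g.1 * S * (J ι ℤ * J ι ℤ) * g.1ᵀ * J ι ℤ) := by simp [Matrix.mul_assoc]
      _ = _ := by rw [J_squared]; simp [h3]
  obtain ⟨a⟩ : Nonempty (ι ⊕ ι) := inferInstance
  obtain ⟨v, hv⟩ : ∃ v : ι ⊕ ι → ℤ, v ≠ 0 := ⟨Pi.single a 1, by simp⟩
  have h3 : J ι ℤ *ᵥ v ⬝ᵥ S *ᵥ J ι ℤ *ᵥ v ≠ 0 := fun h => hv (by
    have := congrArg (J ι ℤ *ᵥ ·) (h1 _ h)
    simpa [J_squared, neg_mulVec] using this)
  have h4 : v ᵥ* J ι ℤ = -(J ι ℤ *ᵥ v) := by rw [← mulVec_transpose, J_transpose, neg_mulVec]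
  have h5 : v ⬝ᵥ J ι ℤ *ᵥ v = 0 := by
    have := dotProduct_mulVec v (J ι ℤ) v
    rw [h4, neg_dotProduct, dotProduct_comm (J ι ℤ *ᵥ v)] at this
    omega
  obtain ⟨c, hc0, H⟩ := hG v v
  obtain ⟨k, hk⟩ := AddSubgroup.mem_zmultiples_iff.1 (H (AddSubgroup.zmultiples (S * J ι ℤ))
    (fun g hg X hX => by
      obtain ⟨k, rfl⟩ := AddSubgroup.mem_zmultiples_iff.1 hX
      rw [Matrix.mul_smul, Matrix.smul_mul, h2 g hg]
      exact hX) _ (AddSubgroup.mem_zmultiples _))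
  have h6 : k = 0 := by
    have := congrArg (fun A => J ι ℤ *ᵥ v ⬝ᵥ A *ᵥ v) hk
    simp only [FP.Nv, smul_mulVec, ← mulVec_mulVec, vecMulVec_mulVec, h5, dotProduct_smul,
      smul_eq_mul, MulOpposite.op_zero, zero_smul, dotProduct_zero, smul_zero] at this
    exact (mul_eq_zero.1 this).resolve_right h3
  rw [h6, zero_smul, eq_comm, smul_eq_zero] at hk
  rcases hk with hk | hk
  · rw [← mulVec_mulVec, ← mulVec_mulVec, dotProduct_mulVec, h4, neg_dotProduct] at hk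
    exact mul_ne_zero hc0 (neg_ne_zero.2 h3) hk
  · have := congrArg (· * J ι ℤ) hk
    simp only [FP.Nv, Matrix.mul_assoc, J_squared, Matrix.zero_mul, Matrix.mul_neg, Matrix.mul_one,
      neg_eq_zero, vecMulVec_eq_zero, or_self] at this
    exact hv this

theorem e2a_content {κ : Type} (m : ℕ) (b : Matrix κ κ ℤ) (hb : b ≠ 0) :
    ∃ (q j : ℕ) (X : Matrix κ κ ℤ), q ∣ m ^ j ∧ b = (q : ℤ) • X ∧
      ∀ l : ℕ, l.Prime → l ∣ m → ∃ a b, ¬ (l : ℤ) ∣ X a b := by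
  obtain ⟨i, k, h⟩ : ∃ i k, b i k ≠ 0 := by
    by_contra h
    push Not at h
    exact hb (Matrix.ext h)
  clear hb
  induction hn : (b i k).natAbs using Nat.strong_induction_on generalizing b with
  | _ n ih =>
    by_cases hl : ∀ l : ℕ, l.Prime → l ∣ m → ∃ a c, ¬ (l : ℤ) ∣ b a c
    · exact ⟨1, 0, b, by simp, by simp, hl⟩
    push Not at hl
    obtain ⟨l, h1, h2, h3⟩ := hl
    choose c hc using h3
    have h4 : c i k ≠ 0 := fun e => h (by rw [hc, e, mul_zero])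
    obtain ⟨q, j, X, h5, h6, h7⟩ := ih (c i k).natAbs (by
      rw [← hn, hc, Int.natAbs_mul, Int.natAbs_natCast]
      exact lt_mul_of_one_lt_left (Int.natAbs_pos.2 h4) h1.one_lt) (Matrix.of c) h4 rfl
    refine ⟨l * q, j + 1, X, by rw [pow_succ']; exact Nat.mul_dvd_mul h2 h5, ?_, h7⟩
    rw [Nat.cast_mul, mul_smul, ← h6]
    exact Matrix.ext hc

theorem e2a_pow {A : Type} [Ring A] (a : ℤ) (X : A) (i : ℕ) :
    ∃ Y : A, (1 + a • X) ^ i = 1 + (a * i) • X + (a * a) • Y := by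
  induction i with
  | zero => exact ⟨0, by simp⟩
  | succ i ih =>
    obtain ⟨Y, hY⟩ := ih
    refine ⟨Y + (i : ℤ) • (X * X) + a • (Y * X), ?_⟩
    rw [pow_succ, hY]
    simp only [add_mul, mul_add, one_mul, mul_one, smul_mul_smul_comm, Nat.cast_succ]
    module

/-- Take `h = 1 + 32 m² b` from `exists_ne_one`. Let `t` be the content of `m² b` and `t = q t'`
with `q ∣ m ^ j`, `t'` prime to `m` (`Nat.exists_eq_pow_mul_and_not_dvd` prime by prime, or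
`q = gcd t (m ^ t)`); `m² ∣ q`, `h = 1 + 32 q X`, `X` is not zero modulo any prime `l ∣ m`.
If `h = 1 + a X` with `m² ∣ a` then `h ^ m = 1 + a m X'`, `X' = X` modulo `m` (induction on the
exponent: `h ^ i = 1 + a i X + a² Y`). -/
theorem exists_tower [Nonempty ι] (hG : FP.SpanOK G) {m : ℕ} (hm : m ≠ 0) :
    ∃ q j : ℕ, q ∣ m ^ j ∧ ∀ n : ℕ, ∃ g ∈ G, ∃ X : Matrix (ι ⊕ ι) (ι ⊕ ι) ℤ,
      g.1 = 1 + ((32 * (q * m ^ n) : ℕ) : ℤ) • X ∧
        ∀ l : ℕ, l.Prime → l ∣ m → ∃ a b, ¬ (l : ℤ) ∣ X a b := by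
  obtain ⟨h, hh, b, hb, e⟩ := exists_ne_one hG (M := 32 * m ^ 2) (by positivity)
  obtain ⟨q, j, X, h1, rfl, h2⟩ := e2a_content m b hb
  refine ⟨m ^ 2 * q, 2 + j, by rw [pow_add]; exact Nat.mul_dvd_mul_left _ h1, fun n => ?_⟩
  induction n with
  | zero => exact ⟨h, hh, X, by rw [e, smul_smul]; congr 2; push_cast; ring, h2⟩
  | succ n ih =>
    obtain ⟨g, hg, Y, h3, h4⟩ := ih
    obtain ⟨Z, hZ⟩ := e2a_pow (((32 * (m ^ 2 * q * m ^ n) : ℕ) : ℤ)) Y m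
    refine ⟨g ^ m, G.pow_mem hg m, Y + ((m : ℤ) * (32 * q * m ^ n)) • Z, ?_, fun l hl hlm => ?_⟩
    · rw [SubmonoidClass.coe_pow, h3, hZ, smul_add, smul_smul, add_assoc]
      congr 3 <;> push_cast <;> ring
    · obtain ⟨a, b, hab⟩ := h4 l hl hlm
      refine ⟨a, b, fun h => hab ((dvd_add_left ?_).1 h)⟩
      exact ((Int.natCast_dvd_natCast.2 hlm).mul_right _).mul_right _

end M4.CL
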