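import Pool.Agent.Lib.MP_33b3f9_ag.M4.CL.CE

/-! Squares of common eigenforms. -/

namespace M4.CL

/-- A spanning set contains as many algebraically independent elements as its span. -/
theorem exists_indep_of_span {Ω : Type*} [CommRing Ω] [IsDomain Ω] [Algebra ℂ Ω] {D : ℕ}
    {x : Fin D → Ω} (hx : AlgebraicIndependent ℂ x) {B : Set Ω}
    (hB : ∀ i, x i ∈ Submodule.span ℂ B) :
    ∃ y : Fin D → Ω, (∀ i, y i ∈ B) ∧ AlgebraicIndependent ℂ y := by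
  obtain ⟨J, hJ⟩ := (AlgebraicIndependent.matroid ℂ Ω).exists_isBasis B
  have h1 : (AlgebraicIndependent.matroid ℂ Ω).Indep (Set.range x) := hx.to_subtype_range
  have h2 : Set.range x ⊆ (AlgebraicIndependent.matroid ℂ Ω).closure B := by
    rintro _ ⟨i, rfl⟩
    rw [AlgebraicIndependent.matroid_closure_eq]
    exact isAlgebraic_algebraMap (A := Ω)
      (⟨x i, Algebra.span_le_adjoin ℂ B (hB i)⟩ : Algebra.adjoin ℂ B)
  have h3 := h1.encard_le_eRk_of_subset h2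
  rw [Matroid.eRk_closure_eq, hJ.eRk_eq_encard, ← Set.image_univ,
    hx.injective.encard_image] at h3
  obtain ⟨y, hy1, hy2⟩ := (Set.finite_univ (α := Fin D)).exists_injOn_of_encard_le h3
  have hJ1 : AlgebraicIndependent ℂ ((↑) : J → Ω) := hJ.indep
  refine ⟨y, fun i => hJ.subset (hy1 (Set.mem_univ i)), ?_⟩
  exact hJ1.comp (fun i => (⟨y i, hy1 (Set.mem_univ i)⟩ : J))
    fun i j h => hy2 (Set.mem_univ i) (Set.mem_univ j) (congrArg Subtype.val h)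

variable {G X : Type} [Group G] [MulAction G X]

/-- Splitting into common eigenvectors of finitely many commuting involutions. -/
theorem exists_eigen (V : Submodule ℂ (X → ℂ)) (Dl H : Subgroup G)
    (hV : ∀ g ∈ Dl, ∀ f ∈ V, sl g f ∈ V)
    (hn : ∀ δ ∈ Dl, ∀ η ∈ H, δ * η * δ⁻¹ ∈ H)
    (hc : ∀ δ ∈ Dl, ∀ δ' ∈ Dl, δ * δ' * δ⁻¹ * δ'⁻¹ ∈ H)
    (hs : ∀ δ ∈ Dl, ∃ η ∈ H, ∀ x : X, (δ * δ) • x = η • x)
    (T0 : Finset G) (hT : ∀ δ ∈ T0, δ ∈ Dl) {f : X → ℂ} (hf : f ∈ V) (hi : Inv H f) :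
    f ∈ Submodule.span ℂ {b | b ∈ V ∧ Inv H b ∧ ∀ δ ∈ T0, sl δ b = b ∨ sl δ b = -b} := by
  classical
  induction T0 using Finset.induction_on with
  | empty => exact Submodule.subset_span ⟨hf, hi, fun _ h => absurd h (Finset.notMem_empty _)⟩
  | insert δ T0 _ ih =>
    have hδ : δ ∈ Dl := hT δ (Finset.mem_insert_self _ _)
    have hT' : ∀ δ' ∈ T0, δ' ∈ Dl := fun δ' h => hT δ' (Finset.mem_insert_of_mem h)
    refine Submodule.span_le.2 ?_ (ih hT')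
    rintro b ⟨b1, b2, b3⟩
    have c1 := hV δ hδ b b1
    have c2 : Inv H (sl δ b) := fun η hη => by
      rw [← sl_mul, show δ * η = δ * η * δ⁻¹ * δ by group, sl_mul, b2 _ (hn δ hδ η hη)]
    have c3 : sl δ (sl δ b) = b := by
      obtain ⟨η, hη, h⟩ := hs δ hδ
      rw [← sl_mul]
      funext x
      exact (congrArg b (h x)).trans (congrFun (b2 η hη) x)
    have c4 : ∀ δ' ∈ T0, sl δ' (sl δ b) = sl δ (sl δ' b) := fun δ' h => by
      rw [← sl_mul, ← sl_mul, show δ * δ' = δ * δ' * δ⁻¹ * δ'⁻¹ * (δ' * δ) by group, sl_mul,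
        b2 _ (hc δ hδ δ' (hT' δ' h))]
    have hadd : ∀ (g : G) (u v : X → ℂ), sl g (u + v) = sl g u + sl g v := fun _ _ _ => rfl
    have hsub : ∀ (g : G) (u v : X → ℂ), sl g (u - v) = sl g u - sl g v := fun _ _ _ => rfl
    have hneg : ∀ (g : G) (u : X → ℂ), sl g (-u) = -sl g u := fun _ _ => rfl
    have e : b = (2 : ℂ)⁻¹ • ((b + sl δ b) + (b - sl δ b)) := by
      funext x
      simp only [Pi.smul_apply, Pi.add_apply, Pi.sub_apply, smul_eq_mul]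
      ring
    rw [SetLike.mem_coe, e]
    refine Submodule.smul_mem _ _ (Submodule.add_mem _ (Submodule.subset_span ⟨V.add_mem b1 c1,
      fun η hη => by rw [hadd, b2 η hη, c2 η hη], fun δ' h => ?_⟩)
      (Submodule.subset_span ⟨V.sub_mem b1 c1, fun η hη => by rw [hsub, b2 η hη, c2 η hη],
        fun δ' h => ?_⟩))
    · rcases Finset.mem_insert.1 h with rfl | h
      · left; rw [hadd, c3, add_comm]
      · refine (b3 δ' h).imp (fun h' => ?_) fun h' => ?_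
        · rw [hadd, c4 δ' h, h']
        · rw [hadd, c4 δ' h, h', hneg, neg_add]
    · rcases Finset.mem_insert.1 h with rfl | h
      · right; rw [hsub, c3, neg_sub]
      · refine (b3 δ' h).imp (fun h' => ?_) fun h' => ?_
        · rw [hsub, c4 δ' h, h']
        · rw [hsub, c4 δ' h, h', hneg, neg_sub, sub_neg_eq_add, neg_add_eq_sub]

/-- From forms invariant under `H` to forms invariant under `H` and a finite subset of `Dl`. -/
theorem Setup.eig (S : Setup G X) (Dl H : Subgroup G)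
    (hn : ∀ δ ∈ Dl, ∀ η ∈ H, δ * η * δ⁻¹ ∈ H)
    (hc : ∀ δ ∈ Dl, ∀ δ' ∈ Dl, δ * δ' * δ⁻¹ * δ'⁻¹ ∈ H)
    (hs : ∀ δ ∈ Dl, ∃ η ∈ H, ∀ x : X, (δ * δ) • x = η • x)
    {D w : ℕ} (f : Fin D → X → ℂ) (hf : ∀ i, f i ∈ S.F w) (inv : ∀ i, Inv H (f i))
    (ind : ∀ p : MvPolynomial (Fin D) ℂ, MvPolynomial.aeval f p ∈ S.I → p = 0)
    (T0 : Finset G) (hT : ∀ δ ∈ T0, δ ∈ Dl) :
    ∃ Φ : Fin D → X → ℂ, (∀ i, Φ i ∈ S.F (2 * w)) ∧ (∀ i, Inv H (Φ i)) ∧
      (∀ i, ∀ δ ∈ T0, sl δ (Φ i) = Φ i) ∧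
      ∀ p : MvPolynomial (Fin D) ℂ, MvPolynomial.aeval Φ p ∈ S.I → p = 0 := by
  let R : Subalgebra ℂ (X → ℂ) :=
    { carrier := {f | ∃ k, f ∈ S.F k}
      mul_mem' := fun ⟨k, hk⟩ ⟨l, hl⟩ => ⟨k + l, S.mul_mem hk hl⟩
      add_mem' := fun ⟨k, hk⟩ ⟨l, hl⟩ => ⟨max k l,
        (S.F _).add_mem (S.mono (le_max_left _ _) hk) (S.mono (le_max_right _ _) hl)⟩
      algebraMap_mem' := fun c => ⟨0, by
        rw [Algebra.algebraMap_eq_smul_one]
        exact (S.F 0).smul_mem c S.one_mem⟩ }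
  let q : Ideal R := S.I.comap R.val
  have hq : q.IsPrime :=
    { ne_top' := fun h => by
        have h1 : (1 : R) ∈ q := h ▸ Submodule.mem_top
        exact one_ne_zero (S.ev _ h1)
      mem_or_mem' := fun {f g} h => by
        obtain ⟨k, hk⟩ := f.2
        obtain ⟨l, hl⟩ := g.2
        exact S.prime hk hl h }
  let E : Set (X → ℂ) := {b | b ∈ S.F w ∧ Inv H b ∧ ∀ δ ∈ T0, sl δ b = b ∨ sl δ b = -b}
  have h1 : AlgebraicIndependent ℂ fun l => Ideal.Quotient.mk q (⟨f l, w, hf l⟩ : R) := by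
    refine indep_mk fun p h1 => ind p ?_
    have h2 : MvPolynomial.aeval f p = R.val (MvPolynomial.aeval (fun l => ⟨f l, w, hf l⟩) p) :=
      (MvPolynomial.comp_aeval_apply (fun l => (⟨f l, w, hf l⟩ : R)) R.val p).symm
    rw [h2]
    exact h1
  have h2 : ∀ u ∈ Submodule.span ℂ E, ∃ hu : u ∈ R, Ideal.Quotient.mk q ⟨u, hu⟩ ∈
      Submodule.span ℂ (Ideal.Quotient.mk q '' {b : R | b.1 ∈ E}) := by
    intro u hu
    induction hu using Submodule.span_induction with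
    | mem u hu => exact ⟨⟨w, hu.1⟩, Submodule.subset_span ⟨_, hu, rfl⟩⟩
    | zero => exact ⟨R.zero_mem, Submodule.zero_mem _⟩
    | add a b _ _ ha hb =>
      obtain ⟨a1, a2⟩ := ha
      obtain ⟨b1, b2⟩ := hb
      exact ⟨R.add_mem a1 b1, Submodule.add_mem _ a2 b2⟩
    | smul c a _ ha =>
      obtain ⟨a1, a2⟩ := ha
      exact ⟨R.smul_mem a1 c, Submodule.smul_mem _ c a2⟩
  obtain ⟨y, hy1, hy2⟩ := exists_indep_of_span h1 fun i =>
    (h2 _ (exists_eigen (S.F w) Dl H (fun g _ f hf => S.sl_mem g hf) hn hc hs T0 hT (hf i)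
      (inv i))).2
  choose b hb1 hb2 using hy1
  have h3 := hy2.polynomial_aeval_of_transcendental (f := fun _ => Polynomial.X ^ 2)
    fun _ => (Polynomial.transcendental_X ℂ).pow two_pos
  refine ⟨fun i => (b i).1 * (b i).1, fun i => two_mul w ▸ S.mul_mem (hb1 i).1 (hb1 i).1,
    fun i η hη => ?_, fun i δ hδ => ?_, fun p hp => ?_⟩
  · exact (map_mul (slA η) _ _).trans (congrArg₂ (· * ·) ((hb1 i).2.1 η hη) ((hb1 i).2.1 η hη))
  · refine (map_mul (slA δ) _ _).trans ?_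
    change sl δ (b i).1 * sl δ (b i).1 = _
    rcases (hb1 i).2.2 δ hδ with h | h <;> rw [h]
    exact neg_mul_neg _ _
  · refine algebraicIndependent_iff.1 h3 p ?_
    have h4 : (fun i => Polynomial.aeval (y i) (Polynomial.X ^ 2 : Polynomial ℂ)) =
        fun i => Ideal.Quotient.mkₐ ℂ q (b i * b i) := by
      funext i
      rw [map_pow, Polynomial.aeval_X, ← hb2 i, map_mul, sq]
      rfl
    have h5 : MvPolynomial.aeval (fun i => (b i).1 * (b i).1) p =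
        R.val (MvPolynomial.aeval (fun i => b i * b i) p) :=
      (MvPolynomial.comp_aeval_apply (fun i => b i * b i) R.val p).symm
    rw [h5] at hp
    rw [h4, ← MvPolynomial.comp_aeval_apply (B := R ⧸ q)]
    exact Ideal.Quotient.eq_zero_iff_mem.2 hp

/-- The count from forms invariant under `H` only. -/
theorem Setup.count_inv (S : Setup G X) {n0 : ℕ} (hq : S.Lv n0 ≤ S.Del) (T : Finset G)
    (H : Subgroup G)
    (hH : ∀ g ∈ T, ∀ γ ∈ S.Γ, g⁻¹ * γ * g ∈ S.Del → g⁻¹ * γ * g ∈ H)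
    (hn : ∀ δ ∈ S.Del, ∀ η ∈ H, δ * η * δ⁻¹ ∈ H)
    (hc : ∀ δ ∈ S.Del, ∀ δ' ∈ S.Del, δ * δ' * δ⁻¹ * δ'⁻¹ ∈ H)
    (hs : ∀ δ ∈ S.Del, ∃ η ∈ H, ∀ x : X, (δ * δ) • x = η • x)
    {D w : ℕ} (f : Fin D → X → ℂ) (hf : ∀ i, f i ∈ S.F w) (inv : ∀ i, Inv H (f i))
    (ind : ∀ p : MvPolynomial (Fin D) ℂ, MvPolynomial.aeval f p ∈ S.I → p = 0)
    (sep : ∀ g ∈ T, ∀ g' ∈ T, g ≠ g' →
      ∃ k, ∃ f ∈ S.F k, Inv S.Γ f ∧ f (g • S.a) ≠ f (g' • S.a))
    {g0 : G} (hP : ∀ g ∈ T, ∀ k, ∀ c ∈ S.A k, sl g0 c ∈ S.I → sl g c ∈ S.I)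
    {del s c : ℕ}
    (fin : ∀ k, Module.Finite ℂ
      ((S.A k).map ((S.I.restrictScalars ℂ).mkQ ∘ₗ (slA g0).toLinearMap)))
    (hb : ∀ k, Module.finrank ℂ
      ((S.A k).map ((S.I.restrictScalars ℂ).mkQ ∘ₗ (slA g0).toLinearMap)) ≤
      del * (s * k + c + D).choose D) :
    T.card ≤ S.N0 * del * (s * (2 * w)) ^ D :=
  S.count_all hq T H hH (fun T0 hT => S.eig S.Del H hn hc hs f hf inv ind T0 hT) sep hP fin hb

end M4.CL
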