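import Pool.Agent.Lib.MP_33b3f9_ag.M4.IDefs
import Pool.Agent.Lib.MP_33b3f9_ag.M4.CL.Del
import Pool.Agent.Lib.MP_33b3f9_ag.M4.CL.ZF

/-! The frame of the counting lemma in genus four. -/

namespace M4.CL

open Matrix Filter Topology MvPolynomial

variable (y : Matrix (Fin 11) Bits ℂ)

/-- The invariants of level `32` are generated by the forms `gg i` over the polynomials in the
`11` linear forms. -/
def Gen {N0 : ℕ} (kk : Fin N0 → ℕ) (gg : Fin N0 → HH (Fin 4) → ℂ) : Prop :=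
  ∀ k, ∀ f ∈ MI {γ | Lv 32 γ} k, ∃ c : Fin N0 → MvPolynomial (Fin 11) ℂ,
    (∀ i, c i = 0 ∨ (kk i ≤ k ∧ (c i).IsHomogeneous (8 * (k - kk i)))) ∧
      ∀ τ : HH (Fin 4), f τ = ∑ i, eval (lin y τ.1) (c i) * gg i τ

/-- B5: finite generation. -/
def FINst : Prop := ∃ (N0 : ℕ) (kk : Fin N0 → ℕ) (gg : Fin N0 → HH (Fin 4) → ℂ), Gen y kk gg

/-- B6: monodromy. -/
def MONOst (a : Sy) : Prop :=
  ∀ (g : MZ) (M : ℕ), Iso g M → ∀ (d : ℕ) (v : (Fin d → ℂ) → Sy)
    (P : Ideal (MvPolynomial (Fin 11) ℂ)), 1 ≤ d → AnalyticAt ℂ v 0 → v 0 = a →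
    Function.Injective (fderiv ℂ v 0) → P.IsPrime → Z.Hom P → Z.dm ℂ P = d + 1 →
    Z.Cuts a (Thy y g) (Filter.map v (𝓝 0)) P →
    ∃ G : Subgroup (symplecticGroup (Fin 4) ℤ), FP.SpanOK G ∧
      ∀ γ ∈ G, ∀ F : (Fin 4 → Fin 4 → ℂ) → ℂ, DifferentiableOn ℂ F (PosIm (Fin 4)) →
        (∀ᶠ s in 𝓝 0, F (act (M4.zr g) (mat (v s))) = 0) →
        ∀ᶠ s in 𝓝 0, F (FP.az γ (act (M4.zr g) (mat (v s)))) = 0

/-- A polynomial in the `11` linear forms as a function on the Siegel space. -/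
noncomputable def evY : MvPolynomial (Fin 11) ℂ →ₐ[ℂ] (HH (Fin 4) → ℂ) :=
  aeval fun i τ => lin y τ.1 i

/-- Forms of degree `8 i` in the `11` linear forms. -/
noncomputable def PY (i : ℕ) : Submodule ℂ (HH (Fin 4) → ℂ) :=
  (homogeneousSubmodule (Fin 11) ℂ (8 * i)).map (evY y).toLinearMap

theorem evY_apply (φ : MvPolynomial (Fin 11) ℂ) (τ : HH (Fin 4)) :
    evY y φ τ = eval (lin y τ.1) φ := by
  induction φ using MvPolynomial.induction_on with
  | C a => simp [evY]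
  | add p q hp hq => rw [map_add, map_add, Pi.add_apply, hp, hq]
  | mul_X p i hp => rw [map_mul, map_mul, Pi.mul_apply, hp, eval_X, evY, aeval_X]

/-- Each linear form is a combination of the `t2 e`; `homogeneousSubmodule_one_pow` or a sum over
monomials with `MF.mul`, `MF.pow`. -/
theorem evY_mem {n : ℕ} {φ : MvPolynomial (Fin 11) ℂ} (h : φ.IsHomogeneous n) :
    evY y φ ∈ MF (Fin 4) n := by
  have h1 : (homogeneousSubmodule (Fin 11) ℂ 1).map (evY y).toLinearMap ≤ MF (Fin 4) 1 := by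
    rw [homogeneousSubmodule_one_eq_span_X, Submodule.map_span, Submodule.span_le]
    rintro _ ⟨_, ⟨i, rfl⟩, rfl⟩
    have e : evY y (X i) = ∑ ε, y i ε • t2 ε := by
      funext τ
      rw [evY_apply, eval_X, Finset.sum_apply]
      rfl
    change evY y (X i) ∈ MF (Fin 4) 1
    rw [e]
    exact Submodule.sum_mem _ fun ε _ => Submodule.smul_mem _ _ (t2_mem ε)
  have h2 : evY y φ ∈ (homogeneousSubmodule (Fin 11) ℂ 1 ^ n).map (evY y).toLinearMap :=
    ⟨φ, by rw [homogeneousSubmodule_one_pow]; exact h, rfl⟩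
  rw [Submodule.map_pow] at h2
  rw [MF, pow_one] at h1
  exact pow_le_pow_left' h1 n h2

theorem fam_smul {σ : Type} {n : ℕ} {φ : MvPolynomial σ ℂ} (h : φ.IsHomogeneous n) (c : ℂ)
    (x : σ → ℂ) : eval (c • x) φ = c ^ n * eval x φ := by
  rw [eval_eq, eval_eq, Finset.mul_sum]
  refine Finset.sum_congr rfl fun d hd => ?_
  have hd' : d.degree = n := by
    by_contra hne
    exact mem_support_iff.1 hd (h.coeff_eq_zero hne)
  simp only [Pi.smul_apply, smul_eq_mul, mul_pow, Finset.prod_mul_distrib,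
    Finset.prod_pow_eq_pow_sum]
  rw [← hd', Finsupp.degree_apply]
  ring

/-- `null_law`; a form of degree `n` satisfies `eval (c • x) φ = c ^ n * eval x φ`. -/
theorem slash_evY {γ b : MZ} (hγ : γ ∈ symplecticGroup (Fin 4) ℤ) (h : γ = 1 + (8 : ℤ) • b) {i : ℕ}
    {φ : MvPolynomial (Fin 11) ℂ} (hφ : φ.IsHomogeneous (8 * i)) :
    slash i (zr γ) (evY y φ) = evY y φ := by
  funext τ
  obtain ⟨c, hc, h2⟩ := null_law hγ h τ
  have h3 : lin y (aH (zr γ) τ).1 = c • lin y τ.1 := by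
    have h4 : th2 (aH (zr γ) τ).1 = c • th2 τ.1 := funext h2
    rw [lin, lin, h4, mulVec_smul]
  rw [slash_apply, evY_apply, evY_apply, h3, fam_smul hφ, pow_mul, hc,
    mul_div_cancel_left₀ _ (pow_ne_zero _ (wt_ne_zero ((sim_zr_iff γ).2 hγ) one_pos τ))]

variable {m : ℕ}

theorem fam_sl (x : GS (Fin 4) m) (n : ℕ) (f : ℕ → HH (Fin 4) → ℂ) :
    sl x (∑ i ∈ Finset.range n, lift i (f i)) =
      ∑ i ∈ Finset.range n, lift i (slash i (mx x) (f i)) := by
  funext z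
  rw [sl, Finset.sum_apply, Finset.sum_apply, smul_def]
  exact Finset.sum_congr rfl fun i _ => lift_cact i _ _ z

theorem fam_eight (b : MZ) : 1 + ((32 : ℕ) : ℤ) • b = 1 + (8 : ℤ) • (4 : ℤ) • b := by
  rw [smul_smul]
  rfl

theorem PY_inv {k : ℕ} {F : Cn (Fin 4) → ℂ} (hF : F ∈ fil (PY y) k) :
    Inv (LvG (Fin 4) m 32) F := by
  obtain ⟨f, hf, rfl⟩ := mem_fil.1 hF
  rintro x ⟨h1, b, h2⟩
  rw [fam_sl]
  refine Finset.sum_congr rfl fun i _ => ?_
  obtain ⟨φ, hφ, e⟩ := hf i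
  rw [h2] at h1 ⊢
  rw [← e]
  exact congrArg (lift i) (slash_evY y ((sim_zr_iff _).1 h1) (fam_eight b) hφ)

/-- `mem_fil`; the components are invariant by `lift_cact`, `lift_inj`, `exists_mx` with `M = 1`;
`c i = ∑ j, lift (j - kk i) (evY (c j i))`, `lift_mul`. -/
theorem Gen.fg {N0 : ℕ} {kk : Fin N0 → ℕ} {gg : Fin N0 → HH (Fin 4) → ℂ} (h : Gen y kk gg) {k : ℕ}
    {F : Cn (Fin 4) → ℂ} (hF : F ∈ FF (Fin 4) k) (hi : Inv (LvG (Fin 4) m 32) F) :
    ∃ c : Fin N0 → Cn (Fin 4) → ℂ, (∀ i, c i ∈ fil (PY y) k) ∧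
      F = ∑ i, c i * lift (kk i) (gg i) := by
  obtain ⟨f, hf, rfl⟩ := mem_fil.1 hF
  have hm : ∀ j < k + 1, f j ∈ MI {γ | Lv 32 γ} j := fun j hj => by
    refine ⟨hf j, fun γ h1 h2 => ?_⟩
    choose b hb using h1
    have e : γ = 1 + ((32 : ℕ) : ℤ) • Matrix.of b := by
      rw [← sub_eq_iff_eq_add']
      ext i j
      exact hb i j
    have h3 := (sim_zr_iff γ).2 h2
    obtain ⟨x, hx⟩ := exists_mx (m := m) one_pos (one_dvd m) (by rwa [Nat.cast_one])
      (e.trans (fam_eight _))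
    have h4 := hi x ⟨by rwa [hx], Matrix.of b, by rw [hx, ← e]⟩
    rw [fam_sl, hx] at h4
    exact lift_inj h4 hj
  choose! c hc1 hc2 using fun j (hj : j < k + 1) => h j (f j) (hm j hj)
  refine ⟨fun i => ∑ j ∈ Finset.range (k + 1), lift (j - kk i) (evY y (c j i)), fun i => ?_, ?_⟩
  · refine Submodule.sum_mem _ fun j hj => ?_
    rw [Finset.mem_range] at hj
    rcases hc1 j hj i with h0 | ⟨-, h1⟩
    · rw [h0, map_zero, map_zero]
      exact Submodule.zero_mem _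
    · exact lift_mem_fil (by omega) ⟨c j i, h1, rfl⟩
  · simp only [Finset.sum_mul]
    rw [Finset.sum_comm]
    refine Finset.sum_congr rfl fun j hj => ?_
    rw [Finset.mem_range] at hj
    have e : f j = ∑ i, evY y (c j i) * gg i := by
      funext τ
      rw [hc2 j hj, Finset.sum_apply]
      exact Finset.sum_congr rfl fun i _ => by rw [Pi.mul_apply, evY_apply]
    rw [e, map_sum]
    refine Finset.sum_congr rfl fun i _ => ?_
    rcases hc1 j hj i with h0 | ⟨h1, -⟩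
    · rw [h0, map_zero, map_zero, zero_mul, zero_mul, map_zero]
    · rw [lift_mul, Nat.sub_add_cancel h1]

variable {E : Type} [NormedAddCommGroup E] [NormedSpace ℂ E]

theorem exists_setup {N0 : ℕ} {kk : Fin N0 → ℕ} {gg : Fin N0 → HH (Fin 4) → ℂ} (h : Gen y kk gg)
    (hm : m ≠ 0) (V : Germ (Fin 4) E) : ∃ S : Setup (GS (Fin 4) m) (Cn (Fin 4)),
      Con S V ∧ S.A = fil (PY y) ∧ S.N0 = N0 := by
  have hmul : ∀ i j, ∀ f ∈ PY y i, ∀ g ∈ PY y j, f * g ∈ PY y (i + j) := by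
    rintro i j _ ⟨φ, hφ, rfl⟩ _ ⟨ψ, hψ, rfl⟩
    exact ⟨φ * ψ, by rw [mul_add]; exact IsHomogeneous.mul hφ hψ, map_mul (evY y) φ ψ⟩
  refine ⟨{
    F := FF (Fin 4)
    mono := fil_mono _
    one_mem := fil_one MF.one
    mul_mem := fil_mul fun i j f hf g hg => by rw [mul_add]; exact MF.mul hf hg
    sl_mem := fun g hf => by
      obtain ⟨μ, h1, h2⟩ := mx_sim g
      exact FF_cact h2 h1 ((mx_cong g).isQ hm) hf
    I := V.I
    prime := V.prime
    a := V.c (1, 0)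
    ev := fun f hf => (V.mem_I.1 hf).self_of_nhds
    Γ := LvG (Fin 4) m 32
    Lv := fun n => LvG (Fin 4) m (32 * m ^ n)
    anti := fun n n' hn => LvG_anti (mul_dvd_mul_left _ (pow_dvd_pow _ hn))
    le := fun n => LvG_anti (dvd_mul_right _ _)
    normal := fun n γ hγ h hh => LvG_normal hγ hh
    fin := fun n => LvG_fin (by positivity) _
    conj := LvG_conj hm
    A := fil (PY y)
    A_mono := fil_mono _
    A_one := fil_one ⟨1, isHomogeneous_one _ _, map_one (evY y)⟩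
    A_mul := fil_mul hmul
    A_le := fil_le (by rintro i _ ⟨φ, hφ, rfl⟩; exact evY_mem y hφ)
    A_inv := PY_inv y
    N0 := N0
    gen := fun i => lift (kk i) (gg i)
    fg := h.fg }, ⟨rfl, rfl, rfl, rfl, fun _ => rfl⟩, rfl, rfl⟩

end M4.CL
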