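import Pool.Agent.Lib.MP_33b3f9_ag.M4.CL.Fam

/-! The Hilbert function of the polynomial subring, separation of points. -/

namespace M4.CL

open Matrix Filter Topology MvPolynomial

/-- `Nat.sum_range_add_choose` or induction on `k`. -/
theorem sum_choose_le (k c d : ℕ) :
    ∑ i ∈ Finset.range (k + 1), (8 * i + c + d).choose d ≤ (8 * k + c + (d + 1)).choose (d + 1) := by
  induction k with
  | zero =>
    rw [Finset.sum_range_one, ← add_assoc, Nat.choose_succ_succ']
    omega
  | succ k ih =>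
    rw [Finset.sum_range_succ, ← add_assoc (8 * (k + 1) + c), Nat.choose_succ_succ']
    have := Nat.choose_le_choose (d + 1) (show 8 * k + c + (d + 1) ≤ 8 * (k + 1) + c + d by omega)
    omega

/-- The map factors through the image in the quotient (compare kernels,
`LinearMap.finrank_range_add_finrank_ker` for the restrictions to the forms of degree `μ`). -/
theorem finrank_map_le {σ Q : Type} [Finite σ] [AddCommGroup Q] [Module ℂ Q]
    (P : Ideal (MvPolynomial σ ℂ)) (μ : ℕ) (L : MvPolynomial σ ℂ →ₗ[ℂ] Q)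
    (h : ∀ φ ∈ P, φ.IsHomogeneous μ → L φ = 0) :
    Module.finrank ℂ ((homogeneousSubmodule σ ℂ μ).map L) ≤ Z.HF P μ := by
  have : Module.Finite ℂ (homogeneousSubmodule σ ℂ μ) :=
    Module.Finite.iff_fg.2 (homogeneousSubmodule_fg σ ℂ μ)
  have h1 := LinearMap.finrank_range_add_finrank_ker
    ((Ideal.Quotient.mkₐ ℂ P).toLinearMap.domRestrict (homogeneousSubmodule σ ℂ μ))
  have h2 := LinearMap.finrank_range_add_finrank_ker (L.domRestrict (homogeneousSubmodule σ ℂ μ))
  have h3 : LinearMap.ker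
      ((Ideal.Quotient.mkₐ ℂ P).toLinearMap.domRestrict (homogeneousSubmodule σ ℂ μ)) ≤
      LinearMap.ker (L.domRestrict (homogeneousSubmodule σ ℂ μ)) :=
    fun x hx => h x.1 (Ideal.Quotient.eq_zero_iff_mem.1 hx) x.2
  have h4 := Submodule.finrank_mono h3
  rw [LinearMap.range_domRestrict] at h1 h2
  rw [Z.HF]
  omega

/-- `Submodule.map_iSup`, `Submodule.finrank_add_le_finrank_add_finrank` by induction on `k`. -/
theorem finrank_fil (y : Matrix (Fin 11) Bits ℂ) {Q : Type} [AddCommGroup Q] [Module ℂ Q]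
    (L : (Cn (Fin 4) → ℂ) →ₗ[ℂ] Q) (P : Ideal (MvPolynomial (Fin 11) ℂ))
    (h : ∀ i, ∀ φ ∈ P, φ.IsHomogeneous (8 * i) → L (lift i (evY y φ)) = 0) {del c d : ℕ}
    (hb : ∀ μ, Z.HF P μ ≤ del * (μ + c + d).choose d) (k : ℕ) :
    Module.Finite ℂ ((fil (PY y) k).map L) ∧
      Module.finrank ℂ ((fil (PY y) k).map L) ≤ del * (8 * k + c + (d + 1)).choose (d + 1) := by
  have h1 : ∀ i, ((PY y i).map (lift i)).map L = (homogeneousSubmodule (Fin 11) ℂ (8 * i)).map
      (L ∘ₗ lift i ∘ₗ (evY y).toLinearMap) := fun i => by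
    rw [Submodule.map_comp, Submodule.map_comp, PY]
  have h2 : ∀ n, Module.Finite ℂ ((⨆ i ∈ Finset.range n, (PY y i).map (lift i)).map L) ∧
      Module.finrank ℂ ((⨆ i ∈ Finset.range n, (PY y i).map (lift i)).map L) ≤
        del * ∑ i ∈ Finset.range n, (8 * i + c + d).choose d := by
    intro n
    induction n with
    | zero =>
      have e : (⨆ i ∈ Finset.range 0, (PY y i).map (lift i)).map L = ⊥ := by simp
      rw [e]
      exact ⟨inferInstance, by simp⟩
    | succ n ih =>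
      have := ih.1
      have : Module.Finite ℂ (homogeneousSubmodule (Fin 11) ℂ (8 * n)) :=
        Module.Finite.iff_fg.2 (homogeneousSubmodule_fg _ ℂ _)
      rw [Finset.sum_range_succ, Finset.range_add_one, Finset.iSup_insert, Submodule.map_sup, h1]
      refine ⟨inferInstance, (Submodule.finrank_add_le_finrank_add_finrank _ _).trans ?_⟩
      rw [mul_add, add_comm]
      exact add_le_add ih.2 ((finrank_map_le P _ _ (h n)).trans (hb _))
  exact ⟨(h2 (k + 1)).1, (h2 (k + 1)).2.trans (Nat.mul_le_mul_left _ (sum_choose_le k c d))⟩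

/-- The eighth power of a linear form. -/
theorem exists_sep {u u' : Fin 11 → ℂ} (h : ∀ t : ℂ, u' ≠ t • u) :
    ∃ φ : MvPolynomial (Fin 11) ℂ, φ.IsHomogeneous (8 * 1) ∧ eval u φ = 0 ∧ eval u' φ ≠ 0 := by
  obtain ⟨f, h1, h2⟩ := Submodule.exists_le_ker_of_notMem (p := Submodule.span ℂ {u}) (v := u')
    fun hm => by
      obtain ⟨t, ht⟩ := Submodule.mem_span_singleton.1 hm
      exact h t ht.symm
  have h3 : ∀ v : Fin 11 → ℂ,
      eval v (∑ i, C (f fun j => if i = j then 1 else 0) * X i : MvPolynomial (Fin 11) ℂ) = f v := by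
    intro v
    rw [LinearMap.pi_apply_eq_sum_univ f v, map_sum]
    exact Finset.sum_congr rfl fun i _ => by rw [map_mul, eval_C, eval_X, smul_eq_mul, mul_comm]
  refine ⟨(∑ i, C (f fun j => if i = j then 1 else 0) * X i) ^ 8, ?_, ?_, ?_⟩
  · exact (IsHomogeneous.sum _ _ 1 fun i _ => isHomogeneous_C_mul_X _ i).pow 8
  · rw [map_pow, h3, h2 (Submodule.mem_span_singleton_self u)]
    norm_num
  · rw [map_pow, h3]
    exact pow_ne_zero 8 h1

/-- `MvPolynomial.trdeg_of_isDomain` shows `P ≠ ⊥`; the eighth power of a homogeneous component. -/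
theorem exists_form {P : Ideal (MvPolynomial (Fin 11) ℂ)} (hP : Z.Hom P) (hd : Z.dm ℂ P < 11) :
    ∃ (k : ℕ) (φ : MvPolynomial (Fin 11) ℂ), φ ∈ P ∧ φ ≠ 0 ∧ φ.IsHomogeneous (8 * k) := by
  have h0 : P ≠ ⊥ := by
    rintro rfl
    rw [Z.dm, (AlgEquiv.quotientBot ℂ (MvPolynomial (Fin 11) ℂ)).trdeg_eq,
      MvPolynomial.trdeg_of_isDomain] at hd
    simp at hd
  obtain ⟨g, hg, hg0⟩ := Submodule.exists_mem_ne_zero_of_ne_bot h0
  obtain ⟨k, -, hk⟩ := Finset.exists_ne_zero_of_sum_ne_zero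
    ((sum_homogeneousComponent g).trans_ne hg0)
  exact ⟨k, homogeneousComponent k g ^ 8, P.pow_mem_of_mem (hP g hg k) 8 (by norm_num),
    pow_ne_zero 8 hk, mul_comm k 8 ▸ (homogeneousComponent_isHomogeneous k g).pow 8⟩

end M4.CL
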