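import Pool.Agent.Lib.MP_33b3f9_ag.M4.CL.Hb
import Pool.Agent.Lib.MP_33b3f9_ag.M4.CL.Bd
import Pool.Agent.Lib.MP_33b3f9_ag.M4.CL.Eig

/-! The counting lemma. -/

namespace M4.CL

open Matrix Filter Topology MvPolynomial

theorem iso_odd {g : MZ} {M : ℕ} (h : Iso g M) : Odd M := by
  rw [← Nat.not_even_iff_odd, even_iff_two_dvd]
  intro h2
  have := h.1.2 2 Nat.prime_two h2
  revert this
  decide

theorem iso_lev {g : MZ} {M : ℕ} (h : Iso g M) : ∃ b : MZ, g = 1 + (8 : ℤ) • b := by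
  choose b hb using h.2.1
  refine ⟨(4 : ℤ) • Matrix.of b, ?_⟩
  ext i j
  have := hb i j
  simp only [Matrix.sub_apply, Matrix.add_apply, Matrix.smul_apply, Matrix.of_apply,
    smul_eq_mul] at this ⊢
  omega

/-- The coordinates as a continuous linear map. -/
noncomputable def matL : Sy →L[ℂ] (Fin 4 → Fin 4 → ℂ) :=
  ContinuousLinearMap.pi fun i => ContinuousLinearMap.pi fun j => ContinuousLinearMap.proj s(i, j)

theorem matL_injective : Function.Injective matL := fun t t' h => by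
  funext z
  induction z using Sym2.ind with
  | h i j => exact congrFun (congrFun h i) j

/-- The germ of an analytic map to the coordinate space. -/
def germ {d : ℕ} (v : (Fin d → ℂ) → Sy) (hv : AnalyticAt ℂ v 0) (ha : InH (mat (v 0))) :
    Germ (Fin 4) (Fin d → ℂ) where
  w s := mat (v s)
  an := (matL.analyticAt _).comp hv
  sy s := by
    ext i j
    simp [mat, Sym2.eq_swap]
  inH := ha

theorem germ_inj {d : ℕ} {v : (Fin d → ℂ) → Sy} (hv : AnalyticAt ℂ v 0) (ha : InH (mat (v 0)))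
    (hi : Function.Injective (fderiv ℂ v 0)) : Function.Injective
      (fderiv ℂ (fun (s : Fin d → ℂ) (i j : Fin 4) => (germ v hv ha).w s i j) 0) := by
  have : fderiv ℂ (fun (s : Fin d → ℂ) (i j : Fin 4) => (germ v hv ha).w s i j) 0 =
      matL.comp (fderiv ℂ v 0) := (matL.hasFDerivAt.comp 0 hv.differentiableAt.hasFDerivAt).fderiv
  rw [this]
  exact matL_injective.comp hi

theorem sl_lift {ι : Type} [Fintype ι] [DecidableEq ι] {m : ℕ} (g : GS ι m) (k : ℕ)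
    (f : HH ι → ℂ) : sl g (lift k f) = lift k (slash k (mx g) f) :=
  funext fun x => lift_cact k (mx g) f x

theorem slash_eq_zero {ι : Type} [Fintype ι] [DecidableEq ι] {m : ℕ} (g : GS ι m) (k : ℕ)
    (f : HH ι → ℂ) (τ : HH ι) : slash k (mx g) f τ = 0 ↔ f (aH (mx g) τ) = 0 := by
  obtain ⟨μ, h1, h2⟩ := mx_sim g
  rw [slash_apply, div_eq_zero_iff, or_iff_left (pow_ne_zero _ (wt_ne_zero h2 h1 τ))]

theorem cl (y : Matrix (Fin 11) Bits ℂ) (a : Sy) (ha : InH (mat a)) (hy : FinProj y)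
    (hF : FINst y) (hM : MONOst y a) : CLst y a := by
  classical
  obtain ⟨N0, kk, gg, hG⟩ := hF
  refine ⟨N0 * 128 ^ 10, fun α X g M hI hS d v P del c hd1 hd hv hv0 hinj hP hH hdm hb hC => ?_⟩
  rcases X.eq_empty_or_nonempty with rfl | ⟨ξ0, hξ0⟩
  · simp
  subst hv0
  obtain ⟨m, hm, hmd⟩ : ∃ m : ℕ, Odd m ∧ ∀ ξ ∈ X, M ξ ∣ m :=
    ⟨∏ ξ ∈ X, M ξ, Finset.prod_induction _ Odd (fun _ _ => Odd.mul) odd_one
      fun ξ h => iso_odd (hI ξ h), fun ξ h => Finset.dvd_prod_of_mem _ h⟩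
  have hx : ∀ ξ, ∃ x : GS (Fin 4) m, ξ ∈ X → mx x = zr (g ξ) := fun ξ => by
    by_cases h : ξ ∈ X
    · obtain ⟨b, hb⟩ := iso_lev (hI ξ h)
      obtain ⟨x, hx⟩ := exists_mx (iso_odd (hI ξ h)).pos (hmd ξ h) (hI ξ h).2.2 hb
      exact ⟨x, fun _ => hx⟩
    · exact ⟨1, fun h' => absurd h' h⟩
  choose x hx using hx
  obtain ⟨V, hV⟩ : ∃ V, V = germ v hv ha := ⟨_, rfl⟩
  have hw : ∀ s, V.w s = mat (v s) := fun s => by rw [hV]; rfl
  obtain ⟨S, hC', hA, hN⟩ := exists_setup y hG hm.pos.ne' V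
  have val : ∀ ξ ∈ X, ∀ (φ : MvPolynomial (Fin 11) ℂ) (τ : HH (Fin 4)) (z : Sy), τ.1 = mat z →
      evY y φ (aH (mx (x ξ)) τ) = eval (Thy y (g ξ) z) φ := fun ξ h φ τ z hz => by
    obtain ⟨μ, h1, h2⟩ := mx_sim (x ξ)
    rw [evY_apply, aH_val h2 h1, hx ξ h, hz]
    rfl
  have key : ∀ ξ ∈ X, ∀ (μ : ℕ) (φ : MvPolynomial (Fin 11) ℂ), φ.IsHomogeneous μ →
      ((∀ᶠ s in 𝓝 0, evY y φ (aH (mx (x ξ)) (V.p s)) = 0) ↔ φ ∈ P) := fun ξ h μ φ hφ => by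
    rw [(hC ξ h).1 μ φ hφ, eventually_map]
    refine eventually_congr (V.p_val.mono fun s hs => ?_)
    rw [val ξ h φ _ (v s) (hs.trans (hw s))]
  have key' : ∀ ξ ∈ X, ∀ (i : ℕ) (φ : MvPolynomial (Fin 11) ℂ), φ.IsHomogeneous (8 * i) →
      (sl (x ξ) (lift i (evY y φ)) ∈ S.I ↔ φ ∈ P) := fun ξ h i φ hφ => by
    rw [hC'.I, sl_lift, V.lift_mem_I, ← key ξ h _ φ hφ]
    simp only [slash_eq_zero]
  have hpt : ∀ ξ ∈ X, ∀ φ : MvPolynomial (Fin 11) ℂ,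
      (lift 1 (evY y φ) (x ξ • S.a) = 0 ↔ eval (Thy y (g ξ) (v 0)) φ = 0) := fun ξ h φ => by
    have e : lift 1 (evY y φ) (x ξ • S.a) = sl (x ξ) (lift 1 (evY y φ)) S.a := rfl
    rw [e, sl_lift, hC'.a, lift_apply, ← val ξ h φ V.a (v 0) (hw 0), ← slash_eq_zero _ 1]
    simp [Germ.c, V.p_zero]
  obtain ⟨G, hG1, hG2⟩ := hM (g ξ0) (M ξ0) (hI ξ0 hξ0) d v P hd1 hv rfl hinj hP hH hdm (hC ξ0 hξ0)
  obtain ⟨n0, hq⟩ := hC'.le_del hm (x ξ0) hG1 (by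
    simp only [hw, hx ξ0 hξ0]
    exact hG2)
  have hAF : ∀ (k : ℕ) (φ : MvPolynomial (Fin 11) ℂ), φ.IsHomogeneous (8 * k) →
      lift k (evY y φ) ∈ S.A k := fun k φ hφ => by
    rw [hA]
    exact lift_mem_fil le_rfl ⟨φ, hφ, rfl⟩
  obtain ⟨k, φ, hφP, hφ0, hφ⟩ := exists_form hH (by omega)
  obtain ⟨μ0, hμ0, hs0⟩ := mx_sim (x ξ0)
  obtain ⟨j, hj⟩ := hC'.bounded hm hq (k := k) (f := slash k (mx (x ξ0)) (evY y φ))
    (x_slash_mem hs0 hμ0 ((mx_cong _).isQ hm.pos.ne') (evY_mem y hφ))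
    (fun h0 => hφ0 (hy.2 _ φ hφ fun τ hτ => by
      obtain ⟨μ1, hμ1, hs1⟩ := mx_sim (x ξ0)⁻¹
      have := (slash_eq_zero (x ξ0) k _ (aH (mx (x ξ0)⁻¹) ⟨τ, hτ⟩)).1 (congrFun h0 _)
      have e := congrArg Cn.t (smul_inv_smul (x ξ0) (⟨1, ⟨τ, hτ⟩⟩ : Cn (Fin 4)))
      have e' : aH (mx (x ξ0)) (aH (mx (x ξ0)⁻¹) ⟨τ, hτ⟩) = ⟨τ, hτ⟩ := e
      rwa [e', evY_apply] at this))
    (by
      rw [← sl_lift]
      exact Setup.MS.sl ⟨S.A_le k (hAF k φ hφ), 0,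
        fun h hh => S.A_inv (hAF k φ hφ) h (S.le 0 hh)⟩ _)
    (by
      rw [← sl_lift]
      exact (key' ξ0 hξ0 k φ hφ).2 hφP)
  obtain ⟨Φ, hΦ1, hΦ2, hΦ3⟩ := hC'.forms hm (hV ▸ germ_inj hv ha hinj) hj (D := d + 1) (by simp)
  have hfil := fun k => finrank_fil y ((S.I.restrictScalars ℂ).mkQ ∘ₗ (slA (x ξ0)).toLinearMap) P
    (fun i φ h1 h2 => (Submodule.Quotient.mk_eq_zero _).2 ((key' ξ0 hξ0 i φ h2).2 h1)) hb k
  have hsep : ∀ ξ ∈ X, ∀ ξ' ∈ X, ξ ≠ ξ' → ∃ φ : MvPolynomial (Fin 11) ℂ, φ.IsHomogeneous (8 * 1) ∧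
      lift 1 (evY y φ) (x ξ • S.a) ≠ lift 1 (evY y φ) (x ξ' • S.a) := fun ξ h ξ' h' hne => by
    obtain ⟨φ, h1, h2, h3⟩ := exists_sep fun t e => hne (hS ξ h ξ' h' t e)
    refine ⟨φ, h1, ?_⟩
    rw [(hpt ξ h φ).2 h2]
    exact fun e => h3 ((hpt ξ' h' φ).1 e.symm)
  have hcard : (X.image x).card = X.card := Finset.card_image_of_injOn fun ξ h ξ' h' e => by
    by_contra hne
    obtain ⟨φ, -, h2⟩ := hsep ξ h ξ' h' hne
    exact h2 (by rw [e])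
  have main := S.count_inv hq (X.image x) (S.Del ⊓ SpG (Fin 4) m)
    (fun g _ γ hγ h => ⟨h, by
      rw [hC'.Γ] at hγ
      simpa using (inferInstance : (SpG (Fin 4) m).Normal).conj_mem γ (LvG_le_SpG _ hγ) g⁻¹⟩)
    (fun δ hδ η hη => ⟨S.Del.mul_mem (S.Del.mul_mem hδ hη.1) (S.Del.inv_mem hδ),
      (inferInstance : (SpG (Fin 4) m).Normal).conj_mem η hη.2 δ⟩)
    (fun δ hδ δ' hδ' => ⟨S.Del.mul_mem (S.Del.mul_mem (S.Del.mul_mem hδ hδ') (S.Del.inv_mem hδ))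
      (S.Del.inv_mem hδ'), commutator_mem δ δ'⟩)
    (fun δ hδ => by
      obtain ⟨z, hz1, hz2⟩ := exists_scalar δ
      have hz : z ∈ S.Del := fun k f _ => by
        rw [show sl z f = f from funext fun p => congrArg f (hz1 p)]
      exact ⟨δ * δ * z, ⟨S.Del.mul_mem (S.Del.mul_mem hδ hδ) hz, hz2⟩, fun p => by
        rw [mul_smul (δ * δ), hz1]⟩)
    Φ hΦ1 hΦ2 hΦ3
    (fun g1 h1 g2 h2 hne => by
      obtain ⟨ξ, h, rfl⟩ := Finset.mem_image.1 h1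
      obtain ⟨ξ', h', rfl⟩ := Finset.mem_image.1 h2
      obtain ⟨φ, h3, h4⟩ := hsep ξ h ξ' h' fun e => hne (by rw [e])
      exact ⟨1, _, S.A_le 1 (hAF 1 φ h3), S.A_inv (hAF 1 φ h3), h4⟩)
    (g0 := x ξ0)
    (fun g1 h1 k c hc h0 => by
      obtain ⟨ξ, h, rfl⟩ := Finset.mem_image.1 h1
      rw [hA] at hc
      obtain ⟨f, hf, rfl⟩ := mem_fil.1 hc
      rw [hC'.I, sl_sum_mem_I] at h0 ⊢
      intro i hi
      obtain ⟨ψ, hψ, e⟩ := hf i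
      have := h0 i hi
      rw [← e] at this ⊢
      exact (key ξ h _ ψ hψ).2 ((key ξ0 hξ0 _ ψ hψ).1 this))
    (del := del) (s := 8) (c := c)
    (fun k => by rw [hA]; exact (hfil k).1) (fun k => by rw [hA]; exact (hfil k).2)
  rw [hcard, hN] at main
  refine main.trans ?_
  rw [mul_right_comm]
  exact Nat.mul_le_mul_right _ (Nat.mul_le_mul_left _ (Nat.pow_le_pow_right (by norm_num) hd))

end M4.CL
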