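import Pool.Agent.Lib.MP_33b3f9_ag.M4.CL.Mx

/-! The integral symplectic group is transitive on primitive vectors. -/

namespace M4.CL

open Matrix

variable {ι : Type} [Fintype ι] [DecidableEq ι]

/-- Being in the same orbit. -/
def trRel (v w : ι ⊕ ι → ℤ) : Prop := ∃ γ ∈ symplecticGroup ι ℤ, v = γ *ᵥ w

theorem tr_refl (v : ι ⊕ ι → ℤ) : trRel v v := ⟨1, one_mem _, (one_mulVec v).symm⟩

theorem tr_trans {u v w : ι ⊕ ι → ℤ} (h : trRel u v) (h' : trRel v w) : trRel u w := by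
  obtain ⟨γ, hγ, rfl⟩ := h
  obtain ⟨δ, hδ, rfl⟩ := h'
  exact ⟨γ * δ, mul_mem hγ hδ, mulVec_mulVec _ _ _⟩

theorem tr_skew (u v : ι ⊕ ι → ℤ) : u ⬝ᵥ J ι ℤ *ᵥ v = -(v ⬝ᵥ J ι ℤ *ᵥ u) := by
  rw [dotProduct_mulVec, ← mulVec_transpose, J_transpose, neg_mulVec, neg_dotProduct,
    dotProduct_comm]

theorem tr_self (u : ι ⊕ ι → ℤ) : u ⬝ᵥ J ι ℤ *ᵥ u = 0 := by
  have := tr_skew u u
  omega

theorem tr_mem (t : ℤ) (u : ι ⊕ ι → ℤ) : 1 + t • nv u ∈ symplecticGroup ι ℤ := by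
  have h1 : (vecMulVec u u)ᵀ = vecMulVec u u := transpose_vecMulVec u u
  have h2 : vecMulVec u u * (J ι ℤ * vecMulVec u u) = 0 := by
    rw [mul_vecMulVec, vecMulVec_mul_vecMulVec, tr_self]
    simp
  have h3 : ∀ X : ZM ι, J ι ℤ * (J ι ℤ * X) = -X := fun X => by
    rw [← Matrix.mul_assoc, J_squared, Matrix.neg_mul, Matrix.one_mul]
  rw [SymplecticGroup.mem_iff, nv, transpose_add, transpose_smul, transpose_mul, h1, J_transpose,
    transpose_one]
  simp only [add_mul, mul_add, Matrix.one_mul, Matrix.mul_one, smul_mul_assoc, mul_smul_comm,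
    Matrix.mul_assoc, J_squared, Matrix.neg_mul, Matrix.mul_neg, h2, h3, neg_neg, smul_neg,
    neg_zero, smul_zero, add_zero]
  abel

theorem tr_tv (t : ℤ) (u v : ι ⊕ ι → ℤ) : trRel v (v + (t * (u ⬝ᵥ J ι ℤ *ᵥ v)) • u) := by
  refine ⟨_, tr_mem (-t) u, ?_⟩
  rw [add_mulVec, one_mulVec, smul_mulVec, nv, ← mulVec_mulVec, vecMulVec_mulVec, mulVec_add,
    mulVec_smul, dotProduct_add, dotProduct_smul, tr_self]
  ext k
  simp
  ring

theorem tr_two (t : ℤ) {u b v : ι ⊕ ι → ℤ} (h1 : b ⬝ᵥ J ι ℤ *ᵥ u = 0) (h2 : u ⬝ᵥ J ι ℤ *ᵥ v = 0) :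
    trRel v (v + (t * (b ⬝ᵥ J ι ℤ *ᵥ v)) • u) := by
  have h3 := tr_trans (tr_tv t (u + b) v) (tr_tv (-t) b _)
  rw [add_dotProduct, h2, zero_add, mulVec_add, mulVec_smul, mulVec_add, dotProduct_add,
    dotProduct_smul, dotProduct_add, h1, tr_self] at h3
  convert h3 using 1
  ext k
  simp
  ring

theorem tr_single (α : ι ⊕ ι) : ∃ ε : ℤ, ε * ε = 1 ∧
    ∀ v : ι ⊕ ι → ℤ, Pi.single α 1 ⬝ᵥ J ι ℤ *ᵥ v = ε * v α.swap := by
  rcases α with i | i
  · exact ⟨-1, rfl, fun v => by simp [J, fromBlocks_mulVec, neg_mulVec]⟩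
  · exact ⟨1, rfl, fun v => by simp [J, fromBlocks_mulVec, neg_mulVec]⟩

theorem tr_move (s : ℤ) {α γ : ι ⊕ ι} (v : ι ⊕ ι → ℤ) (h : α ≠ γ)
    (h' : γ = α.swap ∨ v γ.swap = 0) : trRel v (v + (s * v α) • Pi.single γ 1) := by
  obtain ⟨ε, hε, h1⟩ := tr_single α.swap
  have e : s * v α = s * ε * (Pi.single α.swap 1 ⬝ᵥ J ι ℤ *ᵥ v) := by
    rw [h1, Sum.swap_swap]
    linear_combination (-(s * v α)) * hε
  rw [e]
  rcases h' with rfl | h'
  · exact tr_tv _ _ v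
  · obtain ⟨δ, -, h2⟩ := tr_single γ
    refine tr_two _ ?_ ?_
    · rw [h1, Sum.swap_swap, Pi.single_eq_of_ne h, mul_zero]
    · rw [h2, h', mul_zero]

theorem tr_dec {α γ : ι ⊕ ι} (v : ι ⊕ ι → ℤ) (h : α ≠ γ) (h' : γ = α.swap ∨ v γ.swap = 0)
    (h0 : v α ≠ 0) (hle : (v α).natAbs ≤ (v γ).natAbs) :
    ∃ w, trRel v w ∧ ∑ k, (w k).natAbs < ∑ k, (v k).natAbs := by
  obtain ⟨s, hs⟩ : ∃ s : ℤ, (v γ + s * v α).natAbs < (v γ).natAbs := by
    by_cases hp : (0 < v α ↔ 0 < v γ)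
    · exact ⟨-1, by omega⟩
    · exact ⟨1, by omega⟩
  refine ⟨_, tr_move s v h h', Finset.sum_lt_sum (fun k _ => ?_) ⟨γ, Finset.mem_univ _, ?_⟩⟩
  · by_cases hk : k = γ
    · subst hk
      simpa using hs.le
    · simp [Pi.single_eq_of_ne hk]
  · simpa using hs

theorem tr_one (n : ℕ) : ∀ v : ι ⊕ ι → ℤ, ∑ k, (v k).natAbs = n →
    ∃ w, trRel v w ∧ ∀ α γ, α ≠ γ → w α = 0 ∨ w γ = 0 := by
  induction n using Nat.strong_induction_on with
  | _ n ih =>
    intro v hv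
    by_cases h : ∀ α γ, α ≠ γ → v α = 0 ∨ v γ = 0
    · exact ⟨v, tr_refl v, h⟩
    obtain ⟨w, hw, hlt⟩ : ∃ w, trRel v w ∧ ∑ k, (w k).natAbs < ∑ k, (v k).natAbs := by
      by_cases hp : ∃ α, v α ≠ 0 ∧ v α.swap ≠ 0
      · obtain ⟨α, h1, h2⟩ := hp
        have hne : α ≠ α.swap := by rcases α with i | i <;> simp
        rcases le_total (v α).natAbs (v α.swap).natAbs with hle | hle
        · exact tr_dec v hne (Or.inl rfl) h1 hle
        · exact tr_dec v hne.symm (Or.inl (Sum.swap_swap α).symm) h2 hle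
      · push Not at h hp
        obtain ⟨α, γ, hne, h1, h2⟩ := h
        rcases le_total (v α).natAbs (v γ).natAbs with hle | hle
        · exact tr_dec v hne (Or.inr (hp γ h2)) h1 hle
        · exact tr_dec v hne.symm (Or.inr (hp α h1)) h2 hle
    obtain ⟨u, hu, hu'⟩ := ih _ (hv ▸ hlt) w rfl
    exact ⟨u, tr_trans hw hu, hu'⟩

theorem tr_swap (c : ℤ) (α γ : ι ⊕ ι) :
    trRel (c • Pi.single α 1 : ι ⊕ ι → ℤ) (c • Pi.single γ 1) := by
  by_cases h : α = γ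
  · subst h
    exact tr_refl _
  have hne : ∀ β : ι ⊕ ι, β.swap ≠ β := fun β => by rcases β with i | i <;> simp
  have h1 := tr_move 1 (c • Pi.single α 1 : ι ⊕ ι → ℤ) h (by
    by_cases hs : γ.swap = α
    · exact Or.inl (by rw [← hs, Sum.swap_swap])
    · exact Or.inr (by simp [Pi.single_eq_of_ne hs]))
  have h2 := tr_move (-1) (c • Pi.single α 1 + c • Pi.single γ 1 : ι ⊕ ι → ℤ) (Ne.symm h) (by
    by_cases hs : α.swap = γ
    · exact Or.inl (by rw [← hs, Sum.swap_swap])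
    · exact Or.inr (by simp [Pi.single_eq_of_ne hs, Pi.single_eq_of_ne (hne α)]))
  simp only [Pi.smul_apply, Pi.add_apply, Pi.single_eq_same, Pi.single_eq_of_ne (Ne.symm h),
    smul_eq_mul, mul_one, one_mul, mul_zero, zero_add, neg_mul, neg_smul] at h1 h2
  rw [add_neg_cancel_comm] at h2
  exact tr_trans h1 h2

/-- Moves: `1 + t • nv b` and, for `b ⬝ᵥ J u = 0`, `1 + (vecMulVec u b + vecMulVec b u) * J`, are
symplectic. In the orbit of `w` take a vector `v` and a coordinate `α` with `c = v α ≠ 0` of least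
absolute value, `b` the basis vector of the partner coordinate `β`. The first move changes `v β` by
multiples of `c`, the second (with `u` a basis vector) changes `v γ` by multiples of `c` and
otherwise only `v β`. So `c` divides all coordinates (minimality); one move of the second kind and
one of the first give `c • e α`. The same moves put `c` into the coordinate `i0`; repeat. -/
theorem exists_tr (i0 : ι ⊕ ι) (w : ι ⊕ ι → ℤ) :
    ∃ (c : ℤ) (γ : ZM ι), γ ∈ symplecticGroup ι ℤ ∧ w = c • γ *ᵥ Pi.single i0 1 := by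
  obtain ⟨v, hv, h⟩ := tr_one _ w rfl
  obtain ⟨α, hα⟩ : ∃ α, v = v α • Pi.single α 1 := by
    by_cases h0 : ∃ α, v α ≠ 0
    · obtain ⟨α, hα⟩ := h0
      refine ⟨α, funext fun k => ?_⟩
      by_cases hk : k = α
      · simp [hk]
      · simpa [Pi.single_eq_of_ne hk] using (h k α hk).resolve_right hα
    · push Not at h0
      exact ⟨i0, funext fun k => by simp [h0]⟩
  rw [hα] at hv
  obtain ⟨γ, hγ, e⟩ := tr_trans hv (tr_swap (v α) α i0)
  exact ⟨v α, γ, hγ, by rw [e, mulVec_smul]⟩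

end M4.CL
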