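import Pool.Agent.Lib.MP_33b3f9_ag.M4.CL.Main
import Pool.Agent.Lib.MP_33b3f9_ag.M4.B5
import Pool.Agent.Lib.MP_33b3f9_ag.M4.SH.Fin
import Pool.Agent.Lib.MP_33b3f9_ag.M4.ModIf

/-! The counting lemma, with its inputs. -/

namespace M4.CL

open Matrix

theorem holF {ι W : Type} [Fintype ι] [NormedAddCommGroup W] [NormedSpace ℂ W]
    {F : (ι → ι → ℂ) → ℂ} (hF : DifferentiableOn ℂ F (PosIm ι)) : FP.HolF W (ι := ι) F :=
  fun σ s _ h1 h2 => hF.comp (f := fun w i j => σ w i j)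
    (differentiableOn_pi.2 fun i => differentiableOn_pi.2 fun j => h1 i j) fun w hw => (h2 w hw).posIm

theorem clI (y : Matrix (Fin 11) Bits ℂ) (a : Sy) (ha : InH (mat a)) (hg : GEN (cst (mat a)))
    (hy : FinProj y) (he : EtProj y a) : CLst y a := by
  refine cl y a ha hy ?_ ?_
  · obtain ⟨N0, kk, gg, -, h⟩ := fin_MI hy (q := 32) (by norm_num) (S := {γ | Lv 32 γ})
      (fun _ h => h) fun γ h i j => Dvd.dvd.trans (by norm_num) (h i j)
    exact ⟨N0, kk, gg, h⟩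
  · intro g M hI d v P hd hv h0 hi hP hh hdm hc
    obtain ⟨G, -, h1, h2⟩ := SH.monoI (hasRed _) (Mo.hasLow _) hy he ha hg (iso_odd hI).pos hI.2.2 hd hv
      h0 hi hP hh hdm hc
    exact ⟨G, h1, fun γ hγ F hF => h2 γ hγ F (holF hF)⟩

end M4.CL
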